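import Mathlib
import Pool.Agent.Helper87.TB.Defs

/-!
# TB-Facts: elementary facts on the determinant and the discriminant

`RH`-membership: `lin_mem_RH`/`X_mem_RH` and `RH_mul` (TA/St/RowA.lean), or directly.  Signs: for the rename by `σ` it is enough to
check the six permutations of `Fin 3` (`decide`-type case distinction: `fin_cases σ` does not always work; one can use that the statement is
multiplicative in `σ` and check the two transpositions `swap 0 1`, `swap 1 2`, with `Equiv.Perm.mclosure_swap..`; or: `σ 0, σ 1, σ 2` are distinct,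
`Fin 3` cases).  `mi j i = - mi i j`, `dt` is alternating.
-/

set_option autoImplicit false

open MvPolynomial Finset

namespace Helper87.TB

open Helper87.TR Helper87.TA

theorem Eqs_mul (m r k l : ℕ) (f g : MvPolynomial (Fin m × Fin r) ℚ) (hf : f ∈ Eqs m r k)
    (hg : g ∈ Eqs m r l) : f * g ∈ Eqs m r (k + l) := by
  intro σ
  rw [map_mul, hf σ, hg σ, smul_mul_smul_comm, pow_add]

theorem Eqs_parity (m r k l : ℕ) (h : k % 2 = l % 2) : Eqs m r k = Eqs m r l := by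
  have key : ∀ σ : Equiv.Perm (Fin m), (((Equiv.Perm.sign σ : ℤ) : ℚ)) ^ k =
      (((Equiv.Perm.sign σ : ℤ) : ℚ)) ^ l := by
    intro σ
    rcases Int.units_eq_one_or (Equiv.Perm.sign σ) with h1 | h1
    · rw [h1]
      simp
    · rw [h1]
      have e : ((((-1 : ℤˣ) : ℤ)) : ℚ) = -1 := by simp
      rw [e]
      rcases Nat.even_or_odd k with hk | hk
      · have hl : Even l := by
          rw [Nat.even_iff] at hk ⊢
          omega
        rw [hk.neg_one_pow, hl.neg_one_pow]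
      · have hl : Odd l := by
          rw [Nat.odd_iff] at hk ⊢
          omega
        rw [hk.neg_one_pow, hl.neg_one_pow]
  apply le_antisymm
  · intro f hf σ
    rw [hf σ, key σ]
  · intro f hf σ
    rw [hf σ, key σ]

theorem tbfacts_perm_cases (σ : Equiv.Perm (Fin 3)) :
    (σ 0 = 0 ∧ σ 1 = 1 ∧ σ 2 = 2 ∧ Equiv.Perm.sign σ = 1) ∨
    (σ 0 = 1 ∧ σ 1 = 2 ∧ σ 2 = 0 ∧ Equiv.Perm.sign σ = 1) ∨
    (σ 0 = 2 ∧ σ 1 = 0 ∧ σ 2 = 1 ∧ Equiv.Perm.sign σ = 1) ∨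
    (σ 0 = 1 ∧ σ 1 = 0 ∧ σ 2 = 2 ∧ Equiv.Perm.sign σ = -1) ∨
    (σ 0 = 0 ∧ σ 1 = 2 ∧ σ 2 = 1 ∧ Equiv.Perm.sign σ = -1) ∨
    (σ 0 = 2 ∧ σ 1 = 1 ∧ σ 2 = 0 ∧ Equiv.Perm.sign σ = -1) := by
  revert σ
  decide

/-- three distinct points give the determinant up to sign -/
theorem tbfacts_dt_perm (σ : Equiv.Perm (Fin 3)) :
    dt (σ 0) (σ 1) (σ 2) = (((Equiv.Perm.sign σ : ℤ) : ℚ)) • Dl := by
  rcases tbfacts_perm_cases σ with h | h | h | h | h | h <;>
  · obtain ⟨h0, h1, h2, h3⟩ := h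
    rw [h0, h1, h2, h3]
    simp only [Dl, dt, mi, Units.val_one, Units.val_neg, Int.cast_one, Int.cast_neg, one_smul, neg_smul] <;> ring

/-- three distinct points give the discriminant up to sign -/
theorem tbfacts_DD_perm (σ : Equiv.Perm (Fin 3)) :
    (mi (σ 1) (σ 2) * mi (σ 2) (σ 0) * mi (σ 0) (σ 1) : MvPolynomial (Fin 3 × Fin 3) ℚ) =
      (((Equiv.Perm.sign σ : ℤ) : ℚ)) • DD := by
  rcases tbfacts_perm_cases σ with h | h | h | h | h | h <;>
  · obtain ⟨h0, h1, h2, h3⟩ := h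
    rw [h0, h1, h2, h3]
    simp only [DD, mi, Units.val_one, Units.val_neg, Int.cast_one, Int.cast_neg, one_smul, neg_smul] <;> ring

theorem tbfacts_RH_mul {d d' d'' : Fin 3 → ℕ} {f g : MvPolynomial (Fin 3 × Fin 3) ℚ} (hf : f ∈ RH 3 d)
    (hg : g ∈ RH 3 d') (h : ∀ i, d i + d' i = d'' i) : f * g ∈ RH 3 d'' := by
  have h1 := RH_mul d d' (Submodule.mul_mem_mul hf hg)
  have h2 : (fun i => d i + d' i) = d'' := funext h
  rw [h2] at h1
  exact h1

theorem tbfacts_mi_RH (i j : Fin 3) :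
    (mi i j : MvPolynomial (Fin 3 × Fin 3) ℚ) ∈
      RH 3 (fun t : Fin 3 => (if t = i then 1 else 0) + (if t = j then 1 else 0)) := by
  unfold mi
  refine Submodule.sub_mem _ ?_ ?_
  · exact tbfacts_RH_mul (X_mem_RH i 0) (X_mem_RH j 1) fun t => rfl
  · exact tbfacts_RH_mul (X_mem_RH j 0) (X_mem_RH i 1) fun t => add_comm _ _

theorem tbfacts_X_wt0 (i : Fin 3) (j : Fin 3) (h : j ≠ 2) :
    IsWeightedHomogeneous (wt (Fin 3)) (X (i, j) : MvPolynomial (Fin 3 × Fin 3) ℚ) 0 := by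
  have h1 := isWeightedHomogeneous_X ℚ (wt (Fin 3)) (i, j)
  have h2 : wt (Fin 3) (i, j) = 0 := if_neg h
  rw [h2] at h1
  exact h1

theorem tbfacts_X_wt1 (i : Fin 3) :
    IsWeightedHomogeneous (wt (Fin 3)) (X (i, 2) : MvPolynomial (Fin 3 × Fin 3) ℚ) 1 := by
  have h1 := isWeightedHomogeneous_X ℚ (wt (Fin 3)) (i, (2 : Fin 3))
  have h2 : wt (Fin 3) (i, (2 : Fin 3)) = 1 := if_pos rfl
  rw [h2] at h1
  exact h1

theorem tbfacts_mi_wt (i j : Fin 3) : (mi i j : MvPolynomial (Fin 3 × Fin 3) ℚ) ∈ Wd 0 := by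
  unfold mi
  refine Submodule.sub_mem _ ?_ ?_
  · exact (tbfacts_X_wt0 i 0 (by decide)).mul (tbfacts_X_wt0 j 1 (by decide))
  · exact (tbfacts_X_wt0 j 0 (by decide)).mul (tbfacts_X_wt0 i 1 (by decide))

theorem tbfacts_Wd_mul {k l : ℕ} {f g : MvPolynomial (Fin 3 × Fin 3) ℚ} (hf : f ∈ Wd k) (hg : g ∈ Wd l) :
    f * g ∈ Wd (k + l) := by
  have h1 : IsWeightedHomogeneous (wt (Fin 3)) f k := hf
  have h2 : IsWeightedHomogeneous (wt (Fin 3)) g l := hg
  exact h1.mul h2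

theorem Dl_mem : Dl ∈ RH 3 (fun _ : Fin 3 => 1) ∧ Dl ∈ Eqs 3 3 1 ∧ Dl ∈ Wd 1 := by
  refine ⟨?_, ?_, ?_⟩
  · unfold Dl dt
    refine Submodule.add_mem _ (Submodule.add_mem _ ?_ ?_) ?_
    · exact tbfacts_RH_mul (X_mem_RH 0 2) (tbfacts_mi_RH 1 2) (by decide)
    · exact tbfacts_RH_mul (X_mem_RH 1 2) (tbfacts_mi_RH 2 0) (by decide)
    · exact tbfacts_RH_mul (X_mem_RH 2 2) (tbfacts_mi_RH 0 1) (by decide)
  · intro σ
    have h := tbfacts_dt_perm σ
    rw [pow_one, ← h]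
    simp only [Dl, dt, mi, map_add, map_mul, map_sub, rename_X]
  · unfold Dl dt
    refine Submodule.add_mem _ (Submodule.add_mem _ ?_ ?_) ?_
    · exact tbfacts_Wd_mul (k := 1) (l := 0) (tbfacts_X_wt1 0) (tbfacts_mi_wt 1 2)
    · exact tbfacts_Wd_mul (k := 1) (l := 0) (tbfacts_X_wt1 1) (tbfacts_mi_wt 2 0)
    · exact tbfacts_Wd_mul (k := 1) (l := 0) (tbfacts_X_wt1 2) (tbfacts_mi_wt 0 1)

theorem DD_mem : DD ∈ B 2 1 := by
  refine ⟨⟨?_, ?_⟩, ?_⟩
  · unfold DD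
    exact tbfacts_RH_mul (d := fun t : Fin 3 => ((if t = 1 then 1 else 0) + (if t = 2 then 1 else 0)) +
      ((if t = 2 then 1 else 0) + (if t = 0 then 1 else 0)))
      (tbfacts_RH_mul (tbfacts_mi_RH 1 2) (tbfacts_mi_RH 2 0) fun _ => rfl) (tbfacts_mi_RH 0 1) (by decide)
  · intro σ
    have h := tbfacts_DD_perm σ
    rw [pow_one, ← h]
    simp only [DD, mi, map_mul, map_sub, rename_X]
  · unfold DD
    exact tbfacts_Wd_mul (k := 0) (l := 0)
      (tbfacts_Wd_mul (k := 0) (l := 0) (tbfacts_mi_wt 1 2) (tbfacts_mi_wt 2 0)) (tbfacts_mi_wt 0 1)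

theorem Dl_ne : Dl ≠ 0 := by
  intro h
  have h1 := congrArg (eval fun p : Fin 3 × Fin 3 => if p.1 = p.2 then (1 : ℚ) else 0) h
  simp [Dl, dt, mi] at h1

theorem DD_ne : DD ≠ 0 := by
  intro h
  have h1 := congrArg (eval fun p : Fin 3 × Fin 3 => if p.1 = 2 ∨ p.1 = p.2 then (1 : ℚ) else 0) h
  simp [DD, mi] at h1

theorem tbfacts_Ed_X (j : Fin 3) (i k : Fin 3) :
    Ed (Fin 3) j 2 (X (i, k) : MvPolynomial (Fin 3 × Fin 3) ℚ) = if k = 2 then X (i, j) else 0 := by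
  unfold Ed
  change Derivation.coeFnAddMonoidHom (∑ s : Fin 3, (X (s, j) : MvPolynomial (Fin 3 × Fin 3) ℚ) • pderiv (s, (2 : Fin 3)))
    (X (i, k)) = _
  rw [map_sum, Finset.sum_apply]
  simp only [Derivation.coeFnAddMonoidHom_apply]
  by_cases hk : k = 2
  · subst hk
    rw [if_pos rfl, Finset.sum_eq_single i]
    · rw [Derivation.smul_apply, pderiv_X_self, smul_eq_mul, mul_one]
    · intro b _ hb
      rw [Derivation.smul_apply, pderiv_X_of_ne, smul_zero]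
      intro h
      exact hb (Prod.ext_iff.1 h).1.symm
    · intro h
      exact absurd (Finset.mem_univ _) h
  · rw [if_neg hk]
    apply Finset.sum_eq_zero
    intro b _
    rw [Derivation.smul_apply, pderiv_X_of_ne, smul_zero]
    intro h
    exact hk (Prod.ext_iff.1 h).2

theorem tbfacts_Ed_Dl (j : Fin 3) (hj : j ≠ 2) : Ed (Fin 3) j 2 Dl = 0 := by
  have h0 : (0 : Fin 3) ≠ 2 := by decide
  have h1 : (1 : Fin 3) ≠ 2 := by decide
  have hjj : j = 0 ∨ j = 1 := by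
    revert j
    decide
  rcases hjj with h | h <;>
  · subst h
    simp only [Dl, dt, mi, map_add, map_sub, Derivation.leibniz, tbfacts_Ed_X, h0, h1, if_true, if_false,
      smul_eq_mul, mul_zero, sub_zero, add_zero, zero_add]
    ring

theorem Ed_Dl : Ed (Fin 3) 0 2 Dl = 0 ∧ Ed (Fin 3) 1 2 Dl = 0 :=
  ⟨tbfacts_Ed_Dl 0 (by decide), tbfacts_Ed_Dl 1 (by decide)⟩

theorem B_mul (n k n' k' : ℕ) (f g : MvPolynomial (Fin 3 × Fin 3) ℚ) (hf : f ∈ B n k) (hg : g ∈ B n' k') :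
    f * g ∈ B (n + n') (k + k') := by
  obtain ⟨⟨hf1, hf2⟩, hf3⟩ := hf
  obtain ⟨⟨hg1, hg2⟩, hg3⟩ := hg
  exact ⟨⟨tbfacts_RH_mul hf1 hg1 fun _ => rfl, Eqs_mul 3 3 k k' f g hf2 hg2⟩, tbfacts_Wd_mul hf3 hg3⟩

/-- three distinct points give the determinant up to sign -/
theorem dt_perm (σ : Equiv.Perm (Fin 3)) :
    dt (σ 0) (σ 1) (σ 2) = (((Equiv.Perm.sign σ : ℤ) : ℚ)) • Dl :=
  tbfacts_dt_perm σ

theorem dt_eq_zero (i j k : Fin 3) (h : i = j ∨ j = k ∨ i = k) : dt i j k = 0 := by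
  rcases h with h | h | h <;>
  · subst h
    unfold dt mi
    ring

end Helper87.TB
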