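import Mathlib
import Pool.Agent.Helper87.TB.Defs
import Pool.Agent.Helper87.TB.St.Facts

/-!
# TB-BinSp: symmetric polynomials in three points of the plane

`bx b` is the coefficient of `T^b` in `∏_i (x_i + T y_i)`.  For `j : Fin 3 → ℕ` with `j i ≤ n` let `M_n(j) = ∑_σ ∏_i x_{σ i}^(n - j i) y_{σ i}^(j i)`; `B n 0` is spanned by the `M_n(j)` (an
element of `B n 0` is `1/6` of its symmetrization, expand into monomials).  Claim: `M_n(j) ∈ span {bx b} * B (n-1) 0` for `n ≥ 1`: induction on the number of zeros of `j`.  Let `Z` be the set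
of `i` with `j i = 0`, `b = 3 - |Z|`, `j' = j - 1` on the complement of `Z`; then `bx b * M_{n-1}(j') = ∑_{|U| = b} M_n(j' + 1_U)`, and `j' + 1_U` has fewer zeros than `j` or is
a permutation of `j` (a zero of `j' + 1_U` outside ... : if `U` is not the complement of `Z`, then the elements of `U ∩ Z` are no longer zero and the elements `i` of the complement of `Z` not in
`U` have the value `j i - 1`, zero only if `j i = 1`; the number of zeros does not increase, and if it stays the same all these `j i` are `1` and `j' + 1_U` is a permutation of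
`j`).  The number of `U` giving a permutation of `j` is positive.  (Any other proof is fine; e.g. by cases `|Z| = 0, 1, 2, 3` with explicit formulas.)
Then `bin_split` follows by induction on `n1` (`B n 0 ≤ (span {bx b}) * B (n-1) 0`, `B 0 0` = constants).
-/

set_option autoImplicit false

open MvPolynomial Finset

namespace Helper87.TB

open Helper87.TR Helper87.TA

/-- the coefficients of `∏ (x_i + T y_i)` -/
noncomputable def bx (b : Fin 4) : MvPolynomial (Fin 3 × Fin 3) ℚ :=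
  ∑ U ∈ (univ : Finset (Fin 3)).powersetCard b, (∏ i ∈ U, X (i, 1)) * ∏ i ∈ Uᶜ, X (i, 0)

/-- monomials of degree `n` in every point -/
noncomputable def tbbinsp_mo (n a b c : ℕ) : MvPolynomial (Fin 3 × Fin 3) ℚ :=
  (X (0, 0) ^ (n - a) * X (0, 1) ^ a) * (X (1, 0) ^ (n - b) * X (1, 1) ^ b) *
    (X (2, 0) ^ (n - c) * X (2, 1) ^ c)

/-- symmetrization -/
noncomputable def tbbinsp_S (f : MvPolynomial (Fin 3 × Fin 3) ℚ) : MvPolynomial (Fin 3 × Fin 3) ℚ :=
  ∑ σ : Equiv.Perm (Fin 3), rename (fun p : Fin 3 × Fin 3 => (σ p.1, p.2)) f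

/-- symmetrized monomials -/
noncomputable def tbbinsp_M (n a b c : ℕ) : MvPolynomial (Fin 3 × Fin 3) ℚ :=
  tbbinsp_S (tbbinsp_mo n a b c)

theorem tbbinsp_rr (σ τ : Equiv.Perm (Fin 3)) (f : MvPolynomial (Fin 3 × Fin 3) ℚ) :
    rename (fun p : Fin 3 × Fin 3 => (σ p.1, p.2)) (rename (fun p : Fin 3 × Fin 3 => (τ p.1, p.2)) f) =
      rename (fun p : Fin 3 × Fin 3 => ((σ * τ) p.1, p.2)) f := by
  rw [rename_rename]
  rfl

theorem tbbinsp_S_left (τ : Equiv.Perm (Fin 3)) (f : MvPolynomial (Fin 3 × Fin 3) ℚ) :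
    rename (fun p : Fin 3 × Fin 3 => (τ p.1, p.2)) (tbbinsp_S f) = tbbinsp_S f := by
  unfold tbbinsp_S
  rw [map_sum]
  simp_rw [tbbinsp_rr]
  exact Equiv.sum_comp (Equiv.mulLeft τ)
    (fun σ : Equiv.Perm (Fin 3) => rename (fun p : Fin 3 × Fin 3 => (σ p.1, p.2)) f)

theorem tbbinsp_S_right (τ : Equiv.Perm (Fin 3)) (f : MvPolynomial (Fin 3 × Fin 3) ℚ) :
    tbbinsp_S (rename (fun p : Fin 3 × Fin 3 => (τ p.1, p.2)) f) = tbbinsp_S f := by
  unfold tbbinsp_S
  simp_rw [tbbinsp_rr]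
  exact Equiv.sum_comp (Equiv.mulRight τ)
    (fun σ : Equiv.Perm (Fin 3) => rename (fun p : Fin 3 × Fin 3 => (σ p.1, p.2)) f)

theorem tbbinsp_S_add (f g : MvPolynomial (Fin 3 × Fin 3) ℚ) :
    tbbinsp_S (f + g) = tbbinsp_S f + tbbinsp_S g := by
  unfold tbbinsp_S
  simp_rw [map_add]
  rw [Finset.sum_add_distrib]

theorem tbbinsp_S_smul (c : ℚ) (f : MvPolynomial (Fin 3 × Fin 3) ℚ) :
    tbbinsp_S (c • f) = c • tbbinsp_S f := by
  unfold tbbinsp_S
  simp_rw [map_smul]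
  rw [Finset.smul_sum]

theorem tbbinsp_S_sum {ι : Type} (s : Finset ι) (f : ι → MvPolynomial (Fin 3 × Fin 3) ℚ) :
    tbbinsp_S (∑ i ∈ s, f i) = ∑ i ∈ s, tbbinsp_S (f i) := by
  unfold tbbinsp_S
  simp_rw [map_sum]
  rw [Finset.sum_comm]

/-- products with invariant polynomials -/
theorem tbbinsp_S_mul (g f : MvPolynomial (Fin 3 × Fin 3) ℚ)
    (hg : ∀ σ : Equiv.Perm (Fin 3), rename (fun p : Fin 3 × Fin 3 => (σ p.1, p.2)) g = g) :
    g * tbbinsp_S f = tbbinsp_S (g * f) := by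
  unfold tbbinsp_S
  rw [Finset.mul_sum]
  refine Finset.sum_congr rfl fun σ _ => ?_
  rw [map_mul, hg σ]

theorem tbbinsp_S_inv (f : MvPolynomial (Fin 3 × Fin 3) ℚ)
    (hf : ∀ σ : Equiv.Perm (Fin 3), rename (fun p : Fin 3 × Fin 3 => (σ p.1, p.2)) f = f) :
    tbbinsp_S f = (6 : ℚ) • f := by
  unfold tbbinsp_S
  rw [Finset.sum_congr rfl fun σ _ => hf σ, Finset.sum_const]
  have h : (univ : Finset (Equiv.Perm (Fin 3))).card = 6 := by
    rw [Finset.card_univ, Fintype.card_perm, Fintype.card_fin]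
    rfl
  rw [h, ← Nat.cast_smul_eq_nsmul ℚ]
  norm_num

theorem tbbinsp_mo_swap01 (n a b c : ℕ) :
    rename (fun p : Fin 3 × Fin 3 => (Equiv.swap (0 : Fin 3) 1 p.1, p.2)) (tbbinsp_mo n a b c) =
      tbbinsp_mo n b a c := by
  unfold tbbinsp_mo
  have h0 : Equiv.swap (0 : Fin 3) 1 0 = 1 := by decide
  have h1 : Equiv.swap (0 : Fin 3) 1 1 = 0 := by decide
  have h2 : Equiv.swap (0 : Fin 3) 1 2 = 2 := by decide
  simp only [map_mul, map_pow, rename_X, h0, h1, h2]
  ring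

theorem tbbinsp_mo_swap12 (n a b c : ℕ) :
    rename (fun p : Fin 3 × Fin 3 => (Equiv.swap (1 : Fin 3) 2 p.1, p.2)) (tbbinsp_mo n a b c) =
      tbbinsp_mo n a c b := by
  unfold tbbinsp_mo
  have h0 : Equiv.swap (1 : Fin 3) 2 0 = 0 := by decide
  have h1 : Equiv.swap (1 : Fin 3) 2 1 = 2 := by decide
  have h2 : Equiv.swap (1 : Fin 3) 2 2 = 1 := by decide
  simp only [map_mul, map_pow, rename_X, h0, h1, h2]
  ring

theorem tbbinsp_M_swap01 (n a b c : ℕ) : tbbinsp_M n a b c = tbbinsp_M n b a c := by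
  unfold tbbinsp_M
  rw [← tbbinsp_mo_swap01, tbbinsp_S_right]

theorem tbbinsp_M_swap12 (n a b c : ℕ) : tbbinsp_M n a b c = tbbinsp_M n a c b := by
  unfold tbbinsp_M
  rw [← tbbinsp_mo_swap12, tbbinsp_S_right]

theorem tbbinsp_mo_mul (n a b c a' b' c' : ℕ) (ha : a ≤ n) (hb : b ≤ n) (hc : c ≤ n) (ha' : a' ≤ 1)
    (hb' : b' ≤ 1) (hc' : c' ≤ 1) :
    tbbinsp_mo 1 a' b' c' * tbbinsp_mo n a b c = tbbinsp_mo (n + 1) (a + a') (b + b') (c + c') := by
  unfold tbbinsp_mo
  have h1 : n + 1 - (a + a') = (1 - a') + (n - a) := by omega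
  have h2 : n + 1 - (b + b') = (1 - b') + (n - b) := by omega
  have h3 : n + 1 - (c + c') = (1 - c') + (n - c) := by omega
  rw [h1, h2, h3]
  simp only [pow_add]
  ring

theorem tbbinsp_bx0 : bx 0 = tbbinsp_mo 1 0 0 0 := by
  have h : (univ : Finset (Fin 3)).powersetCard (((0 : Fin 4) : ℕ)) = {∅} := by decide
  unfold bx tbbinsp_mo
  rw [h, Finset.sum_singleton]
  simp [Fin.prod_univ_three]

theorem tbbinsp_bx1 : bx 1 = tbbinsp_mo 1 1 0 0 + tbbinsp_mo 1 0 1 0 + tbbinsp_mo 1 0 0 1 := by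
  have h : (univ : Finset (Fin 3)).powersetCard (((1 : Fin 4) : ℕ)) = {{0}, {1}, {2}} := by decide
  have e0 : ({0} : Finset (Fin 3))ᶜ = {1, 2} := by decide
  have e1 : ({1} : Finset (Fin 3))ᶜ = {0, 2} := by decide
  have e2 : ({2} : Finset (Fin 3))ᶜ = {0, 1} := by decide
  have n0 : ({0} : Finset (Fin 3)) ∉ ({{1}, {2}} : Finset (Finset (Fin 3))) := by decide
  have n1 : ({1} : Finset (Fin 3)) ∉ ({{2}} : Finset (Finset (Fin 3))) := by decide
  have m0 : (1 : Fin 3) ∉ ({2} : Finset (Fin 3)) := by decide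
  have m1 : (0 : Fin 3) ∉ ({2} : Finset (Fin 3)) := by decide
  have m2 : (0 : Fin 3) ∉ ({1} : Finset (Fin 3)) := by decide
  unfold bx tbbinsp_mo
  rw [h, Finset.sum_insert n0, Finset.sum_insert n1, Finset.sum_singleton, e0, e1, e2,
    Finset.prod_insert m0, Finset.prod_insert m1, Finset.prod_insert m2]
  simp only [Finset.prod_singleton, Nat.sub_self, Nat.sub_zero, pow_zero, pow_one, mul_one, one_mul]
  ring

theorem tbbinsp_bx2 : bx 2 = tbbinsp_mo 1 1 1 0 + tbbinsp_mo 1 1 0 1 + tbbinsp_mo 1 0 1 1 := by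
  have h : (univ : Finset (Fin 3)).powersetCard (((2 : Fin 4) : ℕ)) = {{0, 1}, {0, 2}, {1, 2}} := by decide
  have e0 : ({0, 1} : Finset (Fin 3))ᶜ = {2} := by decide
  have e1 : ({0, 2} : Finset (Fin 3))ᶜ = {1} := by decide
  have e2 : ({1, 2} : Finset (Fin 3))ᶜ = {0} := by decide
  have n0 : ({0, 1} : Finset (Fin 3)) ∉ ({{0, 2}, {1, 2}} : Finset (Finset (Fin 3))) := by decide
  have n1 : ({0, 2} : Finset (Fin 3)) ∉ ({{1, 2}} : Finset (Finset (Fin 3))) := by decide
  have m0 : (1 : Fin 3) ∉ ({2} : Finset (Fin 3)) := by decide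
  have m1 : (0 : Fin 3) ∉ ({2} : Finset (Fin 3)) := by decide
  have m2 : (0 : Fin 3) ∉ ({1} : Finset (Fin 3)) := by decide
  unfold bx tbbinsp_mo
  rw [h, Finset.sum_insert n0, Finset.sum_insert n1, Finset.sum_singleton, e0, e1, e2,
    Finset.prod_insert m0, Finset.prod_insert m1, Finset.prod_insert m2]
  simp only [Finset.prod_singleton, Nat.sub_self, Nat.sub_zero, pow_zero, pow_one, mul_one, one_mul]
  ring

theorem tbbinsp_bx3 : bx 3 = tbbinsp_mo 1 1 1 1 := by
  have h : (univ : Finset (Fin 3)).powersetCard (((3 : Fin 4) : ℕ)) = {univ} := by decide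
  have e0 : (univ : Finset (Fin 3))ᶜ = ∅ := by decide
  unfold bx tbbinsp_mo
  rw [h, Finset.sum_singleton, e0, Fin.prod_univ_three]
  simp

/-- the polynomials `bx b` are invariant -/
theorem tbbinsp_bx_inv (b : Fin 4) (σ : Equiv.Perm (Fin 3)) :
    rename (fun p : Fin 3 × Fin 3 => (σ p.1, p.2)) (bx b) = bx b := by
  have hb : b = 0 ∨ b = 1 ∨ b = 2 ∨ b = 3 := by
    revert b
    decide
  rcases tbfacts_perm_cases σ with h | h | h | h | h | h <;>
  · obtain ⟨h0, h1, h2, -⟩ := h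
    rcases hb with hb | hb | hb | hb
    · rw [hb, tbbinsp_bx0]
      unfold tbbinsp_mo
      simp only [map_mul, map_pow, rename_X, h0, h1, h2] <;> ring
    · rw [hb, tbbinsp_bx1]
      unfold tbbinsp_mo
      simp only [map_mul, map_pow, map_add, rename_X, h0, h1, h2] <;> ring
    · rw [hb, tbbinsp_bx2]
      unfold tbbinsp_mo
      simp only [map_mul, map_pow, map_add, rename_X, h0, h1, h2] <;> ring
    · rw [hb, tbbinsp_bx3]
      unfold tbbinsp_mo
      simp only [map_mul, map_pow, rename_X, h0, h1, h2] <;> ring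

theorem tbbinsp_XX_RH (i : Fin 3) (k l : ℕ) :
    (X (i, 0) ^ k * X (i, 1) ^ l : MvPolynomial (Fin 3 × Fin 3) ℚ) ∈
      RH 3 (fun t : Fin 3 => if t = i then k + l else 0) := by
  have key : ∀ (j : Fin 3) (k : ℕ), (X (i, j) ^ k : MvPolynomial (Fin 3 × Fin 3) ℚ) ∈
      RH 3 (fun t : Fin 3 => if t = i then k else 0) := by
    intro j k
    induction k with
    | zero =>
      rw [pow_zero]
      intro e he t
      have : e = 0 := by
        by_contra hne
        exact he (by rw [coeff_one, if_neg (Ne.symm hne)])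
      subst this
      simp [rdeg]
    | succ k ih =>
      rw [pow_succ]
      refine tbfacts_RH_mul ih (X_mem_RH i j) fun t => ?_
      split_ifs <;> rfl
  refine tbfacts_RH_mul (key 0 k) (key 1 l) fun t => ?_
  split_ifs <;> rfl

theorem tbbinsp_XX_Wd (i : Fin 3) (k l : ℕ) :
    (X (i, 0) ^ k * X (i, 1) ^ l : MvPolynomial (Fin 3 × Fin 3) ℚ) ∈ Wd 0 := by
  have key : ∀ (j : Fin 3) (_ : j ≠ 2) (k : ℕ), (X (i, j) ^ k : MvPolynomial (Fin 3 × Fin 3) ℚ) ∈ Wd 0 := by
    intro j hj k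
    induction k with
    | zero =>
      rw [pow_zero]
      exact isWeightedHomogeneous_one ℚ (wt (Fin 3))
    | succ k ih =>
      rw [pow_succ]
      exact tbfacts_Wd_mul (k := 0) (l := 0) ih (tbfacts_X_wt0 i j hj)
  exact tbfacts_Wd_mul (k := 0) (l := 0) (key 0 (by decide) k) (key 1 (by decide) l)

/-- symmetrized monomials are symmetric polynomials of the right degree -/
theorem tbbinsp_M_mem (n a b c : ℕ) (ha : a ≤ n) (hb : b ≤ n) (hc : c ≤ n) : tbbinsp_M n a b c ∈ B n 0 := by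
  refine ⟨⟨?_, ?_⟩, ?_⟩
  · unfold tbbinsp_M tbbinsp_S
    refine Submodule.sum_mem _ fun σ _ => ?_
    unfold tbbinsp_mo
    simp only [map_mul, map_pow, rename_X]
    refine tbfacts_RH_mul (tbfacts_RH_mul (tbbinsp_XX_RH (σ 0) (n - a) a) (tbbinsp_XX_RH (σ 1) (n - b) b)
      fun t => rfl) (tbbinsp_XX_RH (σ 2) (n - c) c) fun t => ?_
    rw [Nat.sub_add_cancel ha, Nat.sub_add_cancel hb, Nat.sub_add_cancel hc]
    have ht : t = 0 ∨ t = 1 ∨ t = 2 := by
      revert t
      decide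
    have n01 : (0 : Fin 3) ≠ 1 := by decide
    have n02 : (0 : Fin 3) ≠ 2 := by decide
    have n12 : (1 : Fin 3) ≠ 2 := by decide
    rcases tbfacts_perm_cases σ with h | h | h | h | h | h <;>
    · obtain ⟨h0, h1, h2, -⟩ := h
      rw [h0, h1, h2]
      rcases ht with ht | ht | ht <;> rw [ht] <;> simp [n01, n02, n12, n01.symm, n02.symm, n12.symm]
  · intro σ
    rw [pow_zero, one_smul]
    exact tbbinsp_S_left σ _
  · unfold tbbinsp_M tbbinsp_S
    refine Submodule.sum_mem _ fun σ _ => ?_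
    unfold tbbinsp_mo
    simp only [map_mul, map_pow, rename_X]
    exact tbfacts_Wd_mul (k := 0) (l := 0) (tbfacts_Wd_mul (k := 0) (l := 0) (tbbinsp_XX_Wd (σ 0) (n - a) a)
      (tbbinsp_XX_Wd (σ 1) (n - b) b)) (tbbinsp_XX_Wd (σ 2) (n - c) c)

/-- elements of `B n 0` are combinations of symmetrized monomials -/
theorem tbbinsp_expand (n : ℕ) (W : Submodule ℚ (MvPolynomial (Fin 3 × Fin 3) ℚ))
    (hW : ∀ a b c : ℕ, a ≤ n → b ≤ n → c ≤ n → tbbinsp_M n a b c ∈ W) : B n 0 ≤ W := by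
  intro f hf
  obtain ⟨⟨hf1, hf2⟩, hf3⟩ := hf
  have hinv : tbbinsp_S f = (6 : ℚ) • f := by
    refine tbbinsp_S_inv f fun σ => ?_
    rw [hf2 σ, pow_zero, one_smul]
  have hS : tbbinsp_S f ∈ W := by
    have h1 : f = ∑ e ∈ f.support, (coeff e f) • (monomial e (1 : ℚ)) := by
      conv_lhs => rw [f.as_sum]
      refine Finset.sum_congr rfl fun e _ => ?_
      rw [smul_monomial, smul_eq_mul, mul_one]
    rw [h1, tbbinsp_S_sum]
    refine Submodule.sum_mem _ fun e he => ?_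
    rw [tbbinsp_S_smul]
    refine Submodule.smul_mem _ _ ?_
    have hc : coeff e f ≠ 0 := by
      rw [← mem_support_iff]
      exact he
    have hr := hf1 e hc
    have hw : Finsupp.weight (wt (Fin 3)) e = 0 := hf3 hc
    have h2 : ∀ i : Fin 3, e (i, 2) = 0 := by
      intro i
      rw [Finsupp.weight_apply, Finsupp.sum_fintype _ _ (fun p => by simp)] at hw
      have h3 := (Finset.sum_eq_zero_iff.1 hw) (i, 2) (Finset.mem_univ _)
      have h4 : wt (Fin 3) (i, (2 : Fin 3)) = 1 := if_pos rfl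
      rw [h4, smul_eq_mul, mul_one] at h3
      exact h3
    have hd : ∀ i : Fin 3, e (i, 0) + e (i, 1) = n := by
      intro i
      have h3 := hr i
      unfold rdeg at h3
      rw [Fin.sum_univ_three, h2 i, add_zero] at h3
      exact h3
    have hm : monomial e (1 : ℚ) = tbbinsp_mo n (e (0, 1)) (e (1, 1)) (e (2, 1)) := by
      unfold tbbinsp_mo
      rw [monomial_eq, C_1, one_mul, Finsupp.prod_fintype _ _ (fun p => pow_zero _), Fintype.prod_prod_type]
      simp only [Fin.prod_univ_three, h2, pow_zero, mul_one]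
      have e0 : n - e (0, 1) = e (0, 0) := by
        have := hd 0
        omega
      have e1 : n - e (1, 1) = e (1, 0) := by
        have := hd 1
        omega
      have e2 : n - e (2, 1) = e (2, 0) := by
        have := hd 2
        omega
      rw [e0, e1, e2]
    rw [hm]
    refine hW _ _ _ ?_ ?_ ?_
    · have := hd 0
      omega
    · have := hd 1
      omega
    · have := hd 2
      omega
  rw [hinv] at hS
  have := Submodule.smul_mem W ((6 : ℚ)⁻¹) hS
  rw [smul_smul, inv_mul_cancel₀ (by norm_num), one_smul] at this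
  exact this

theorem bx_mem (b : Fin 4) : bx b ∈ B 1 0 := by
  have hS : tbbinsp_S (bx b) ∈ B 1 0 := by
    have hb : b = 0 ∨ b = 1 ∨ b = 2 ∨ b = 3 := by
      revert b
      decide
    rcases hb with hb | hb | hb | hb
    · rw [hb, tbbinsp_bx0]
      exact tbbinsp_M_mem 1 0 0 0 (by omega) (by omega) (by omega)
    · rw [hb, tbbinsp_bx1, tbbinsp_S_add, tbbinsp_S_add]
      exact Submodule.add_mem _ (Submodule.add_mem _ (tbbinsp_M_mem 1 1 0 0 (by omega) (by omega) (by omega))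
        (tbbinsp_M_mem 1 0 1 0 (by omega) (by omega) (by omega))) (tbbinsp_M_mem 1 0 0 1 (by omega) (by omega) (by omega))
    · rw [hb, tbbinsp_bx2, tbbinsp_S_add, tbbinsp_S_add]
      exact Submodule.add_mem _ (Submodule.add_mem _ (tbbinsp_M_mem 1 1 1 0 (by omega) (by omega) (by omega))
        (tbbinsp_M_mem 1 1 0 1 (by omega) (by omega) (by omega))) (tbbinsp_M_mem 1 0 1 1 (by omega) (by omega) (by omega))
    · rw [hb, tbbinsp_bx3]
      exact tbbinsp_M_mem 1 1 1 1 (by omega) (by omega) (by omega)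
  rw [tbbinsp_S_inv (bx b) (tbbinsp_bx_inv b)] at hS
  have := Submodule.smul_mem (B 1 0) ((6 : ℚ)⁻¹) hS
  rw [smul_smul, inv_mul_cancel₀ (by norm_num), one_smul] at this
  exact this

/-- the products of `bx b` with symmetrized monomials -/
theorem tbbinsp_mul0 (n a b c : ℕ) (ha : a ≤ n) (hb : b ≤ n) (hc : c ≤ n) :
    bx 0 * tbbinsp_M n a b c = tbbinsp_M (n + 1) a b c := by
  unfold tbbinsp_M
  rw [tbbinsp_S_mul _ _ (tbbinsp_bx_inv 0), tbbinsp_bx0, tbbinsp_mo_mul n a b c 0 0 0 ha hb hc (by omega)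
    (by omega) (by omega)]
  rfl

theorem tbbinsp_mul1 (n a b c : ℕ) (ha : a ≤ n) (hb : b ≤ n) (hc : c ≤ n) :
    bx 1 * tbbinsp_M n a b c =
      tbbinsp_M (n + 1) (a + 1) b c + tbbinsp_M (n + 1) a (b + 1) c + tbbinsp_M (n + 1) a b (c + 1) := by
  unfold tbbinsp_M
  rw [tbbinsp_S_mul _ _ (tbbinsp_bx_inv 1), tbbinsp_bx1, add_mul, add_mul,
    tbbinsp_mo_mul n a b c 1 0 0 ha hb hc (by omega) (by omega) (by omega),
    tbbinsp_mo_mul n a b c 0 1 0 ha hb hc (by omega) (by omega) (by omega),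
    tbbinsp_mo_mul n a b c 0 0 1 ha hb hc (by omega) (by omega) (by omega), tbbinsp_S_add, tbbinsp_S_add]
  rfl

theorem tbbinsp_mul2 (n a b c : ℕ) (ha : a ≤ n) (hb : b ≤ n) (hc : c ≤ n) :
    bx 2 * tbbinsp_M n a b c =
      tbbinsp_M (n + 1) (a + 1) (b + 1) c + tbbinsp_M (n + 1) (a + 1) b (c + 1) +
        tbbinsp_M (n + 1) a (b + 1) (c + 1) := by
  unfold tbbinsp_M
  rw [tbbinsp_S_mul _ _ (tbbinsp_bx_inv 2), tbbinsp_bx2, add_mul, add_mul,
    tbbinsp_mo_mul n a b c 1 1 0 ha hb hc (by omega) (by omega) (by omega),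
    tbbinsp_mo_mul n a b c 1 0 1 ha hb hc (by omega) (by omega) (by omega),
    tbbinsp_mo_mul n a b c 0 1 1 ha hb hc (by omega) (by omega) (by omega), tbbinsp_S_add, tbbinsp_S_add]
  rfl

theorem tbbinsp_mul3 (n a b c : ℕ) (ha : a ≤ n) (hb : b ≤ n) (hc : c ≤ n) :
    bx 3 * tbbinsp_M n a b c = tbbinsp_M (n + 1) (a + 1) (b + 1) (c + 1) := by
  unfold tbbinsp_M
  rw [tbbinsp_S_mul _ _ (tbbinsp_bx_inv 3), tbbinsp_bx3,
    tbbinsp_mo_mul n a b c 1 1 1 ha hb hc (by omega) (by omega) (by omega)]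

theorem tbbinsp_prod_mem (n : ℕ) (b : Fin 4) (x y z : ℕ) (hx : x ≤ n) (hy : y ≤ n) (hz : z ≤ n) :
    bx b * tbbinsp_M n x y z ∈ Submodule.span ℚ (Set.range bx) * B n 0 :=
  Submodule.mul_mem_mul (Submodule.subset_span ⟨b, rfl⟩) (tbbinsp_M_mem n x y z hx hy hz)

theorem tbbinsp_half (W : Submodule ℚ (MvPolynomial (Fin 3 × Fin 3) ℚ)) (f : MvPolynomial (Fin 3 × Fin 3) ℚ)
    (k : ℚ) (hk : k ≠ 0) (h : k • f ∈ W) : f ∈ W := by
  have := Submodule.smul_mem W (k⁻¹) h
  rw [smul_smul, inv_mul_cancel₀ hk, one_smul] at this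
  exact this

theorem tbbinsp_P3 (n a b c : ℕ) (ha : a ≤ n) (hb : b ≤ n) (hc : c ≤ n) :
    tbbinsp_M (n + 1) (a + 1) (b + 1) (c + 1) ∈ Submodule.span ℚ (Set.range bx) * B n 0 := by
  rw [← tbbinsp_mul3 n a b c ha hb hc]
  exact tbbinsp_prod_mem n 3 a b c ha hb hc

theorem tbbinsp_P2 (n a b : ℕ) (ha : a ≤ n) (hb : b ≤ n) :
    tbbinsp_M (n + 1) (a + 1) (b + 1) 0 ∈ Submodule.span ℚ (Set.range bx) * B n 0 := by
  have h := tbbinsp_prod_mem n 2 a b 0 ha hb (Nat.zero_le _)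
  rw [tbbinsp_mul2 n a b 0 ha hb (Nat.zero_le _), zero_add] at h
  rcases a with _ | a
  · rcases b with _ | b
    · -- all three are permutations of each other
      refine tbbinsp_half _ _ 3 (by norm_num) ?_
      rw [zero_add] at h ⊢
      have e1 : tbbinsp_M (n + 1) 1 0 1 = tbbinsp_M (n + 1) 1 1 0 := tbbinsp_M_swap12 _ _ _ _
      have e2 : tbbinsp_M (n + 1) 0 1 1 = tbbinsp_M (n + 1) 1 1 0 := by
        rw [tbbinsp_M_swap01, e1]
      rw [e1, e2] at h
      have e3 : (3 : ℚ) • tbbinsp_M (n + 1) 1 1 0 =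
          tbbinsp_M (n + 1) 1 1 0 + tbbinsp_M (n + 1) 1 1 0 + tbbinsp_M (n + 1) 1 1 0 := by
        module
      rw [e3]
      exact h
    · -- `M(1, b+2, 0) + M(1, b+1, 1) + M(0, b+2, 1)`
      refine tbbinsp_half _ _ 2 (by norm_num) ?_
      have h1 := tbbinsp_P3 n 0 b 0 (Nat.zero_le _) (by omega) (Nat.zero_le _)
      have e2 : tbbinsp_M (n + 1) 0 (b + 1 + 1) 1 = tbbinsp_M (n + 1) (0 + 1) (b + 1 + 1) 0 := by
        rw [tbbinsp_M_swap12, tbbinsp_M_swap01, tbbinsp_M_swap12]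
      rw [e2] at h
      have h2 := Submodule.sub_mem _ h h1
      have e3 : (2 : ℚ) • tbbinsp_M (n + 1) (0 + 1) (b + 1 + 1) 0 =
          tbbinsp_M (n + 1) (0 + 1) (b + 1 + 1) 0 + tbbinsp_M (n + 1) (0 + 1) (b + 1) 1 +
            tbbinsp_M (n + 1) (0 + 1) (b + 1 + 1) 0 - tbbinsp_M (n + 1) (0 + 1) (b + 1) (0 + 1) := by
        rw [zero_add]
        module
      rw [e3]
      exact h2
  · rcases b with _ | b
    · refine tbbinsp_half _ _ 2 (by norm_num) ?_
      have h1 := tbbinsp_P3 n a 0 0 (by omega) (Nat.zero_le _) (Nat.zero_le _)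
      have e2 : tbbinsp_M (n + 1) (a + 1 + 1) 0 1 = tbbinsp_M (n + 1) (a + 1 + 1) (0 + 1) 0 := by
        rw [tbbinsp_M_swap12]
      rw [e2] at h
      have h2 := Submodule.sub_mem _ h h1
      have e3 : (2 : ℚ) • tbbinsp_M (n + 1) (a + 1 + 1) (0 + 1) 0 =
          tbbinsp_M (n + 1) (a + 1 + 1) (0 + 1) 0 + tbbinsp_M (n + 1) (a + 1 + 1) (0 + 1) 0 +
            tbbinsp_M (n + 1) (a + 1) (0 + 1) 1 - tbbinsp_M (n + 1) (a + 1) (0 + 1) (0 + 1) := by
        rw [zero_add]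
        module
      rw [e3]
      exact h2
    · have h1 := tbbinsp_P3 n (a + 1) b 0 (by omega) (by omega) (Nat.zero_le _)
      have h2 := tbbinsp_P3 n a (b + 1) 0 (by omega) (by omega) (Nat.zero_le _)
      have h3 := Submodule.sub_mem _ (Submodule.sub_mem _ h h1) h2
      have e3 : tbbinsp_M (n + 1) (a + 1 + 1) (b + 1 + 1) 0 =
          tbbinsp_M (n + 1) (a + 1 + 1) (b + 1 + 1) 0 + tbbinsp_M (n + 1) (a + 1 + 1) (b + 1) 1 +
            tbbinsp_M (n + 1) (a + 1) (b + 1 + 1) 1 - tbbinsp_M (n + 1) (a + 1 + 1) (b + 1) (0 + 1) -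
            tbbinsp_M (n + 1) (a + 1) (b + 1 + 1) (0 + 1) := by
        rw [zero_add]
        module
      rw [e3]
      exact h3

theorem tbbinsp_P1 (n a : ℕ) (ha : a ≤ n) :
    tbbinsp_M (n + 1) (a + 1) 0 0 ∈ Submodule.span ℚ (Set.range bx) * B n 0 := by
  have h := tbbinsp_prod_mem n 1 a 0 0 ha (Nat.zero_le _) (Nat.zero_le _)
  rw [tbbinsp_mul1 n a 0 0 ha (Nat.zero_le _) (Nat.zero_le _), zero_add] at h
  rcases a with _ | a
  · refine tbbinsp_half _ _ 3 (by norm_num) ?_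
    rw [zero_add] at h ⊢
    have e1 : tbbinsp_M (n + 1) 0 1 0 = tbbinsp_M (n + 1) 1 0 0 := tbbinsp_M_swap01 _ _ _ _
    have e2 : tbbinsp_M (n + 1) 0 0 1 = tbbinsp_M (n + 1) 1 0 0 := by
      rw [tbbinsp_M_swap12, e1]
    rw [e1, e2] at h
    have e3 : (3 : ℚ) • tbbinsp_M (n + 1) 1 0 0 =
        tbbinsp_M (n + 1) 1 0 0 + tbbinsp_M (n + 1) 1 0 0 + tbbinsp_M (n + 1) 1 0 0 := by
      module
    rw [e3]
    exact h
  · have h1 := tbbinsp_P2 n a 0 (by omega) (Nat.zero_le _)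
    rw [zero_add] at h1
    have e2 : tbbinsp_M (n + 1) (a + 1) 0 1 = tbbinsp_M (n + 1) (a + 1) 1 0 := tbbinsp_M_swap12 _ _ _ _
    rw [e2] at h
    have h3 := Submodule.sub_mem _ (Submodule.sub_mem _ h h1) h1
    have e3 : tbbinsp_M (n + 1) (a + 1 + 1) 0 0 =
        tbbinsp_M (n + 1) (a + 1 + 1) 0 0 + tbbinsp_M (n + 1) (a + 1) 1 0 + tbbinsp_M (n + 1) (a + 1) 1 0 -
          tbbinsp_M (n + 1) (a + 1) 1 0 - tbbinsp_M (n + 1) (a + 1) 1 0 := by
      module
    rw [e3]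
    exact h3

theorem bin_step (n : ℕ) : B (n + 1) 0 ≤ Submodule.span ℚ (Set.range bx) * B n 0 := by
  refine tbbinsp_expand (n + 1) _ fun a b c ha hb hc => ?_
  rcases a with _ | a
  · rcases b with _ | b
    · rcases c with _ | c
      · rw [← tbbinsp_mul0 n 0 0 0 (Nat.zero_le _) (Nat.zero_le _) (Nat.zero_le _)]
        exact tbbinsp_prod_mem n 0 0 0 0 (Nat.zero_le _) (Nat.zero_le _) (Nat.zero_le _)
      · rw [tbbinsp_M_swap12, tbbinsp_M_swap01]
        exact tbbinsp_P1 n c (by omega)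
    · rcases c with _ | c
      · rw [tbbinsp_M_swap01]
        exact tbbinsp_P1 n b (by omega)
      · rw [tbbinsp_M_swap01, tbbinsp_M_swap12]
        exact tbbinsp_P2 n b c (by omega) (by omega)
  · rcases b with _ | b
    · rcases c with _ | c
      · exact tbbinsp_P1 n a (by omega)
      · rw [tbbinsp_M_swap12]
        exact tbbinsp_P2 n a c (by omega) (by omega)
    · rcases c with _ | c
      · exact tbbinsp_P2 n a b (by omega) (by omega)
      · exact tbbinsp_P3 n a b c (by omega) (by omega) (by omega)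

theorem bin_pow (n : ℕ) : B n 0 ≤ Submodule.span ℚ (Set.range bx) ^ n := by
  induction n with
  | zero =>
    rw [pow_zero]
    refine tbbinsp_expand 0 _ fun a b c ha hb hc => ?_
    have ha' : a = 0 := by omega
    have hb' : b = 0 := by omega
    have hc' : c = 0 := by omega
    subst ha' hb' hc'
    have h1 : tbbinsp_mo 0 0 0 0 = 1 := by
      unfold tbbinsp_mo
      simp
    unfold tbbinsp_M tbbinsp_S
    rw [h1]
    refine Submodule.sum_mem _ fun σ _ => ?_
    rw [map_one]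
    exact Submodule.one_le.1 le_rfl
  | succ n ih =>
    rw [pow_succ']
    exact (bin_step n).trans (mul_le_mul' le_rfl ih)

theorem tbbinsp_pow_le (n : ℕ) : Submodule.span ℚ (Set.range bx) ^ n ≤ B n 0 := by
  induction n with
  | zero =>
    rw [pow_zero, Submodule.one_le]
    refine ⟨⟨?_, ?_⟩, ?_⟩
    · intro e he t
      have : e = 0 := by
        by_contra hne
        exact he (by rw [coeff_one, if_neg (Ne.symm hne)])
      subst this
      simp [rdeg]
    · intro σ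
      rw [map_one, pow_zero, one_smul]
    · exact isWeightedHomogeneous_one ℚ (wt (Fin 3))
  | succ n ih =>
    rw [pow_succ, Submodule.mul_le]
    intro f hf g hg
    have hg1 : g ∈ B 1 0 := by
      have h1 : Submodule.span ℚ (Set.range bx) ≤ B 1 0 := by
        rw [Submodule.span_le]
        rintro _ ⟨b, rfl⟩
        exact bx_mem b
      exact h1 hg
    exact B_mul n 0 1 0 f g (ih hf) hg1

theorem bin_split (n1 n2 : ℕ) : B (n1 + n2) 0 ≤ B n1 0 * B n2 0 := by
  refine (bin_pow (n1 + n2)).trans ?_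
  rw [pow_add]
  exact mul_le_mul' (tbbinsp_pow_le n1) (tbbinsp_pow_le n2)

end Helper87.TB
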