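import Mathlib
import Pool.Agent.Helper87.TB.Defs
import Pool.Agent.Helper87.TB.St.BinSp
import Pool.Agent.Helper87.TA.St.Bin

/-!
# TB-BinIm: symmetric polynomials in the plane are in the image

* `B (a c) 0 ≤ (span {bx b})^(a c)` (`bin_pow`), which is the set of values at `bx` of the homogeneous polynomials of degree `a c` in four variables.
* As in the proof of `Helper87.TA.bin` (TA/St/Bin.lean; copy its private lemmas): every homogeneous polynomial of degree `c a` in `X_0, ..., X_3` is in the span of the products `∏_{j < c} ww 3 a (β j)`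
  (`span_ww_of`, `span_ww_self`; `c ≥ 3`) and the value of `ww 3 a k` at `bx` is in the span of the `(∑_b t^b bx b)^a = (nm 3 (1, t, 0))^a`, `t ∈ ℚ` (`interp`).
  (`∑_b t^b bx b = ∏_i (x_i + t y_i) = nm 3 (1, t, 0)`.)
* `prod_im`: for `w : Fin c → Fin 3 → ℚ` the product `∏_l nm 3 (w l)^a` is in `Im S 3 3 a c` if `|S| = 3 a`: apply `RS` to `∏_s ∏_l lin (w l) s` (the linear form in the point `s`);
  every balanced `κ` gives `∏_l ∏_i lin (w l) i ^ a`, and there is at least one balanced map.
-/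

set_option autoImplicit false

open MvPolynomial Finset

namespace Helper87.TB

open Helper87.TR Helper87.TA

/-- value of a linear form at the point `s` -/
noncomputable def tbbinim_lin {S : Type} (w : Fin 3 → ℚ) (s : S) : MvPolynomial (S × Fin 3) ℚ :=
  ∑ j, C (w j) * X (s, j)

theorem tbbinim_mul {S : Type} (r : ℕ) (d d' : S → ℕ) (f g : MvPolynomial (S × Fin r) ℚ)
    (hf : f ∈ RG r d) (hg : g ∈ RG r d') : f * g ∈ RG r fun s => d s + d' s := by
  classical
  intro e he s
  rw [coeff_mul] at he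
  obtain ⟨x, hx, hne⟩ := Finset.exists_ne_zero_of_sum_ne_zero he
  rw [Finset.HasAntidiagonal.mem_antidiagonal] at hx
  have h1 := hf x.1 (left_ne_zero_of_mul hne) s
  have h2 := hg x.2 (right_ne_zero_of_mul hne) s
  show _ = d s + d' s
  rw [← hx, ← h1, ← h2, ← Finset.sum_add_distrib]
  rfl

theorem tbbinim_one {S : Type} (r : ℕ) : (1 : MvPolynomial (S × Fin r) ℚ) ∈ RG r fun _ : S => 0 := by
  classical
  intro e he s
  rw [coeff_one] at he
  have h1 : (0 : S × Fin r →₀ ℕ) = e := by
    by_contra h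
    rw [if_neg h] at he
    exact he rfl
  rw [← h1]
  exact Finset.sum_eq_zero fun j _ => rfl

theorem tbbinim_prod {S ι : Type} [DecidableEq ι] (r : ℕ) (T : Finset ι) (d : ι → S → ℕ)
    (f : ι → MvPolynomial (S × Fin r) ℚ) (hf : ∀ i ∈ T, f i ∈ RG r (d i)) :
    ∏ i ∈ T, f i ∈ RG r fun s => ∑ i ∈ T, d i s := by
  induction T using Finset.induction_on with
  | empty =>
    simp only [Finset.prod_empty, Finset.sum_empty]
    exact tbbinim_one r
  | insert i T hi ih =>
    simp only [Finset.prod_insert hi, Finset.sum_insert hi]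
    exact tbbinim_mul r _ _ _ _ (hf i (Finset.mem_insert_self i T))
      (ih fun j hj => hf j (Finset.mem_insert_of_mem hj))

theorem tbbinim_X {S : Type} [DecidableEq S] (s : S) (j : Fin 3) (c : ℚ) :
    C c * X (s, j) ∈ RG 3 fun t : S => if t = s then 1 else 0 := by
  intro e he t
  have h1 : (C c * X (s, j) : MvPolynomial (S × Fin 3) ℚ) = monomial (Finsupp.single (s, j) 1) c := by
    rw [X, C_mul_monomial, mul_one]
  rw [h1, coeff_monomial] at he
  have h2 : Finsupp.single (s, j) 1 = e := by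
    by_contra h
    rw [if_neg h] at he
    exact he rfl
  rw [← h2]
  show _ = if t = s then 1 else 0
  by_cases h : t = s
  · subst h
    rw [if_pos rfl, Finset.sum_eq_single j]
    · rw [Finsupp.single_eq_same]
    · intro b _ hb
      rw [Finsupp.single_eq_of_ne]
      intro h
      exact hb (Prod.ext_iff.1 h).2
    · intro h
      exact absurd (Finset.mem_univ _) h
  · rw [if_neg h]
    apply Finset.sum_eq_zero
    intro b _
    rw [Finsupp.single_eq_of_ne]
    intro h'
    exact h (Prod.ext_iff.1 h').1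

theorem tbbinim_lin_mem {S : Type} [DecidableEq S] (w : Fin 3 → ℚ) (s : S) :
    tbbinim_lin w s ∈ RG 3 fun t : S => if t = s then 1 else 0 := by
  unfold tbbinim_lin
  exact Submodule.sum_mem _ fun j _ => tbbinim_X s j (w j)

theorem tbbinim_F_mem {S : Type} [Fintype S] [DecidableEq S] (c : ℕ) (w : Fin c → Fin 3 → ℚ) :
    ∏ s : S, ∏ l, tbbinim_lin (w l) s ∈ RG 3 fun _ : S => c := by
  have h1 : ∀ s : S, ∏ l, tbbinim_lin (w l) s ∈ RG 3 fun t : S => if t = s then c else 0 := by
    intro s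
    have h2 := tbbinim_prod 3 (univ : Finset (Fin c)) (fun _ (t : S) => if t = s then 1 else 0)
      (fun l => tbbinim_lin (w l) s) (fun l _ => tbbinim_lin_mem (w l) s)
    have h3 : (fun t : S => ∑ _i : Fin c, if t = s then 1 else 0) =
        fun t : S => if t = s then c else 0 := by
      funext t
      rw [Finset.sum_const, Finset.card_univ, Fintype.card_fin]
      split_ifs <;> simp
    rwa [h3] at h2
  have h2 := tbbinim_prod 3 (univ : Finset S) (fun s (t : S) => if t = s then c else 0)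
      (fun s => ∏ l, tbbinim_lin (w l) s) (fun s _ => h1 s)
  have h3 : (fun t : S => ∑ s : S, if t = s then c else 0) = fun _ : S => c := by
    funext t
    rw [Finset.sum_ite_eq, if_pos (Finset.mem_univ _)]
  rwa [h3] at h2

theorem tbbinim_Rk_lin {S : Type} (κ : S → Fin 3) (w : Fin 3 → ℚ) (s : S) :
    Rk 3 κ (tbbinim_lin w s) = lin w (κ s) := by
  unfold Rk tbbinim_lin lin
  rw [map_sum]
  refine Finset.sum_congr rfl fun j _ => ?_
  rw [map_mul, rename_C, rename_X]

theorem tbbinim_Rk {S : Type} [Fintype S] [DecidableEq S] (a c : ℕ) (w : Fin c → Fin 3 → ℚ)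
    (κ : S → Fin 3) (hκ : κ ∈ Bl S 3 a) :
    Rk 3 κ (∏ s : S, ∏ l, tbbinim_lin (w l) s) = ∏ l, nm 3 (w l) ^ a := by
  have h0 : ∀ i, (univ.filter fun s => κ s = i).card = a := (Finset.mem_filter.1 hκ).2
  rw [Finset.prod_comm, map_prod]
  refine Finset.prod_congr rfl fun l _ => ?_
  rw [map_prod]
  simp only [tbbinim_Rk_lin]
  rw [← Finset.prod_fiberwise (univ : Finset S) κ (fun s => lin (w l) (κ s))]
  unfold nm
  rw [← Finset.prod_pow]
  refine Finset.prod_congr rfl fun i _ => ?_
  rw [← h0 i, ← Finset.prod_const]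
  refine Finset.prod_congr rfl fun s hs => ?_
  rw [(Finset.mem_filter.1 hs).2]

theorem tbbinim_bal (a : ℕ) (S : Type) [Fintype S] [DecidableEq S] (hS : Fintype.card S = 3 * a) :
    (Bl S 3 a).Nonempty := by
  let e : S ≃ Fin 3 × Fin a := (Fintype.equivFinOfCardEq hS).trans finProdFinEquiv.symm
  refine ⟨fun s => (e s).1, Finset.mem_filter.2 ⟨Finset.mem_univ _, fun i => ?_⟩⟩
  have h1 : (univ.filter fun s => (e s).1 = i) = (univ : Finset (Fin a)).map
      ⟨fun j => e.symm (i, j), fun j j' h => by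
        have h2 := e.symm.injective h
        exact (Prod.ext_iff.1 h2).2⟩ := by
    ext s
    rw [Finset.mem_filter, Finset.mem_map]
    constructor
    · rintro ⟨_, h⟩
      refine ⟨(e s).2, Finset.mem_univ _, ?_⟩
      show e.symm (i, (e s).2) = s
      rw [← h]
      exact e.symm_apply_apply s
    · rintro ⟨j, _, rfl⟩
      refine ⟨Finset.mem_univ _, ?_⟩
      show (e (e.symm (i, j))).1 = i
      rw [e.apply_symm_apply]
  rw [h1, Finset.card_map, Finset.card_univ, Fintype.card_fin]

theorem prod_im (a c : ℕ) (S : Type) [Fintype S] [DecidableEq S] (hS : Fintype.card S = 3 * a)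
    (w : Fin c → Fin 3 → ℚ) : ∏ l, nm 3 (w l) ^ a ∈ Im S 3 3 a c := by
  have hne : ((Bl S 3 a).card : ℚ) ≠ 0 := by
    exact_mod_cast (Finset.card_pos.2 (tbbinim_bal a S hS)).ne'
  unfold Im
  refine ⟨((Bl S 3 a).card : ℚ)⁻¹ • ∏ s : S, ∏ l, tbbinim_lin (w l) s,
    Submodule.smul_mem _ _ (tbbinim_F_mem c w), ?_⟩
  rw [map_smul]
  have h1 : RS S 3 3 a (∏ s : S, ∏ l, tbbinim_lin (w l) s) =
      ((Bl S 3 a).card : ℚ) • ∏ l, nm 3 (w l) ^ a := by
    unfold RS
    rw [LinearMap.sum_apply]
    rw [Finset.sum_congr rfl fun κ hκ => (show (Rk 3 κ).toLinearMap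
      (∏ s : S, ∏ l, tbbinim_lin (w l) s) = ∏ l, nm 3 (w l) ^ a from tbbinim_Rk a c w κ hκ)]
    rw [Finset.sum_const, Nat.cast_smul_eq_nsmul]
  rw [h1, smul_smul, inv_mul_cancel₀ hne, one_smul]

/-- the image of `ww m a k` is a coefficient of the power of the specialized polynomial -/
private lemma tbbinim_ww {S : Type*} [CommRing S] [Algebra ℚ S] (m a k : ℕ) (X : ℕ → S) :
    MvPolynomial.aeval (fun i : Fin (m + 1) => X i) (ww m a k) =
      ((∑ i ∈ range (m + 1), Polynomial.C (X i) * Polynomial.X ^ i : Polynomial S) ^ a).coeff k := by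
  have h1 : MvPolynomial.aeval (fun i : Fin (m + 1) => X i) (ww m a k) =
      (Polynomial.map (MvPolynomial.aeval (fun i : Fin (m + 1) => X i) :
        MvPolynomial (Fin (m + 1)) ℚ →ₐ[ℚ] S).toRingHom
        ((∑ i : Fin (m + 1), Polynomial.C (MvPolynomial.X i) * Polynomial.X ^ (i : ℕ) :
    Polynomial (MvPolynomial (Fin (m + 1)) ℚ)) ^ a)).coeff k := by
    rw [Polynomial.coeff_map]
    rfl
  rw [h1, Polynomial.map_pow, Polynomial.map_sum, Finset.sum_range]
  congr 2
  refine sum_congr rfl fun i _ => ?_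
  rw [Polynomial.map_mul, Polynomial.map_C, Polynomial.map_pow, Polynomial.map_X]
  congr 2
  exact MvPolynomial.aeval_X _ i

/-- the image of `ww m a k` is in the span of the values -/
private lemma tbbinim_ww_mem {S : Type*} [CommRing S] [Algebra ℚ S] (m a k : ℕ) (X : ℕ → S) :
    MvPolynomial.aeval (fun i : Fin (m + 1) => X i) (ww m a k) ∈
      Submodule.span ℚ (Set.range fun t : ℚ =>
        (∑ i ∈ range (m + 1), algebraMap ℚ S t ^ i * X i) ^ a) := by
  rw [tbbinim_ww]
  apply interp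
  intro t
  refine Submodule.subset_span ⟨t, ?_⟩
  simp only [Polynomial.eval_pow, Polynomial.eval_finsetSum, Polynomial.eval_mul, Polynomial.eval_C,
    Polynomial.eval_X]
  congr 1
  exact sum_congr rfl fun i _ => mul_comm _ _

/-- products of `c` members of a submodule are in its `c`-th power -/
private lemma tbbinim_pow {S : Type*} [CommRing S] [Algebra ℚ S] (W : Submodule ℚ S) :
    ∀ (c : ℕ) (g : Fin c → S), (∀ j, g j ∈ W) → ∏ j, g j ∈ W ^ c := by
  intro c
  induction c with
  | zero =>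
    intro g _
    rw [Finset.univ_eq_empty, Finset.prod_empty, pow_zero]
    exact Submodule.one_le.1 le_rfl
  | succ c ih =>
    intro g hg
    rw [Fin.prod_univ_succ, pow_succ']
    exact Submodule.mul_mem_mul (hg 0) (ih _ fun j => hg _)

/-- the coefficients `bx` as a sequence -/
noncomputable def tbbinim_x (k : ℕ) : MvPolynomial (Fin 3 × Fin 3) ℚ :=
  if h : k < 4 then bx ⟨k, h⟩ else 0

theorem tbbinim_x_fin (i : Fin 4) : tbbinim_x i = bx i := by
  unfold tbbinim_x
  rw [dif_pos i.2]

/-- the value of the generating polynomial of the `bx` -/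
theorem tbbinim_nm (t : ℚ) : ∑ i ∈ range 4,
    algebraMap ℚ (MvPolynomial (Fin 3 × Fin 3) ℚ) t ^ i * tbbinim_x i = nm 3 ![1, t, 0] := by
  have h1 : nm 3 ![1, t, 0] = ∏ i : Fin 3, (C t * X (i, 1) + X (i, 0)) := by
    unfold nm
    refine Finset.prod_congr rfl fun i _ => ?_
    unfold lin
    rw [Fin.sum_univ_three]
    simp only [Matrix.cons_val_zero, Matrix.cons_val_one, Matrix.cons_val]
    rw [C_1, one_mul, C_0, zero_mul, add_zero, add_comm]
  rw [h1, Finset.prod_add, Finset.sum_powerset]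
  refine Finset.sum_congr rfl fun b hb => ?_
  rw [Finset.card_univ, Fintype.card_fin, Finset.mem_range] at hb
  have h2 : tbbinim_x b = bx ⟨b, hb⟩ := by
    unfold tbbinim_x
    rw [dif_pos hb]
  rw [h2]
  unfold bx
  rw [Finset.mul_sum]
  refine Finset.sum_congr rfl fun U hU => ?_
  have h3 : U.card = b := (Finset.mem_powersetCard.1 hU).2
  rw [Finset.prod_mul_distrib, Finset.prod_const, h3, mul_assoc, Finset.compl_eq_univ_sdiff]
  rfl

theorem bin_im (a c : ℕ) (ha : 1 ≤ a) (hc : 3 ≤ c) (S : Type) [Fintype S] [DecidableEq S]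
    (hS : Fintype.card S = 3 * a) : B (a * c) 0 ≤ Im S 3 3 a c := by
  set T : Set (MvPolynomial (Fin 3 × Fin 3) ℚ) :=
    Set.range fun t : ℚ => (∑ i ∈ range (3 + 1),
      algebraMap ℚ (MvPolynomial (Fin 3 × Fin 3) ℚ) t ^ i * tbbinim_x i) ^ a with hT
  -- powers of the span of `T`
  have s1 : Submodule.span ℚ T ^ c ≤ Im S 3 3 a c := by
    rw [Submodule.span_pow, Submodule.span_le]
    intro x hx
    obtain ⟨f, rfl⟩ := Set.mem_pow.1 hx
    rw [List.prod_ofFn]
    choose t ht using fun l => (f l).2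
    have h1 : ∏ l, ((f l : MvPolynomial (Fin 3 × Fin 3) ℚ)) = ∏ l, nm 3 ![1, t l, 0] ^ a := by
      refine Finset.prod_congr rfl fun l _ => ?_
      rw [← ht l]
      show (∑ i ∈ range 4, algebraMap ℚ (MvPolynomial (Fin 3 × Fin 3) ℚ) (t l) ^ i * tbbinim_x i) ^ a = _
      rw [tbbinim_nm]
    rw [h1]
    exact prod_im a c S hS _
  -- values of homogeneous polynomials at `bx`
  have s2 : ∀ f : MvPolynomial (Fin 4) ℚ, f.IsHomogeneous (c * a) →
      MvPolynomial.aeval bx f ∈ Submodule.span ℚ T ^ c := by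
    intro f hf
    have h1 := span_ww_of 3 a c ha hc (fun f hf => span_ww_self 3 a (by norm_num) ha f hf) f hf
    have hbx : (bx : Fin 4 → MvPolynomial (Fin 3 × Fin 3) ℚ) = fun i : Fin (3 + 1) => tbbinim_x i :=
      funext fun i => (tbbinim_x_fin i).symm
    have h2 : Submodule.span ℚ (Set.range fun β : Fin c → ℕ => ∏ j, ww 3 a (β j)) ≤
        (Submodule.span ℚ T ^ c).comap (MvPolynomial.aeval bx :
          MvPolynomial (Fin 4) ℚ →ₐ[ℚ] MvPolynomial (Fin 3 × Fin 3) ℚ).toLinearMap := by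
      rw [Submodule.span_le]
      rintro _ ⟨β, rfl⟩
      rw [SetLike.mem_coe, Submodule.mem_comap]
      change MvPolynomial.aeval bx (∏ j, ww 3 a (β j)) ∈ Submodule.span ℚ T ^ c
      rw [map_prod]
      refine tbbinim_pow _ c _ fun j => ?_
      rw [hbx]
      exact tbbinim_ww_mem 3 a (β j) tbbinim_x
    exact h2 h1
  refine (bin_pow (a * c)).trans ?_
  rw [Submodule.span_pow, Submodule.span_le]
  intro x hx
  obtain ⟨f, rfl⟩ := Set.mem_pow.1 hx
  rw [List.prod_ofFn]
  choose t ht using fun l => (f l).2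
  have h1 : ∏ l, ((f l : MvPolynomial (Fin 3 × Fin 3) ℚ)) =
      MvPolynomial.aeval bx (∏ l, (X (t l) : MvPolynomial (Fin 4) ℚ)) := by
    rw [map_prod]
    refine Finset.prod_congr rfl fun l _ => ?_
    rw [aeval_X, ht l]
  rw [h1]
  refine s1 (s2 _ ?_)
  have h2 := MvPolynomial.IsHomogeneous.prod (univ : Finset (Fin (a * c)))
    (fun l => (X (t l) : MvPolynomial (Fin 4) ℚ)) (fun _ => 1) (fun l _ => isHomogeneous_X ℚ (t l))
  rw [Finset.sum_const, Finset.card_univ, Fintype.card_fin, smul_eq_mul, mul_one] at h2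
  rw [mul_comm c a]
  exact h2

end Helper87.TB
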