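import Mathlib
import Pool.Agent.Helper87.TB.Defs

/-!
# TB-ImA: formal properties of the image

* `im_equiv`: rename the points; `κ ↦ κ ∘ e` maps `Bl S'` bijectively onto `Bl S`.
* `im_Ed`: `Rk r κ (Ed S j l f) = Ed (Fin m) j l (Rk r κ f)`: check on monomials, or: both sides are derivations along `Rk r κ` (`MvPolynomial.mkDerivation`/`Derivation` extensionality for the
  module structure through `Rk`); e.g. prove it by `MvPolynomial.induction_on`.  `RG r (c, ..., c)` is stable under `Ed S j l` (monomials).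
* `im_wc`: `Rk` commutes with `weightedHomogeneousComponent` (`rename` of a monomial is a monomial of the same weight), and `RG` is stable under it (`coeff_weightedHomogeneousComponent`).
* `im_one`: `|S| = m`: the balanced maps with `a = 1` are the bijections; for `F ∈ RH ∩ Eqs 0` transport `F` to `S` by a bijection; every balanced map gives `F` back (`Eqs`), so
  `RS .. = m! F`.
* `im_zero`: no points, `RS 1 = 1`.
-/

set_option autoImplicit false

open MvPolynomial Finset

namespace Helper87.TB

open Helper87.TR Helper87.TA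

/-! ### auxiliary lemmas -/

private lemma tbima_mem_RG {S : Type} (r : ℕ) (d : S → ℕ) (f : MvPolynomial (S × Fin r) ℚ) :
    f ∈ RG r d ↔ ∀ e, coeff e f ≠ 0 → ∀ s, ∑ j, e (s, j) = d s := Iff.rfl

private lemma tbima_RS_apply (S : Type) [Fintype S] [DecidableEq S] (m r a : ℕ)
    (f : MvPolynomial (S × Fin r) ℚ) : RS S m r a f = ∑ κ ∈ Bl S m a, Rk r κ f := by
  unfold RS
  rw [LinearMap.sum_apply]
  rfl

private lemma tbima_mono {S : Type} (r : ℕ) (d : S → ℕ) (e : S × Fin r →₀ ℕ) (q : ℚ)
    (h : ∀ s, ∑ j, e (s, j) = d s) : monomial e q ∈ RG r d := by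
  classical
  intro e' he'
  rw [coeff_monomial] at he'
  by_cases h1 : e = e'
  · rw [← h1]; exact h
  · rw [if_neg h1] at he'; exact absurd rfl he'

private lemma tbima_rename_RG {S S' : Type} (e : S ≃ S') (r c : ℕ)
    (f : MvPolynomial (S × Fin r) ℚ) (hf : f ∈ RG r fun _ : S => c) :
    rename (fun p : S × Fin r => (e p.1, p.2)) f ∈ RG r fun _ : S' => c := by
  intro d hd s'
  obtain ⟨u, hu, hu2⟩ := coeff_rename_ne_zero _ _ _ hd
  have h1 := hf u hu2 (e.symm s')
  have hinj : Function.Injective (fun p : S × Fin r => (e p.1, p.2)) := by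
    intro p q hpq
    simp only [Prod.mk.injEq, EmbeddingLike.apply_eq_iff_eq] at hpq
    exact Prod.ext hpq.1 hpq.2
  rw [← h1]
  refine Finset.sum_congr rfl fun j _ => ?_
  have h2 := Finsupp.mapDomain_apply hinj u (e.symm s', j)
  simp only [Equiv.apply_symm_apply] at h2
  rw [← hu]
  exact h2

private lemma tbima_Rk_rename {S S' : Type} (e : S → S') {m : ℕ} (r : ℕ) (κ : S' → Fin m)
    (f : MvPolynomial (S × Fin r) ℚ) :
    Rk r κ (rename (fun p : S × Fin r => (e p.1, p.2)) f) = Rk r (κ ∘ e) f := by
  unfold Rk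
  rw [rename_rename]
  rfl

private lemma tbima_equiv_le {S S' : Type} [Fintype S] [DecidableEq S] [Fintype S']
    [DecidableEq S'] (e : S ≃ S') (m r a c : ℕ) : Im S m r a c ≤ Im S' m r a c := by
  intro F hF
  obtain ⟨f, hf, rfl⟩ := Submodule.mem_map.1 hF
  refine Submodule.mem_map.2 ⟨rename (fun p : S × Fin r => (e p.1, p.2)) f,
    tbima_rename_RG e r c f hf, ?_⟩
  rw [tbima_RS_apply, tbima_RS_apply]
  refine Finset.sum_bij' (fun κ _ => κ ∘ e) (fun κ _ => κ ∘ e.symm) ?_ ?_ ?_ ?_ ?_
  · intro κ hκ
    simp only [Bl, mem_filter, mem_univ, true_and] at hκ ⊢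
    intro i
    rw [← hκ i]
    refine Finset.card_bij (fun s _ => e s) ?_ ?_ ?_
    · intro s hs
      simp only [mem_filter, mem_univ, true_and, Function.comp_apply] at hs ⊢
      exact hs
    · intro s _ t _ hst
      exact e.injective hst
    · intro t ht
      refine ⟨e.symm t, ?_, e.apply_symm_apply t⟩
      simp only [mem_filter, mem_univ, true_and, Function.comp_apply,
        Equiv.apply_symm_apply] at ht ⊢
      exact ht
  · intro κ hκ
    simp only [Bl, mem_filter, mem_univ, true_and] at hκ ⊢
    intro i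
    rw [← hκ i]
    refine Finset.card_bij (fun s _ => e.symm s) ?_ ?_ ?_
    · intro s hs
      simp only [mem_filter, mem_univ, true_and, Function.comp_apply] at hs ⊢
      exact hs
    · intro s _ t _ hst
      exact e.symm.injective hst
    · intro t ht
      refine ⟨e t, ?_, e.symm_apply_apply t⟩
      simp only [mem_filter, mem_univ, true_and, Function.comp_apply,
        Equiv.symm_apply_apply] at ht ⊢
      exact ht
  · intro κ _
    funext s
    simp only [Function.comp_apply, Equiv.apply_symm_apply]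
  · intro κ _
    funext s
    simp only [Function.comp_apply, Equiv.symm_apply_apply]
  · intro κ _
    exact tbima_Rk_rename e r κ f

private lemma tbima_Ed_apply (S : Type) [Fintype S] {r : ℕ} (j l : Fin r)
    (f : MvPolynomial (S × Fin r) ℚ) :
    Ed S j l f = ∑ s : S, X (s, j) * pderiv (s, l) f := by
  classical
  unfold Ed
  have key : ∀ T : Finset S, (∑ s ∈ T, (X (s, j) : MvPolynomial (S × Fin r) ℚ) •
      (pderiv (s, l) : Derivation ℚ (MvPolynomial (S × Fin r) ℚ) _)) f =
      ∑ s ∈ T, X (s, j) * pderiv (s, l) f := by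
    intro T
    induction T using Finset.induction_on with
    | empty => simp
    | insert s T hs ih =>
      rw [Finset.sum_insert hs, Finset.sum_insert hs, Derivation.add_apply, ih,
        Derivation.smul_apply, smul_eq_mul]
  exact key univ

private lemma tbima_Ed_X (S : Type) [Fintype S] [DecidableEq S] {r : ℕ} (j l k : Fin r) (t : S) :
    Ed S j l (X (t, k)) = if k = l then X (t, j) else 0 := by
  rw [tbima_Ed_apply]
  rw [Finset.sum_eq_single t]
  · by_cases h : k = l
    · subst h
      rw [pderiv_X_self, mul_one, if_pos rfl]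
    · rw [pderiv_X_of_ne (fun h1 => h (Prod.ext_iff.1 h1).2), mul_zero, if_neg h]
  · intro s _ hs
    rw [pderiv_X_of_ne (fun h1 => hs (Prod.ext_iff.1 h1).1.symm), mul_zero]
  · intro h; exact absurd (mem_univ t) h

private lemma tbima_Ed_RG (S : Type) [Fintype S] [DecidableEq S] {r : ℕ} (d : S → ℕ) (j l : Fin r)
    (f : MvPolynomial (S × Fin r) ℚ) (hf : f ∈ RG r d) : Ed S j l f ∈ RG r d := by
  rw [f.as_sum, map_sum]
  refine Submodule.sum_mem _ fun e he => ?_
  have hd := hf e (mem_support_iff.1 he)
  rw [tbima_Ed_apply]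
  refine Submodule.sum_mem _ fun s _ => ?_
  rw [pderiv_monomial]
  by_cases h0 : e (s, l) = 0
  · rw [h0, Nat.cast_zero, mul_zero, monomial_zero, mul_zero]
    exact Submodule.zero_mem _
  · rw [X, monomial_mul, one_mul]
    refine tbima_mono r d _ _ fun t => ?_
    rw [← hd t]
    have h1 : ∀ i : Fin r, (Finsupp.single (s, j) 1 + (e - Finsupp.single (s, l) 1) : S × Fin r →₀ ℕ) (t, i) =
        (if (s, j) = (t, i) then 1 else 0) + (e (t, i) - if (s, l) = (t, i) then 1 else 0) := by
      intro i
      rw [Finsupp.add_apply, Finsupp.tsub_apply, Finsupp.single_apply, Finsupp.single_apply]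
    have h2 : ∀ i : Fin r, (e (t, i) - if (s, l) = (t, i) then 1 else 0) +
        (if (s, l) = (t, i) then 1 else 0) = e (t, i) := by
      intro i
      by_cases h : (s, l) = (t, i)
      · rw [if_pos h, ← h]; omega
      · rw [if_neg h]; omega
    have h3 : ∑ i, (Finsupp.single (s, j) 1 + (e - Finsupp.single (s, l) 1) : S × Fin r →₀ ℕ) (t, i) +
        ∑ i : Fin r, (if (s, l) = (t, i) then 1 else 0) =
        ∑ i, e (t, i) + ∑ i : Fin r, (if (s, j) = (t, i) then 1 else 0) := by
      rw [← Finset.sum_add_distrib, ← Finset.sum_add_distrib]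
      refine Finset.sum_congr rfl fun i _ => ?_
      rw [h1 i]
      have := h2 i
      omega
    have h4 : ∀ k : Fin r, ∑ i : Fin r, (if (s, k) = (t, i) then 1 else 0) =
        if s = t then 1 else 0 := by
      intro k
      by_cases h : s = t
      · subst h
        simp
      · simp [h]
    rw [h4, h4] at h3
    omega

private lemma tbima_Rk_Ed {S : Type} [Fintype S] [DecidableEq S] {m r : ℕ} (κ : S → Fin m)
    (j l : Fin r) (f : MvPolynomial (S × Fin r) ℚ) :
    Rk r κ (Ed S j l f) = Ed (Fin m) j l (Rk r κ f) := by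
  induction f using MvPolynomial.induction_on with
  | C a =>
    have h1 : Ed S j l (C a : MvPolynomial (S × Fin r) ℚ) = 0 := by
      rw [← algebraMap_eq]; exact Derivation.map_algebraMap _ _
    have h2 : Rk r κ (C a) = C a := by unfold Rk; exact rename_C _ _
    have h3 : Ed (Fin m) j l (C a : MvPolynomial (Fin m × Fin r) ℚ) = 0 := by
      rw [← algebraMap_eq]; exact Derivation.map_algebraMap _ _
    rw [h1, h2, h3, map_zero]
  | add p q hp hq => rw [map_add, map_add, map_add, map_add, hp, hq]
  | mul_X p x hp =>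
    obtain ⟨t, k⟩ := x
    have h1 : Rk r κ (X (t, k)) = X (κ t, k) := by unfold Rk; exact rename_X _ _
    rw [Derivation.leibniz, map_add, map_mul, Derivation.leibniz, h1, smul_eq_mul, smul_eq_mul,
      smul_eq_mul, smul_eq_mul, map_mul, map_mul, hp, h1, tbima_Ed_X, tbima_Ed_X]
    congr 2
    split_ifs
    · unfold Rk; exact rename_X _ _
    · exact map_zero _

private lemma tbima_weight {S : Type} {m : ℕ} (κ : S → Fin m) (e : S × Fin 3 →₀ ℕ) :
    Finsupp.weight (wt (Fin m)) (e.mapDomain fun p : S × Fin 3 => (κ p.1, p.2)) =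
      Finsupp.weight (wt S) e := by
  classical
  rw [Finsupp.weight_apply, Finsupp.weight_apply, Finsupp.sum_mapDomain_index]
  · rfl
  · intro b; exact zero_smul _ _
  · intro b p q; exact add_smul _ _ _

private lemma tbima_wc_mono {S : Type} (k : ℕ) (e : S × Fin 3 →₀ ℕ) (q : ℚ) :
    weightedHomogeneousComponent (wt S) k (monomial e q) =
      if Finsupp.weight (wt S) e = k then monomial e q else 0 := by
  classical
  ext d
  rw [coeff_weightedHomogeneousComponent, coeff_monomial]
  by_cases h : e = d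
  · subst h
    by_cases h2 : Finsupp.weight (wt S) e = k
    · rw [if_pos h2, if_pos h2, coeff_monomial]
    · rw [if_neg h2, if_neg h2, coeff_zero]
  · rw [if_neg h]
    split_ifs <;> first
      | rfl
      | (rw [coeff_monomial, if_neg h])

private lemma tbima_Rk_wc {S : Type} {m : ℕ} (κ : S → Fin m) (k : ℕ)
    (f : MvPolynomial (S × Fin 3) ℚ) :
    Rk 3 κ (weightedHomogeneousComponent (wt S) k f) =
      weightedHomogeneousComponent (wt (Fin m)) k (Rk 3 κ f) := by
  induction f using MvPolynomial.induction_on' with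
  | monomial e q =>
    have h1 : Rk 3 κ (monomial e q) =
        monomial (e.mapDomain fun p : S × Fin 3 => (κ p.1, p.2)) q := by
      unfold Rk; exact rename_monomial _ _ _
    rw [h1, tbima_wc_mono, tbima_wc_mono, tbima_weight]
    split_ifs
    · exact h1
    · exact map_zero _
  | add p q hp hq => rw [map_add, map_add, map_add, map_add, hp, hq]

private lemma tbima_wc_RG {S : Type} (d : S → ℕ) (k : ℕ) (f : MvPolynomial (S × Fin 3) ℚ)
    (hf : f ∈ RG 3 d) : weightedHomogeneousComponent (wt S) k f ∈ RG 3 d := by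
  classical
  intro e he
  rw [coeff_weightedHomogeneousComponent] at he
  split_ifs at he with h
  · exact hf e he
  · exact absurd rfl he

theorem im_equiv {S S' : Type} [Fintype S] [DecidableEq S] [Fintype S'] [DecidableEq S'] (e : S ≃ S')
    (m r a c : ℕ) : Im S m r a c = Im S' m r a c :=
  le_antisymm (tbima_equiv_le e m r a c) (tbima_equiv_le e.symm m r a c)

theorem im_Ed (S : Type) [Fintype S] [DecidableEq S] (m r a c : ℕ) (j l : Fin r)
    (F : MvPolynomial (Fin m × Fin r) ℚ) (hF : F ∈ Im S m r a c) : Ed (Fin m) j l F ∈ Im S m r a c := by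
  obtain ⟨f, hf, rfl⟩ := Submodule.mem_map.1 hF
  refine Submodule.mem_map.2 ⟨Ed S j l f, tbima_Ed_RG S _ j l f hf, ?_⟩
  rw [tbima_RS_apply, tbima_RS_apply, map_sum]
  exact Finset.sum_congr rfl fun κ _ => tbima_Rk_Ed κ j l f

theorem im_wc (S : Type) [Fintype S] [DecidableEq S] (m a c k : ℕ)
    (F : MvPolynomial (Fin m × Fin 3) ℚ) (hF : F ∈ Im S m 3 a c) :
    weightedHomogeneousComponent (wt (Fin m)) k F ∈ Im S m 3 a c := by
  obtain ⟨f, hf, rfl⟩ := Submodule.mem_map.1 hF
  refine Submodule.mem_map.2 ⟨weightedHomogeneousComponent (wt S) k f,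
    tbima_wc_RG _ k f hf, ?_⟩
  rw [tbima_RS_apply, tbima_RS_apply, map_sum]
  exact Finset.sum_congr rfl fun κ _ => tbima_Rk_wc κ k f

theorem im_one (S : Type) [Fintype S] [DecidableEq S] (m r c : ℕ) (hS : Fintype.card S = m) :
    RH r (fun _ : Fin m => c) ⊓ Eqs m r 0 ≤ Im S m r 1 c := by
  rintro F ⟨hF1, hF2⟩
  have e : S ≃ Fin m := Fintype.equivFinOfCardEq hS
  rw [im_equiv e]
  have hbij : ∀ κ ∈ Bl (Fin m) m 1, Function.Bijective κ := by
    intro κ hκ
    simp only [Bl, mem_filter, mem_univ, true_and] at hκ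
    have hsurj : Function.Surjective κ := by
      intro i
      have h1 : 0 < (univ.filter fun s => κ s = i).card := by rw [hκ i]; exact one_pos
      obtain ⟨s, hs⟩ := Finset.card_pos.1 h1
      exact ⟨s, (mem_filter.1 hs).2⟩
    exact Finite.surjective_iff_bijective.1 hsurj
  have hid : (id : Fin m → Fin m) ∈ Bl (Fin m) m 1 := by
    simp only [Bl, mem_filter, mem_univ, true_and, id_eq]
    intro i
    rw [Finset.filter_eq' univ i, if_pos (mem_univ i), card_singleton]
  have hne : ((Bl (Fin m) m 1).card : ℚ) ≠ 0 :=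
    Nat.cast_ne_zero.2 (Finset.card_ne_zero.2 ⟨_, hid⟩)
  refine Submodule.mem_map.2 ⟨((Bl (Fin m) m 1).card : ℚ)⁻¹ • F, Submodule.smul_mem _ _ ?_, ?_⟩
  · exact fun d hd s => hF1 d hd s
  · rw [map_smul, tbima_RS_apply]
    have h1 : ∀ κ ∈ Bl (Fin m) m 1, Rk r κ F = F := by
      intro κ hκ
      have h2 := hF2 (Equiv.ofBijective κ (hbij κ hκ))
      rw [pow_zero, one_smul] at h2
      exact h2
    rw [Finset.sum_congr rfl h1, Finset.sum_const, ← Nat.cast_smul_eq_nsmul ℚ, smul_smul,
      inv_mul_cancel₀ hne, one_smul]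

theorem im_zero (S : Type) [Fintype S] [DecidableEq S] (m r c : ℕ) (hS : Fintype.card S = 0) :
    1 ∈ Im S m r 0 c := by
  have hE : IsEmpty S := Fintype.card_eq_zero_iff.1 hS
  have hBl : Bl S m 0 = univ := by
    unfold Bl
    refine Finset.filter_true_of_mem fun κ _ i => ?_
    rw [Finset.card_eq_zero]
    exact Finset.filter_false_of_mem fun s _ => hE.elim s
  refine Submodule.mem_map.2 ⟨1, fun d _ s => hE.elim s, ?_⟩
  rw [tbima_RS_apply, hBl]
  have h1 : ∀ κ ∈ (univ : Finset (S → Fin m)), Rk r κ 1 = 1 := fun κ _ => map_one _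
  rw [Finset.sum_congr rfl h1, Finset.sum_const, card_univ, Fintype.card_fun, hS, pow_zero,
    one_smul]

end Helper87.TB
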