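import Mathlib
import Pool.Agent.Helper87.TB.Defs
import Pool.Agent.Helper87.TB.St.Facts

/-!
# TB-ImB: products in the image

* `im_mul`: `F = Dl * G ∈ RH (c, c, c) ∩ Eqs 0`, `H = RS S' 3 3 a P`, `P ∈ RG (c)`.  Put `Q = F(u) * P(u')`, a polynomial in the points `Fin 3 ⊕ S'` (`rename` by `Sum.inl`, `Sum.inr`), in
  `RG (c)`.  `RS (Fin 3 ⊕ S') 3 3 (a+1) Q = ∑_κ F(κ ∘ inl) P(κ ∘ inr)`.  If `κ ∘ inl` is not injective, then `Dl(κ ∘ inl) = 0` (`dt_eq_zero`).  If it is a permutation `σ`, then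
  `F(σ) = F` and `κ` is balanced (`a + 1`) if and only if `κ ∘ inr` is balanced (`a`).  So the sum is `6 F H`.
* `im_aron`: `c` odd, `c ≥ 3`.  On six points put
  `A = dt 0 1 2 * dt 0 1 3 * dt 0 2 4 * dt 1 2 5 * dt 3 4 5 ^ 2 * (dt 0 1 2 * dt 3 4 5) ^ (c - 3)` (degree `c` in each of the six points).  For `κ : Fin 6 → Fin 3` the value `A(κ)` is not zero only if
  `κ 0, κ 1, κ 2` are distinct, `κ 3 = κ 2`, `κ 4 = κ 1`, `κ 5 = κ 0`; then (with `σ i = κ i` and `s = sign σ`) the five factors are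
  `s Dl, s Dl, - s Dl, s Dl, (- s Dl)^2 = Dl^2` and `(s Dl * (- s Dl))^(c-3) = Dl^(2 (c - 3))` as `c - 3` is even, so `A(κ) = - Dl^(2 c)`, and `κ` is balanced (two points in every fibre).
  So with `Q = A(u) * P(u')` on `Fin 6 ⊕ S'`: `RS (Fin 6 ⊕ S') 3 3 (a+2) Q = - 6 Dl^(2 c) RS S' 3 3 a P`.
-/

set_option autoImplicit false

open MvPolynomial Finset

namespace Helper87.TB

open Helper87.TR Helper87.TA

theorem tbimb_RS_apply (S : Type) [Fintype S] [DecidableEq S] (m r a : ℕ)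
    (f : MvPolynomial (S × Fin r) ℚ) : RS S m r a f = ∑ κ ∈ Bl S m a, Rk r κ f := by
  unfold RS
  rw [LinearMap.sum_apply]
  rfl

theorem tbimb_RG_mul {S : Type} (r : ℕ) {d d' d'' : S → ℕ} {f g : MvPolynomial (S × Fin r) ℚ}
    (hf : f ∈ RG r d) (hg : g ∈ RG r d') (h : ∀ s, d s + d' s = d'' s) : f * g ∈ RG r d'' := by
  classical
  intro e he s
  rw [coeff_mul] at he
  obtain ⟨x, hx, hne⟩ := Finset.exists_ne_zero_of_sum_ne_zero he
  rw [Finset.HasAntidiagonal.mem_antidiagonal] at hx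
  rw [← h s, ← hf x.1 (left_ne_zero_of_mul hne) s, ← hg x.2 (right_ne_zero_of_mul hne) s, ← hx,
    ← Finset.sum_add_distrib]
  rfl

theorem tbimb_RG_one {S : Type} (r : ℕ) : (1 : MvPolynomial (S × Fin r) ℚ) ∈ RG r fun _ : S => 0 := by
  classical
  intro e he s
  rw [coeff_one] at he
  by_cases h : 0 = e
  · rw [← h]
    exact Finset.sum_const_zero
  · rw [if_neg h] at he
    exact absurd rfl he

theorem tbimb_RG_pow {S : Type} (r : ℕ) {d : S → ℕ} {f : MvPolynomial (S × Fin r) ℚ}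
    (hf : f ∈ RG r d) (n : ℕ) : f ^ n ∈ RG r fun s => n * d s := by
  induction n with
  | zero =>
    rw [pow_zero]
    have h := tbimb_RG_one (S := S) r
    have e : (fun s : S => 0 * d s) = fun _ : S => 0 := funext fun s => Nat.zero_mul _
    rw [e]
    exact h
  | succ n ih =>
    rw [pow_succ]
    exact tbimb_RG_mul r ih hf fun s => by ring

theorem tbimb_X_RG {S : Type} [DecidableEq S] (r : ℕ) (i : S) (j : Fin r) :
    (X (i, j) : MvPolynomial (S × Fin r) ℚ) ∈ RG r fun t : S => if t = i then 1 else 0 := by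
  intro e he s
  rw [coeff_X] at he
  by_cases h : Finsupp.single (i, j) 1 = e
  · rw [← h]
    change _ = if s = i then 1 else 0
    by_cases hs : s = i
    · subst hs
      rw [if_pos rfl, Finset.sum_eq_single j]
      · rw [Finsupp.single_eq_same]
      · intro b _ hb
        rw [Finsupp.single_eq_of_ne]
        intro h
        exact hb (Prod.ext_iff.1 h).2
      · intro h
        exact absurd (Finset.mem_univ _) h
    · rw [if_neg hs]
      apply Finset.sum_eq_zero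
      intro b _
      rw [Finsupp.single_eq_of_ne]
      intro h'
      exact hs (Prod.ext_iff.1 h').1
  · rw [if_neg h] at he
    exact absurd rfl he

theorem tbimb_mi_RG {S : Type} [DecidableEq S] (i j : S) :
    (mi i j : MvPolynomial (S × Fin 3) ℚ) ∈
      RG 3 (fun t : S => (if t = i then 1 else 0) + (if t = j then 1 else 0)) := by
  unfold mi
  refine Submodule.sub_mem _ ?_ ?_
  · exact tbimb_RG_mul 3 (tbimb_X_RG 3 i 0) (tbimb_X_RG 3 j 1) fun t => rfl
  · exact tbimb_RG_mul 3 (tbimb_X_RG 3 j 0) (tbimb_X_RG 3 i 1) fun t => add_comm _ _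

theorem tbimb_dt_RG {S : Type} [DecidableEq S] (i j k : S) :
    (dt i j k : MvPolynomial (S × Fin 3) ℚ) ∈
      RG 3 (fun t : S => (if t = i then 1 else 0) + (if t = j then 1 else 0) + (if t = k then 1 else 0)) := by
  unfold dt
  refine Submodule.add_mem _ (Submodule.add_mem _ ?_ ?_) ?_
  · exact tbimb_RG_mul 3 (tbimb_X_RG 3 i 2) (tbimb_mi_RG j k) fun t => by ring
  · exact tbimb_RG_mul 3 (tbimb_X_RG 3 j 2) (tbimb_mi_RG k i) fun t => by ring
  · exact tbimb_RG_mul 3 (tbimb_X_RG 3 k 2) (tbimb_mi_RG i j) fun t => by ring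

theorem tbimb_Rk_dt {S : Type} {m : ℕ} (κ : S → Fin m) (i j k : S) :
    Rk 3 κ (dt i j k) = dt (κ i) (κ j) (κ k) := by
  unfold Rk dt mi
  simp only [map_add, map_mul, map_sub, rename_X]

theorem tbimb_rename_RG {S T : Type} (g : S → T) (hg : Function.Injective g) (r : ℕ) (d : S → ℕ)
    (d' : T → ℕ) (h1 : ∀ s, d' (g s) = d s) (h0 : ∀ t, t ∉ Set.range g → d' t = 0)
    (f : MvPolynomial (S × Fin r) ℚ) (hf : f ∈ RG r d) :
    rename (fun p : S × Fin r => (g p.1, p.2)) f ∈ RG r d' := by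
  intro e he t
  obtain ⟨u, hu, hu2⟩ := coeff_rename_ne_zero _ _ _ he
  have hinj : Function.Injective (fun p : S × Fin r => (g p.1, p.2)) := by
    intro p q hpq
    exact Prod.ext (hg (Prod.ext_iff.1 hpq).1) (Prod.ext_iff.1 hpq).2
  by_cases ht : t ∈ Set.range g
  · obtain ⟨s, rfl⟩ := ht
    rw [h1 s, ← hf u hu2 s]
    refine Finset.sum_congr rfl fun j _ => ?_
    rw [← hu]
    exact Finsupp.mapDomain_apply hinj u (s, j)
  · rw [h0 t ht]
    apply Finset.sum_eq_zero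
    intro j _
    rw [← hu]
    apply Finsupp.mapDomain_of_notMem_range
    rintro ⟨p, hp⟩
    exact ht ⟨p.1, (Prod.ext_iff.1 hp).1⟩

theorem tbimb_Rk_rename {S T : Type} (g : S → T) {m : ℕ} (r : ℕ) (κ : T → Fin m)
    (f : MvPolynomial (S × Fin r) ℚ) :
    Rk r κ (rename (fun p : S × Fin r => (g p.1, p.2)) f) = Rk r (κ ∘ g) f := by
  unfold Rk
  rw [rename_rename]
  rfl

theorem tbimb_Bl {T S' : Type} [Fintype T] [DecidableEq T] [Fintype S'] [DecidableEq S'] (m a b : ℕ)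
    (τ : T → Fin m) (hτ : τ ∈ Bl T m b) (κ : S' → Fin m) :
    Sum.elim τ κ ∈ Bl (T ⊕ S') m (a + b) ↔ κ ∈ Bl S' m a := by
  have key : ∀ i, (univ.filter fun s : T ⊕ S' => Sum.elim τ κ s = i).card =
      (univ.filter fun s => τ s = i).card + (univ.filter fun s => κ s = i).card := by
    intro i
    rw [Finset.card_filter, Finset.card_filter, Finset.card_filter, Fintype.sum_sum_type]
    rfl
  simp only [Bl, mem_filter, mem_univ, true_and] at hτ ⊢
  constructor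
  · intro h i
    have := h i
    rw [key, hτ i] at this
    omega
  · intro h i
    rw [key, hτ i, h i]
    omega

/-- the general product statement -/
theorem tbimb_prod (T S' : Type) [Fintype T] [DecidableEq T] [Fintype S'] [DecidableEq S'] (m r a b c : ℕ)
    (A : MvPolynomial (T × Fin r) ℚ) (hA : A ∈ RG r fun _ : T => c) (K : Finset (T → Fin m))
    (hK : K ⊆ Bl T m b) (F : MvPolynomial (Fin m × Fin r) ℚ) (h1 : ∀ τ ∈ K, Rk r τ A = F)
    (h0 : ∀ τ, τ ∉ K → Rk r τ A = 0) (hne : K.Nonempty) (H : MvPolynomial (Fin m × Fin r) ℚ)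
    (hH : H ∈ Im S' m r a c) : F * H ∈ Im (T ⊕ S') m r (a + b) c := by
  obtain ⟨P, hP, rfl⟩ := Submodule.mem_map.1 hH
  set iA : MvPolynomial ((T ⊕ S') × Fin r) ℚ := rename (fun p : T × Fin r => (Sum.inl p.1, p.2)) A with hiA
  set iP : MvPolynomial ((T ⊕ S') × Fin r) ℚ := rename (fun p : S' × Fin r => (Sum.inr p.1, p.2)) P with hiP
  have hQ : iA * iP ∈ RG r fun _ : T ⊕ S' => c := by
    refine tbimb_RG_mul r (d := fun s => Sum.elim (fun _ => c) (fun _ => 0) s)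
      (d' := fun s => Sum.elim (fun _ => 0) (fun _ => c) s) ?_ ?_ ?_
    · refine tbimb_rename_RG Sum.inl Sum.inl_injective r (fun _ => c) _ (fun s => rfl) ?_ A hA
      rintro (t | t) ht
      · exact absurd ⟨t, rfl⟩ ht
      · rfl
    · refine tbimb_rename_RG Sum.inr Sum.inr_injective r (fun _ => c) _ (fun s => rfl) ?_ P hP
      rintro (t | t) ht
      · rfl
      · exact absurd ⟨t, rfl⟩ ht
    · rintro (t | t)
      · exact add_zero c
      · exact zero_add c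
  have hkey : RS (T ⊕ S') m r (a + b) (iA * iP) = (K.card : ℚ) • (F * RS S' m r a P) := by
    rw [tbimb_RS_apply, tbimb_RS_apply]
    have e1 : ∑ κ ∈ Bl (T ⊕ S') m (a + b), Rk r κ (iA * iP) =
        ∑ κ : T ⊕ S' → Fin m, if κ ∈ Bl (T ⊕ S') m (a + b) then Rk r κ (iA * iP) else 0 := by
      rw [← Finset.sum_filter]
      refine Finset.sum_congr ?_ fun _ _ => rfl
      ext κ
      simp
    rw [e1, ← (Equiv.sumArrowEquivProdArrow T S' (Fin m)).symm.sum_comp, Fintype.sum_prod_type]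
    have e2 : ∀ τ : T → Fin m, ∑ κ : S' → Fin m,
        (if (Equiv.sumArrowEquivProdArrow T S' (Fin m)).symm (τ, κ) ∈ Bl (T ⊕ S') m (a + b) then
          Rk r ((Equiv.sumArrowEquivProdArrow T S' (Fin m)).symm (τ, κ)) (iA * iP) else 0) =
        if τ ∈ K then F * ∑ κ ∈ Bl S' m a, Rk r κ P else 0 := by
      intro τ
      have e3 : ∀ κ : S' → Fin m, (Equiv.sumArrowEquivProdArrow T S' (Fin m)).symm (τ, κ) =
          Sum.elim τ κ := fun κ => rfl
      have e4 : ∀ κ : S' → Fin m, Rk r (Sum.elim τ κ) (iA * iP) = Rk r τ A * Rk r κ P := by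
        intro κ
        rw [map_mul, hiA, hiP, tbimb_Rk_rename, tbimb_Rk_rename, Sum.elim_comp_inl, Sum.elim_comp_inr]
      by_cases hτ : τ ∈ K
      · rw [if_pos hτ, Finset.mul_sum]
        have e5 : ∑ κ ∈ Bl S' m a, F * Rk r κ P =
            ∑ κ : S' → Fin m, if κ ∈ Bl S' m a then F * Rk r κ P else 0 := by
          rw [← Finset.sum_filter]
          refine Finset.sum_congr ?_ fun _ _ => rfl
          ext κ
          simp
        rw [e5]
        refine Finset.sum_congr rfl fun κ _ => ?_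
        rw [e3, e4, h1 τ hτ]
        by_cases hκ : κ ∈ Bl S' m a
        · rw [if_pos hκ, if_pos ((tbimb_Bl m a b τ (hK hτ) κ).2 hκ)]
        · rw [if_neg hκ, if_neg fun h => hκ ((tbimb_Bl m a b τ (hK hτ) κ).1 h)]
      · rw [if_neg hτ]
        apply Finset.sum_eq_zero
        intro κ _
        rw [e3, e4, h0 τ hτ, zero_mul, ite_self]
    rw [Finset.sum_congr rfl fun τ _ => e2 τ, ← Finset.sum_filter, Finset.sum_const,
      Nat.cast_smul_eq_nsmul]
    congr 2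
    ext τ
    simp
  have hcard : (K.card : ℚ) ≠ 0 := Nat.cast_ne_zero.2 (Finset.card_ne_zero.2 hne)
  refine Submodule.mem_map.2 ⟨(K.card : ℚ)⁻¹ • (iA * iP), Submodule.smul_mem _ _ hQ, ?_⟩
  rw [map_smul, hkey, smul_smul, inv_mul_cancel₀ hcard, one_smul]

theorem im_mul (a c : ℕ) (S' : Type) [Fintype S'] [DecidableEq S'] (G H : MvPolynomial (Fin 3 × Fin 3) ℚ)
    (h1 : Dl * G ∈ RH 3 (fun _ : Fin 3 => c)) (h2 : Dl * G ∈ Eqs 3 3 0) (hH : H ∈ Im S' 3 3 a c) :
    Dl * G * H ∈ Im (Fin 3 ⊕ S') 3 3 (a + 1) c := by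
  refine tbimb_prod (Fin 3) S' 3 3 a 1 c (Dl * G) (fun e he s => h1 e he s)
    (univ.filter fun τ : Fin 3 → Fin 3 => Function.Injective τ) ?_ (Dl * G) ?_ ?_ ?_ H hH
  · decide
  · intro τ hτ
    have hinj : Function.Injective τ := (mem_filter.1 hτ).2
    have hbij : Function.Bijective τ := Finite.injective_iff_bijective.1 hinj
    have h := h2 (Equiv.ofBijective τ hbij)
    rw [pow_zero, one_smul] at h
    exact h
  · intro τ hτ
    have hinj : ¬ Function.Injective τ := fun h => hτ (mem_filter.2 ⟨mem_univ _, h⟩)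
    have hz : τ 0 = τ 1 ∨ τ 1 = τ 2 ∨ τ 0 = τ 2 := by
      revert hinj
      revert τ
      decide
    rw [map_mul, Dl, tbimb_Rk_dt, dt_eq_zero _ _ _ hz, zero_mul]
  · exact ⟨id, mem_filter.2 ⟨mem_univ _, Function.injective_id⟩⟩

/-- the maps from six points at which the invariant does not vanish -/
def tbimb_K : Finset (Fin 6 → Fin 3) :=
  univ.filter fun τ => (τ 0 ≠ τ 1 ∧ τ 1 ≠ τ 2 ∧ τ 0 ≠ τ 2) ∧ τ 3 = τ 2 ∧ τ 4 = τ 1 ∧ τ 5 = τ 0

theorem tbimb_dt_sq (i j k : Fin 3) (h : i ≠ j ∧ j ≠ k ∧ i ≠ k) :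
    dt i j k ^ 2 = Dl ^ 2 := by
  have hinj : Function.Injective ![i, j, k] := by
    revert h
    revert i j k
    decide
  have hbij : Function.Bijective ![i, j, k] := Finite.injective_iff_bijective.1 hinj
  have h := dt_perm (Equiv.ofBijective _ hbij)
  have h' : dt i j k = (((Equiv.Perm.sign (Equiv.ofBijective ![i, j, k] hbij) : ℤ) : ℚ)) • Dl := h
  rw [h', smul_pow]
  rcases Int.units_eq_one_or (Equiv.Perm.sign (Equiv.ofBijective ![i, j, k] hbij)) with h1 | h1 <;>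
  · rw [h1]
    simp

theorem tbimb_dt_swap {S : Type} (i j k : S) : (dt i k j : MvPolynomial (S × Fin 3) ℚ) = - dt i j k := by
  unfold dt mi
  ring

theorem tbimb_dt_rot {S : Type} (i j k : S) : (dt j k i : MvPolynomial (S × Fin 3) ℚ) = dt i j k := by
  unfold dt mi
  ring

theorem tbimb_third1 : ∀ x0 x1 x2 x3 : Fin 3, x0 ≠ x1 ∧ x1 ≠ x2 ∧ x0 ≠ x2 →
    ¬ (x0 = x1 ∨ x1 = x3 ∨ x0 = x3) → x3 = x2 := by
  decide

theorem tbimb_third2 : ∀ x0 x1 x2 x4 : Fin 3, x0 ≠ x1 ∧ x1 ≠ x2 ∧ x0 ≠ x2 →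
    ¬ (x0 = x2 ∨ x2 = x4 ∨ x0 = x4) → x4 = x1 := by
  decide

theorem tbimb_third3 : ∀ x0 x1 x2 x5 : Fin 3, x0 ≠ x1 ∧ x1 ≠ x2 ∧ x0 ≠ x2 →
    ¬ (x1 = x2 ∨ x2 = x5 ∨ x1 = x5) → x5 = x0 := by
  decide

theorem im_aron (a c : ℕ) (hc : Odd c) (hc3 : 3 ≤ c) (S' : Type) [Fintype S'] [DecidableEq S']
    (H : MvPolynomial (Fin 3 × Fin 3) ℚ) (hH : H ∈ Im S' 3 3 a c) :
    Dl ^ (2 * c) * H ∈ Im (Fin 6 ⊕ S') 3 3 (a + 2) c := by
  have h : (- Dl ^ (2 * c)) * H ∈ Im (Fin 6 ⊕ S') 3 3 (a + 2) c := by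
    refine tbimb_prod (Fin 6) S' 3 3 a 2 c
      (dt 0 1 2 * dt 0 1 3 * dt 0 2 4 * dt 1 2 5 * dt 3 4 5 ^ 2 * (dt 0 1 2 * dt 3 4 5) ^ (c - 3))
      ?_ tbimb_K ?_ (- Dl ^ (2 * c)) ?_ ?_ ?_ H hH
    · have g1 := tbimb_dt_RG (S := Fin 6) 0 1 2
      have g2 := tbimb_dt_RG (S := Fin 6) 0 1 3
      have g3 := tbimb_dt_RG (S := Fin 6) 0 2 4
      have g4 := tbimb_dt_RG (S := Fin 6) 1 2 5
      have g5 := tbimb_dt_RG (S := Fin 6) 3 4 5
      have g12 := tbimb_RG_mul 3 g1 g2 fun _ => rfl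
      have g123 := tbimb_RG_mul 3 g12 g3 fun _ => rfl
      have g1234 := tbimb_RG_mul 3 g123 g4 fun _ => rfl
      have g55 := tbimb_RG_pow 3 g5 2
      have g := tbimb_RG_mul 3 g1234 g55 fun _ => rfl
      have g15 := tbimb_RG_pow 3 (tbimb_RG_mul 3 g1 g5 fun _ => rfl) (c - 3)
      refine tbimb_RG_mul 3 g g15 ?_
      intro s
      have e1 : ∀ s : Fin 6, ((if s = 0 then 1 else 0) + (if s = 1 then 1 else 0) + (if s = 2 then 1 else 0)) +
          ((if s = 0 then 1 else 0) + (if s = 1 then 1 else 0) + (if s = 3 then 1 else 0)) +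
          ((if s = 0 then 1 else 0) + (if s = 2 then 1 else 0) + (if s = 4 then 1 else 0)) +
          ((if s = 1 then 1 else 0) + (if s = 2 then 1 else 0) + (if s = 5 then 1 else 0)) +
          2 * ((if s = 3 then 1 else 0) + (if s = 4 then 1 else 0) + (if s = 5 then 1 else 0)) = 3 := by
        decide
      have e2 : ∀ s : Fin 6, ((if s = 0 then 1 else 0) + (if s = 1 then 1 else 0) + (if s = 2 then 1 else 0)) +
          ((if s = 3 then 1 else 0) + (if s = 4 then 1 else 0) + (if s = 5 then 1 else 0)) = 1 := by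
        decide
      rw [e1 s, e2 s, mul_one]
      omega
    · unfold tbimb_K
      decide
    · intro τ hτ
      have hτ2 := (mem_filter.1 hτ).2
      obtain ⟨hd, h3, h4, h5⟩ := hτ2
      have hsq := tbimb_dt_sq (τ 0) (τ 1) (τ 2) hd
      simp only [map_mul, map_pow, tbimb_Rk_dt]
      rw [h3, h4, h5]
      have q1 : (dt (τ 0) (τ 2) (τ 1) : MvPolynomial (Fin 3 × Fin 3) ℚ) = - dt (τ 0) (τ 1) (τ 2) :=
        tbimb_dt_swap _ _ _
      have q2 : (dt (τ 1) (τ 2) (τ 0) : MvPolynomial (Fin 3 × Fin 3) ℚ) = dt (τ 0) (τ 1) (τ 2) :=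
        tbimb_dt_rot _ _ _
      have q3 : (dt (τ 2) (τ 1) (τ 0) : MvPolynomial (Fin 3 × Fin 3) ℚ) = - dt (τ 0) (τ 1) (τ 2) := by
        unfold dt mi
        ring
      rw [q1, q2, q3]
      set D : MvPolynomial (Fin 3 × Fin 3) ℚ := dt (τ 0) (τ 1) (τ 2)
      obtain ⟨k, hk⟩ := hc
      have hck : c - 3 = 2 * (k - 1) := by omega
      have hcc : c = 3 + 2 * (k - 1) := by omega
      have e1 : (D * -D) ^ (c - 3) = (D ^ 2) ^ (c - 3) := by
        rw [hck, pow_mul, pow_mul]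
        congr 1
        ring
      rw [e1, pow_mul Dl 2 c, ← hsq]
      have e2 : (D ^ 2) ^ c = (D ^ 2) ^ 3 * (D ^ 2) ^ (c - 3) := by
        rw [← pow_add]
        congr 1
        omega
      rw [e2]
      ring
    · intro τ hτ
      simp only [map_mul, map_pow, tbimb_Rk_dt]
      by_cases hd : τ 0 ≠ τ 1 ∧ τ 1 ≠ τ 2 ∧ τ 0 ≠ τ 2
      · have hz : (τ 0 = τ 1 ∨ τ 1 = τ 3 ∨ τ 0 = τ 3) ∨ (τ 0 = τ 2 ∨ τ 2 = τ 4 ∨ τ 0 = τ 4) ∨
            (τ 1 = τ 2 ∨ τ 2 = τ 5 ∨ τ 1 = τ 5) := by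
          by_contra hcon
          apply hτ
          have c1 : ¬ (τ 0 = τ 1 ∨ τ 1 = τ 3 ∨ τ 0 = τ 3) := fun h => hcon (Or.inl h)
          have c2 : ¬ (τ 0 = τ 2 ∨ τ 2 = τ 4 ∨ τ 0 = τ 4) := fun h => hcon (Or.inr (Or.inl h))
          have c3 : ¬ (τ 1 = τ 2 ∨ τ 2 = τ 5 ∨ τ 1 = τ 5) := fun h => hcon (Or.inr (Or.inr h))
          exact mem_filter.2 ⟨mem_univ _, hd, tbimb_third1 _ _ _ _ hd c1, tbimb_third2 _ _ _ _ hd c2,
            tbimb_third3 _ _ _ _ hd c3⟩
        rcases hz with h | h | h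
        · rw [dt_eq_zero _ _ _ h]
          ring
        · rw [dt_eq_zero (τ 0) (τ 2) (τ 4) h]
          ring
        · rw [dt_eq_zero (τ 1) (τ 2) (τ 5) h]
          ring
      · have hz : τ 0 = τ 1 ∨ τ 1 = τ 2 ∨ τ 0 = τ 2 := by
          by_contra hcon
          apply hd
          push Not at hcon
          exact hcon
        rw [dt_eq_zero (τ 0) (τ 1) (τ 2) hz]
        ring
    · refine ⟨![0, 1, 2, 2, 1, 0], ?_⟩
      unfold tbimb_K
      rw [mem_filter]
      exact ⟨mem_univ _, by decide⟩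
  rw [neg_mul] at h
  have h' := Submodule.neg_mem _ h
  rw [neg_neg] at h'
  exact h'

end Helper87.TB
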