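import Mathlib
import Pool.Agent.Helper87.TB.Defs

/-!
# TB-Ortho: a subspace containing all highest weight vectors is everything

The form `ap f g = ∑_e coeff e f * coeff e g * ∏ e_p!` on `MvPolynomial σ ℚ` is symmetric, bilinear and positive definite, and `ap (X p * f) g = ap f (pderiv p g)` (check on monomials).
So `ap (Ed S j l f) g = ap f (Ed S l j g)`, and `weightedHomogeneousComponent` is self-adjoint.
`ortho`: let `M = RH 3 (n, n, n) ⊓ Eqs 3 3 0`, finite-dimensional (monomials of bounded degree), stable under all `Ed (Fin 3) j l` (they preserve the row degrees and commute with the permutations of the points) and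
under the `weightedHomogeneousComponent`s.  Suppose `M ≤ W` is false.  `W' = W ⊓ M ≠ M`; the form is nondegenerate on the finite-dimensional space `M`, so there is a nonzero `v ∈ M` with
`ap v f = 0` for all `f ∈ W'` (a functional on `M` vanishing on `W'` is `ap v`).  The space `N` of these `v` is stable under `Ed 0 2`, `Ed 1 2` (their adjoints `Ed 2 0`, `Ed 2 1` preserve `W'`) and
under the components.  Choose a nonzero `v ∈ N` of pure weight `k` with `k` as small as possible; `Ed 0 2 v`, `Ed 1 2 v` have weight `k - 1` and are in `N`, so they are `0`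
(for `k = 0` they vanish since `v` does not contain the last coordinates).  By `h`, `v ∈ W`, so `v ∈ W'` and `ap v v = 0`, a contradiction.
-/

set_option autoImplicit false

open MvPolynomial Finset

namespace Helper87.TB

open Helper87.TR Helper87.TA

/-- the apolar form -/
noncomputable def ap {σ : Type} (f g : MvPolynomial σ ℚ) : ℚ :=
  ∑ e ∈ f.support, coeff e f * coeff e g * (e.prod fun _ n => (n.factorial : ℚ))

/-! ### the form -/

theorem tbortho_pos {σ : Type} (e : σ →₀ ℕ) : 0 < (e.prod fun _ n => (n.factorial : ℚ)) :=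
  Finset.prod_pos fun _ _ => Nat.cast_pos.2 (Nat.factorial_pos _)

theorem tbortho_add {σ : Type} (e : σ →₀ ℕ) (p : σ) :
    ((e + Finsupp.single p 1).prod fun _ n => (n.factorial : ℚ)) =
      (e.prod fun _ n => (n.factorial : ℚ)) * (e p + 1) := by
  classical
  have h1 : (e + Finsupp.single p 1).support ⊆ insert p e.support := by
    intro q hq
    rw [Finset.mem_insert]
    by_cases hqp : q = p
    · exact Or.inl hqp
    · right
      rw [Finsupp.mem_support_iff] at hq ⊢
      rwa [Finsupp.add_apply, Finsupp.single_eq_of_ne hqp, add_zero] at hq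
  have h0 : ∀ q ∈ insert p e.support, (fun (_ : σ) (n : ℕ) => (n.factorial : ℚ)) q 0 = 1 := by
    intro q _
    simp
  rw [Finsupp.prod_of_support_subset _ h1 _ h0,
    Finsupp.prod_of_support_subset _ (Finset.subset_insert p e.support) _ h0,
    ← Finset.mul_prod_erase _ _ (Finset.mem_insert_self p e.support),
    ← Finset.mul_prod_erase _ (fun x => ((e x).factorial : ℚ)) (Finset.mem_insert_self p e.support)]
  have h2 : ∀ q ∈ (insert p e.support).erase p,
      (((e + Finsupp.single p 1 : σ →₀ ℕ) q).factorial : ℚ) = ((e q).factorial : ℚ) := by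
    intro q hq
    rw [Finsupp.add_apply, Finsupp.single_eq_of_ne (Finset.ne_of_mem_erase hq), add_zero]
  rw [Finset.prod_congr rfl h2]
  have h3 : (((e + Finsupp.single p 1 : σ →₀ ℕ) p).factorial : ℚ) =
      ((e p).factorial : ℚ) * (e p + 1) := by
    rw [Finsupp.add_apply, Finsupp.single_eq_same, Nat.factorial_succ]
    push_cast
    ring
  rw [h3]
  ring

theorem tbortho_ap_eq {σ : Type} (f g : MvPolynomial σ ℚ) (T : Finset (σ →₀ ℕ))
    (hT : ∀ e, coeff e f ≠ 0 → coeff e g ≠ 0 → e ∈ T) :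
    ap f g = ∑ e ∈ T, coeff e f * coeff e g * (e.prod fun _ n => (n.factorial : ℚ)) := by
  classical
  unfold ap
  have h1 : ∑ e ∈ f.support, coeff e f * coeff e g * (e.prod fun _ n => (n.factorial : ℚ)) =
      ∑ e ∈ f.support ∪ T, coeff e f * coeff e g * (e.prod fun _ n => (n.factorial : ℚ)) := by
    refine Finset.sum_subset Finset.subset_union_left ?_
    intro e _ he
    rw [notMem_support_iff] at he
    rw [he, zero_mul, zero_mul]
  have h2 : ∑ e ∈ T, coeff e f * coeff e g * (e.prod fun _ n => (n.factorial : ℚ)) =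
      ∑ e ∈ f.support ∪ T, coeff e f * coeff e g * (e.prod fun _ n => (n.factorial : ℚ)) := by
    refine Finset.sum_subset Finset.subset_union_right ?_
    intro e _ he
    by_cases hf : coeff e f = 0
    · rw [hf, zero_mul, zero_mul]
    · by_cases hg : coeff e g = 0
      · rw [hg, mul_zero, zero_mul]
      · exact absurd (hT e hf hg) he
  rw [h1, h2]

theorem tbortho_ap_right {σ : Type} (f g : MvPolynomial σ ℚ) :
    ap f g = ∑ e ∈ g.support, coeff e f * coeff e g * (e.prod fun _ n => (n.factorial : ℚ)) :=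
  tbortho_ap_eq f g _ fun _ _ h => mem_support_iff.2 h

theorem tbortho_comm {σ : Type} (f g : MvPolynomial σ ℚ) : ap f g = ap g f := by
  rw [tbortho_ap_right f g]
  unfold ap
  refine Finset.sum_congr rfl fun e _ => ?_
  rw [mul_comm (coeff e f)]

theorem tbortho_add_left {σ : Type} (f f' g : MvPolynomial σ ℚ) :
    ap (f + f') g = ap f g + ap f' g := by
  rw [tbortho_ap_right, tbortho_ap_right, tbortho_ap_right, ← Finset.sum_add_distrib]
  refine Finset.sum_congr rfl fun e _ => ?_
  rw [coeff_add]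
  ring

theorem tbortho_smul_left {σ : Type} (c : ℚ) (f g : MvPolynomial σ ℚ) :
    ap (c • f) g = c * ap f g := by
  rw [tbortho_ap_right, tbortho_ap_right, Finset.mul_sum]
  refine Finset.sum_congr rfl fun e _ => ?_
  rw [coeff_smul, smul_eq_mul]
  ring

theorem tbortho_add_right {σ : Type} (f g g' : MvPolynomial σ ℚ) :
    ap f (g + g') = ap f g + ap f g' := by
  rw [tbortho_comm, tbortho_add_left, tbortho_comm g, tbortho_comm g']

theorem tbortho_smul_right {σ : Type} (c : ℚ) (f g : MvPolynomial σ ℚ) :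
    ap f (c • g) = c * ap f g := by
  rw [tbortho_comm, tbortho_smul_left, tbortho_comm g]

/-- the form as a bilinear map -/
noncomputable def tbortho_bil (σ : Type) :
    MvPolynomial σ ℚ →ₗ[ℚ] MvPolynomial σ ℚ →ₗ[ℚ] ℚ :=
  LinearMap.mk₂ ℚ (fun f g => ap f g) tbortho_add_left tbortho_smul_left tbortho_add_right
    tbortho_smul_right

theorem tbortho_bil_apply {σ : Type} (f g : MvPolynomial σ ℚ) : tbortho_bil σ f g = ap f g := rfl

theorem tbortho_X {σ : Type} (p : σ) (f g : MvPolynomial σ ℚ) :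
    ap (X p * f) g = ap f (pderiv p g) := by
  classical
  have hinj : Function.Injective fun e : σ →₀ ℕ => e + Finsupp.single p 1 :=
    fun e e' h => add_right_cancel h
  rw [tbortho_ap_eq (X p * f) g (f.support.image fun e => e + Finsupp.single p 1)]
  · rw [Finset.sum_image (fun x _ y _ h => hinj h)]
    unfold ap
    refine Finset.sum_congr rfl fun e _ => ?_
    rw [coeff_pderiv, tbortho_add, add_comm e, coeff_X_mul]
    ring
  · intro e he _
    rw [coeff_X_mul'] at he
    split_ifs at he with h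
    · rw [Finset.mem_image]
      refine ⟨e - Finsupp.single p 1, mem_support_iff.2 he, ?_⟩
      rw [tsub_add_cancel_of_le]
      rw [Finsupp.single_le_iff]
      rw [Finsupp.mem_support_iff] at h
      omega
    · exact absurd rfl he

theorem tbortho_Ed (S : Type) [Fintype S] {r : ℕ} (j l : Fin r)
    (f : MvPolynomial (S × Fin r) ℚ) :
    Ed S j l f = ∑ s : S, X (s, j) * pderiv (s, l) f := by
  unfold Ed
  rw [← Derivation.coeFnAddMonoidHom_apply, map_sum, Finset.sum_apply]
  rfl

theorem ap_Ed (S : Type) [Fintype S] [DecidableEq S] {r : ℕ} (j l : Fin r) (f g : MvPolynomial (S × Fin r) ℚ) :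
    ap (Ed S j l f) g = ap f (Ed S l j g) := by
  rw [tbortho_Ed, tbortho_Ed, ← tbortho_bil_apply, ← tbortho_bil_apply, map_sum, map_sum,
    LinearMap.sum_apply]
  refine Finset.sum_congr rfl fun s _ => ?_
  rw [tbortho_bil_apply, tbortho_bil_apply, tbortho_X, tbortho_comm, ← tbortho_X, tbortho_comm]

theorem ap_self {σ : Type} (f : MvPolynomial σ ℚ) (h : ap f f = 0) : f = 0 := by
  unfold ap at h
  rw [Finset.sum_eq_zero_iff_of_nonneg] at h
  · rw [← MvPolynomial.support_eq_empty, Finset.eq_empty_iff_forall_notMem]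
    intro e he
    have h1 := h e he
    rw [mem_support_iff] at he
    have h2 := tbortho_pos e
    rcases mul_eq_zero.1 h1 with h3 | h3
    · exact he (mul_self_eq_zero.1 h3)
    · exact h2.ne' h3
  · intro e _
    exact mul_nonneg (mul_self_nonneg _) (tbortho_pos e).le

/-! ### exponents -/

/-- where the coefficients of `X p * pderiv q f` come from -/
theorem tbortho_src {σ : Type} (p q : σ) (f : MvPolynomial σ ℚ) (e : σ →₀ ℕ)
    (h : coeff e (X p * pderiv q f) ≠ 0) :
    ∃ e', coeff e' f ≠ 0 ∧ e + Finsupp.single q 1 = e' + Finsupp.single p 1 := by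
  classical
  rw [coeff_X_mul'] at h
  split_ifs at h with hp
  · rw [coeff_pderiv] at h
    refine ⟨_, left_ne_zero_of_mul h, ?_⟩
    have h1 : e - Finsupp.single p 1 + Finsupp.single p 1 = e := by
      rw [tsub_add_cancel_of_le]
      rw [Finsupp.single_le_iff]
      rw [Finsupp.mem_support_iff] at hp
      omega
    rw [add_right_comm, h1]
  · exact absurd rfl h

theorem tbortho_src_Ed {m r : ℕ} (j l : Fin r) (f : MvPolynomial (Fin m × Fin r) ℚ)
    (e : Fin m × Fin r →₀ ℕ) (h : coeff e (Ed (Fin m) j l f) ≠ 0) :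
    ∃ e' s, coeff e' f ≠ 0 ∧ e + Finsupp.single (s, l) 1 = e' + Finsupp.single (s, j) 1 := by
  rw [tbortho_Ed, coeff_sum] at h
  obtain ⟨s, -, hs⟩ := Finset.exists_ne_zero_of_sum_ne_zero h
  obtain ⟨e', h1, h2⟩ := tbortho_src _ _ _ _ hs
  exact ⟨e', s, h1, h2⟩

theorem tbortho_RH {m r : ℕ} {d : Fin m → ℕ} (j l : Fin r) {f : MvPolynomial (Fin m × Fin r) ℚ}
    (hf : f ∈ RH r d) : Ed (Fin m) j l f ∈ RH r d := by
  intro e he i
  obtain ⟨e', s, h1, h2⟩ := tbortho_src_Ed j l f e he
  have h3 := congrArg (fun e => rdeg e i) h2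
  simp only [rowa_rdeg_add, rowa_rdeg_single] at h3
  have h4 := hf e' h1 i
  omega

theorem tbortho_rename {m r : ℕ} (j l : Fin r) (σ : Equiv.Perm (Fin m))
    (f : MvPolynomial (Fin m × Fin r) ℚ) :
    rename (fun p : Fin m × Fin r => (σ p.1, p.2)) (Ed (Fin m) j l f) =
      Ed (Fin m) j l (rename (fun p : Fin m × Fin r => (σ p.1, p.2)) f) := by
  have hinj : Function.Injective fun p : Fin m × Fin r => (σ p.1, p.2) := by
    intro p q h
    have h1 := congrArg Prod.fst h
    have h2 := congrArg Prod.snd h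
    exact Prod.ext (σ.injective h1) h2
  rw [tbortho_Ed, tbortho_Ed, map_sum, ← Equiv.sum_comp σ (fun s => X (s, j) * pderiv (s, l)
    (rename (fun p : Fin m × Fin r => (σ p.1, p.2)) f))]
  refine Finset.sum_congr rfl fun s _ => ?_
  have h1 := pderiv_rename hinj (s, l) f
  rw [map_mul, rename_X]
  exact congrArg (fun x => X (σ s, j) * x) h1.symm

theorem tbortho_Eqs {m r : ℕ} {k : ℕ} (j l : Fin r) {f : MvPolynomial (Fin m × Fin r) ℚ}
    (hf : f ∈ Eqs m r k) : Ed (Fin m) j l f ∈ Eqs m r k := by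
  intro σ
  rw [tbortho_rename, hf σ, Derivation.map_smul]

theorem tbortho_weight_single (s : Fin 3) (j : Fin 3) :
    Finsupp.weight (wt (Fin 3)) (Finsupp.single (s, j) 1) = if j = 2 then 1 else 0 := by
  rw [Finsupp.weight_single]
  simp [wt]

/-- the weight drops by one -/
theorem tbortho_weight {k : ℕ} {f : MvPolynomial (Fin 3 × Fin 3) ℚ} (hf : f ∈ Wd k)
    {j : Fin 3} (hj : j ≠ 2) (e : Fin 3 × Fin 3 →₀ ℕ)
    (he : coeff e (Ed (Fin 3) j 2 f) ≠ 0) : Finsupp.weight (wt (Fin 3)) e + 1 = k := by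
  obtain ⟨e', s, h1, h2⟩ := tbortho_src_Ed j 2 f e he
  have h3 := congrArg (Finsupp.weight (wt (Fin 3))) h2
  rw [map_add, map_add, tbortho_weight_single, tbortho_weight_single, if_pos rfl, if_neg hj,
    add_zero] at h3
  rw [h3]
  exact hf h1

/-! ### components -/

theorem tbortho_comp_RH {d : Fin 3 → ℕ} (k : ℕ) {f : MvPolynomial (Fin 3 × Fin 3) ℚ}
    (hf : f ∈ RH 3 d) : weightedHomogeneousComponent (wt (Fin 3)) k f ∈ RH 3 d := by
  intro e he i
  rw [coeff_weightedHomogeneousComponent] at he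
  split_ifs at he with h
  · exact hf e he i
  · exact absurd rfl he

theorem tbortho_comp_rename (k : ℕ) (σ : Equiv.Perm (Fin 3))
    (f : MvPolynomial (Fin 3 × Fin 3) ℚ) :
    rename (fun p : Fin 3 × Fin 3 => (σ p.1, p.2)) (weightedHomogeneousComponent (wt (Fin 3)) k f) =
      weightedHomogeneousComponent (wt (Fin 3)) k
        (rename (fun p : Fin 3 × Fin 3 => (σ p.1, p.2)) f) := by
  classical
  have hinj : Function.Injective fun p : Fin 3 × Fin 3 => (σ p.1, p.2) := by
    intro p q h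
    have h1 := congrArg Prod.fst h
    have h2 := congrArg Prod.snd h
    exact Prod.ext (σ.injective h1) h2
  ext e
  obtain ⟨d, rfl⟩ : ∃ d : Fin 3 × Fin 3 →₀ ℕ,
      Finsupp.mapDomain (fun p : Fin 3 × Fin 3 => (σ p.1, p.2)) d = e := by
    refine ⟨Finsupp.mapDomain (fun p : Fin 3 × Fin 3 => (σ.symm p.1, p.2)) e, ?_⟩
    rw [← Finsupp.mapDomain_comp]
    have : ((fun p : Fin 3 × Fin 3 => (σ p.1, p.2)) ∘
        fun p : Fin 3 × Fin 3 => (σ.symm p.1, p.2)) = id := by
      funext p
      simp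
    rw [this, Finsupp.mapDomain_id]
  rw [coeff_rename_mapDomain _ hinj, coeff_weightedHomogeneousComponent,
    coeff_weightedHomogeneousComponent, coeff_rename_mapDomain _ hinj]
  have hw : Finsupp.weight (wt (Fin 3))
      (Finsupp.mapDomain (fun p : Fin 3 × Fin 3 => (σ p.1, p.2)) d) =
      Finsupp.weight (wt (Fin 3)) d := by
    rw [Finsupp.weight_apply, Finsupp.weight_apply, Finsupp.sum_mapDomain_index]
    · rfl
    · intro b
      exact zero_smul _ _
    · intro b m n
      exact add_smul _ _ _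
  rw [hw]

theorem tbortho_comp_Eqs {i : ℕ} (k : ℕ) {f : MvPolynomial (Fin 3 × Fin 3) ℚ}
    (hf : f ∈ Eqs 3 3 i) : weightedHomogeneousComponent (wt (Fin 3)) k f ∈ Eqs 3 3 i := by
  intro σ
  rw [tbortho_comp_rename, hf σ, map_smul]

theorem tbortho_comp_ap (k : ℕ) (f g : MvPolynomial (Fin 3 × Fin 3) ℚ) :
    ap (weightedHomogeneousComponent (wt (Fin 3)) k f) g =
      ap f (weightedHomogeneousComponent (wt (Fin 3)) k g) := by
  classical
  rw [tbortho_ap_eq _ g f.support, tbortho_ap_eq f _ f.support]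
  · refine Finset.sum_congr rfl fun e _ => ?_
    rw [coeff_weightedHomogeneousComponent, coeff_weightedHomogeneousComponent]
    split_ifs with h
    · rfl
    · rw [zero_mul, mul_zero]
  · intro e he _
    exact mem_support_iff.2 he
  · intro e he _
    rw [coeff_weightedHomogeneousComponent] at he
    split_ifs at he with h
    · exact mem_support_iff.2 he
    · exact absurd rfl he

theorem tbortho_comp_ne {f : MvPolynomial (Fin 3 × Fin 3) ℚ} (hf : f ≠ 0) :
    ∃ k, weightedHomogeneousComponent (wt (Fin 3)) k f ≠ 0 := by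
  classical
  obtain ⟨e, he⟩ := MvPolynomial.ne_zero_iff.1 hf
  refine ⟨Finsupp.weight (wt (Fin 3)) e, fun h => he ?_⟩
  have h1 := congrArg (coeff e) h
  rwa [coeff_weightedHomogeneousComponent, if_pos rfl, coeff_zero] at h1

theorem tbortho_fin (n : ℕ) : Module.Finite ℚ (RH 3 (fun _ : Fin 3 => n)) := by
  classical
  let b : Fin 3 × Fin 3 →₀ ℕ := Finsupp.equivFunOnFinite.symm fun _ => n
  have h1 : RH 3 (fun _ : Fin 3 => n) ≤ restrictSupport ℚ (Set.Icc 0 b) := by
    intro f hf
    rw [mem_restrictSupport_iff]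
    intro e he
    have he' : coeff e f ≠ 0 := mem_support_iff.1 he
    refine ⟨zero_le, ?_⟩
    intro p
    have h2 : rdeg e p.1 = n := hf e he' p.1
    have h3 : e p ≤ rdeg e p.1 := by
      unfold rdeg
      exact Finset.single_le_sum (f := fun j => e (p.1, j)) (fun _ _ => Nat.zero_le _)
        (Finset.mem_univ p.2)
    change e p ≤ n
    omega
  have h4 : Finite (Set.Icc 0 b) := (Set.finite_Icc 0 b).to_subtype
  have h5 : Module.Finite ℚ (restrictSupport ℚ (Set.Icc 0 b)) :=
    Module.Finite.of_basis (MvPolynomial.basisRestrictSupport ℚ (Set.Icc 0 b))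
  exact Submodule.finiteDimensional_of_le h1

theorem ortho (n : ℕ) (W : Submodule ℚ (MvPolynomial (Fin 3 × Fin 3) ℚ))
    (h20 : ∀ F ∈ W, Ed (Fin 3) 2 0 F ∈ W) (h21 : ∀ F ∈ W, Ed (Fin 3) 2 1 F ∈ W)
    (hP : ∀ k, ∀ F ∈ W, weightedHomogeneousComponent (wt (Fin 3)) k F ∈ W)
    (h : ∀ k, ∀ F ∈ RH 3 (fun _ : Fin 3 => n), F ∈ Eqs 3 3 0 → F ∈ Wd k → Ed (Fin 3) 0 2 F = 0 →
      Ed (Fin 3) 1 2 F = 0 → F ∈ W) :
    RH 3 (fun _ : Fin 3 => n) ⊓ Eqs 3 3 0 ≤ W := by
  by_contra hM
  set M := RH 3 (fun _ : Fin 3 => n) ⊓ Eqs 3 3 0 with hMdef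
  have hRH := tbortho_fin n
  have hMfin : Module.Finite ℚ M := Submodule.finiteDimensional_of_le
    (inf_le_left : RH 3 (fun _ : Fin 3 => n) ⊓ Eqs 3 3 0 ≤ RH 3 (fun _ : Fin 3 => n))
  have hlt : W ⊓ M < M := by
    refine lt_of_le_of_ne inf_le_right fun h1 => hM ?_
    rw [← h1]
    exact inf_le_left
  have hW'fin : Module.Finite ℚ (W ⊓ M : Submodule ℚ _) :=
    Submodule.finiteDimensional_of_le (inf_le_right : W ⊓ M ≤ M)
  -- a nonzero orthogonal vector
  let Φ : M →ₗ[ℚ] Module.Dual ℚ (W ⊓ M : Submodule ℚ (MvPolynomial (Fin 3 × Fin 3) ℚ)) :=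
    (((tbortho_bil (Fin 3 × Fin 3)).compl₂ (W ⊓ M).subtype).comp M.subtype)
  have hker : LinearMap.ker Φ ≠ ⊥ := by
    refine LinearMap.ker_ne_bot_of_finrank_lt ?_
    rw [Subspace.dual_finrank_eq]
    exact Submodule.finrank_lt_finrank_of_lt hlt
  obtain ⟨v0, hv0, hv0ne⟩ := (Submodule.ne_bot_iff _).1 hker
  have hv0' : ∀ f ∈ W ⊓ M, ap (v0 : MvPolynomial (Fin 3 × Fin 3) ℚ) f = 0 := by
    intro f hf
    have h1 := congrArg (fun T => T ⟨f, hf⟩) (LinearMap.mem_ker.1 hv0)
    exact h1
  -- stability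
  have hMEd : ∀ j l, ∀ f ∈ M, Ed (Fin 3) j l f ∈ M := fun j l f hf =>
    ⟨tbortho_RH j l hf.1, tbortho_Eqs j l hf.2⟩
  have hMc : ∀ k, ∀ f ∈ M, weightedHomogeneousComponent (wt (Fin 3)) k f ∈ M := fun k f hf =>
    ⟨tbortho_comp_RH k hf.1, tbortho_comp_Eqs k hf.2⟩
  -- the minimal weight
  let P : ℕ → Prop := fun k => ∃ v ∈ M, v ∈ Wd k ∧ v ≠ 0 ∧ ∀ f ∈ W ⊓ M, ap v f = 0
  have hPex : ∃ k, P k := by
    have h1 : (v0 : MvPolynomial (Fin 3 × Fin 3) ℚ) ≠ 0 := fun h1 => hv0ne (Subtype.ext h1)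
    obtain ⟨k, hk⟩ := tbortho_comp_ne h1
    refine ⟨k, _, hMc k _ v0.2, weightedHomogeneousComponent_mem _ _ _, hk, ?_⟩
    intro f hf
    rw [tbortho_comp_ap]
    exact hv0' _ ⟨hP k f hf.1, hMc k f hf.2⟩
  classical
  obtain ⟨v, hvM, hvk, hvne, hvo⟩ := Nat.find_spec hPex
  have hzero : ∀ j : Fin 3, j ≠ 2 → (∀ F ∈ W, Ed (Fin 3) 2 j F ∈ W) → Ed (Fin 3) j 2 v = 0 := by
    intro j hj hjW
    by_contra hne
    have hw : ∀ e, coeff e (Ed (Fin 3) j 2 v) ≠ 0 →
        Finsupp.weight (wt (Fin 3)) e + 1 = Nat.find hPex := fun e he =>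
      tbortho_weight hvk hj e he
    obtain ⟨e0, he0⟩ := MvPolynomial.ne_zero_iff.1 hne
    have h1 := hw e0 he0
    have h2 : P (Nat.find hPex - 1) := by
      refine ⟨_, hMEd j 2 v hvM, ?_, hne, ?_⟩
      · intro e he
        have := hw e he
        change Finsupp.weight (wt (Fin 3)) e = Nat.find hPex - 1
        omega
      · intro f hf
        rw [ap_Ed]
        exact hvo _ ⟨hjW f hf.1, hMEd _ _ f hf.2⟩
    exact Nat.find_min hPex (by omega) h2
  have hvW : v ∈ W := h _ v hvM.1 hvM.2 hvk (hzero 0 (by decide) h20) (hzero 1 (by decide) h21)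
  exact hvne (ap_self v (hvo v ⟨hvW, hvM⟩))

end Helper87.TB
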