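import Mathlib
import Pool.Agent.Helper87.TB.Defs

/-!
# TB-Cop: divisibility by a `2 × 2` minor

`R = MvPolynomial (Fin 3 × Fin 3) ℚ`, points `i ≠ j`, `mi i j = x_i y_j - x_j y_i`.
* `mi_prime`: `mi i j` is a prime element.  Possible proofs: (1) `Mathlib/RingTheory/MvPolynomial/IrreducibleQuadratic.lean` has the irreducibility of sums of
  products of variables (`MvPolynomial.irreducible_mul_X_add` and similar); `R` is a UFD, so irreducible = prime.
  (2) by hand: `x_i` is prime (`MvPolynomial.prime_X`, `X_prime`-type) and `x_i ∤ mi i j`; every `g` satisfies `x_i ^ N g = (mi i j) h + g'` with `g'` free of `y_j`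
  (induction), a multiple of `mi i j` free of `y_j` is `0`, etc.
* `mi_dvd_subst`: if `g` vanishes under the substitution `x_j ↦ x_i t`, `y_j ↦ y_i t` then `mi i j ∣ g`.  Stated here in the form that is needed: for `g` of
  degree `n` in the point `j` that vanishes when the point `j` is replaced by the point `i` (`rename`).  Proof: `x_i y_j = x_j y_i` modulo `mi i j`, so for a monomial
  `x_j^a y_j^b M` (`a + b = n`, no third coordinate, `M` free of the point `j`): `x_i^n x_j^a y_j^b = x_j^n x_i^a y_i^b` modulo `mi i j`; so `x_i^n g ≡ x_j^n g(z_j := z_i) = 0`,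
  and `mi i j` is prime and does not divide `x_i`.
* `mi_ndvd`: two different minors are not associated, so one does not divide the other (degrees: the point `k` does not occur in `mi i j`).
-/

set_option autoImplicit false

open MvPolynomial Finset

namespace Helper87.TB

open Helper87.TR Helper87.TA

theorem tbcop_X_vars (a b : Fin 3 × Fin 3) (h : a ≠ b) :
    a ∉ (X b : MvPolynomial (Fin 3 × Fin 3) ℚ).vars := by
  rw [vars_X]
  simpa using h

theorem mi_prime (i j : Fin 3) (h : i ≠ j) : Prime (mi i j : MvPolynomial (Fin 3 × Fin 3) ℚ) := by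
  have e : (mi i j : MvPolynomial (Fin 3 × Fin 3) ℚ) =
      X (i, 0) * X (j, 1) + -(X (j, 0) * X (i, 1)) := by
    unfold mi
    ring
  rw [e, ← UniqueFactorizationMonoid.irreducible_iff_prime]
  apply irreducible_mul_X_add
  · exact X_ne_zero _
  · apply tbcop_X_vars
    intro h'
    exact h (Prod.ext_iff.1 h').1.symm
  · rw [vars_neg]
    intro h'
    have h2 := vars_mul _ _ h'
    rw [Finset.mem_union] at h2
    rcases h2 with h2 | h2
    · refine tbcop_X_vars _ _ ?_ h2
      intro h3
      have := (Prod.ext_iff.1 h3).2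
      simp at this
    · refine tbcop_X_vars _ _ ?_ h2
      intro h3
      exact h (Prod.ext_iff.1 h3).1.symm
  · have hX : Prime (X (i, 0) : MvPolynomial (Fin 3 × Fin 3) ℚ) := X_prime
    rw [hX.irreducible.isRelPrime_iff_not_dvd, dvd_neg]
    intro hd
    rcases hX.dvd_or_dvd hd with hd | hd
    · rw [X_dvd_X] at hd
      exact h (Prod.ext_iff.1 hd).1
    · rw [X_dvd_X] at hd
      have := (Prod.ext_iff.1 hd).2
      simp at this

theorem mi_ndvd (i j k : Fin 3) (hij : i ≠ j) (hik : i ≠ k) (hjk : j ≠ k) :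
    ¬ (mi i j : MvPolynomial (Fin 3 × Fin 3) ℚ) ∣ mi j k ∧ ¬ (mi i j : MvPolynomial (Fin 3 × Fin 3) ℚ) ∣ mi k i := by
  constructor
  · rintro ⟨q, hq⟩
    have h1 := congrArg (eval fun p : Fin 3 × Fin 3 =>
      if p = (j, 0) then (1 : ℚ) else if p = (k, 1) then 1 else 0) hq
    simp [mi, hik, hjk] at h1
  · rintro ⟨q, hq⟩
    have h1 := congrArg (eval fun p : Fin 3 × Fin 3 =>
      if p = (i, 0) then (1 : ℚ) else if p = (k, 1) then 1 else 0) hq
    simp [mi, hik, hjk] at h1

theorem tbcop_mon {A : Type*} [CommRing A] [Algebra ℚ A]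
    (π : MvPolynomial (Fin 3 × Fin 3) ℚ →ₐ[ℚ] A) (i j : Fin 3)
    (hπ : π (X (i, 0)) * π (X (j, 1)) = π (X (j, 0)) * π (X (i, 1)))
    (e : Fin 3 × Fin 3 →₀ ℕ) (he : e (j, 2) = 0) (c : ℚ) :
    π (X (i, 0)) ^ rdeg e j * π (monomial e c) = π (X (j, 0)) ^ rdeg e j *
      π (rename (fun p : Fin 3 × Fin 3 => (if p.1 = j then i else p.1, p.2)) (monomial e c)) := by
  have hs : rdeg e j = ∑ p : Fin 3 × Fin 3, (if p.1 = j then 1 else 0) * e p := by
    unfold rdeg
    rw [Fintype.sum_prod_type, Finset.sum_eq_single j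
      (fun b _ hb => Finset.sum_eq_zero fun c _ => by rw [if_neg hb, zero_mul])
      (fun h => absurd (Finset.mem_univ _) h)]
    exact Finset.sum_congr rfl fun c _ => by rw [if_pos rfl, one_mul]
  have hm : monomial e c = C c * ∏ p : Fin 3 × Fin 3, X p ^ e p := by
    rw [monomial_eq, Finsupp.prod_fintype]
    intro p
    exact pow_zero _
  have key : ∀ p : Fin 3 × Fin 3,
      (π (X (i, 0)) ^ (if p.1 = j then 1 else 0) * π (X p)) ^ e p =
      (π (X (j, 0)) ^ (if p.1 = j then 1 else 0) *
        π (X ((if p.1 = j then i else p.1, p.2) : Fin 3 × Fin 3))) ^ e p := by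
    rintro ⟨a, b⟩
    by_cases ha : a = j
    · subst ha
      fin_cases b
      · simp only [if_true, pow_one]
        congr 1
        exact mul_comm _ _
      · simp only [if_true, pow_one]
        congr 1
      · have : e (a, 2) = 0 := he
        simp only [Fin.reduceFinMk]
        rw [this, pow_zero, pow_zero]
    · simp only [if_neg ha, pow_zero, one_mul]
  have hp : ∏ p : Fin 3 × Fin 3, (π (X (i, 0)) ^ (if p.1 = j then 1 else 0) * π (X p)) ^ e p =
      ∏ p : Fin 3 × Fin 3, (π (X (j, 0)) ^ (if p.1 = j then 1 else 0) *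
        π (X ((if p.1 = j then i else p.1, p.2) : Fin 3 × Fin 3))) ^ e p :=
    Finset.prod_congr rfl fun p _ => key p
  simp only [mul_pow, ← pow_mul, Finset.prod_mul_distrib, Finset.prod_pow_eq_pow_sum] at hp
  rw [← hs] at hp
  rw [hm]
  simp only [map_mul, map_prod, map_pow, rename_C, rename_X]
  linear_combination π (C c) * hp

theorem mi_dvd_subst (n : ℕ) (i j : Fin 3) (hij : i ≠ j) (g : MvPolynomial (Fin 3 × Fin 3) ℚ)
    (hg : g ∈ RH 3 (fun _ : Fin 3 => n)) (hw : g ∈ Wd 0)
    (h0 : rename (fun p : Fin 3 × Fin 3 => (if p.1 = j then i else p.1, p.2)) g = 0) : mi i j ∣ g := by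
  have hpr := mi_prime i j hij
  let I : Ideal (MvPolynomial (Fin 3 × Fin 3) ℚ) := Ideal.span {mi i j}
  let π : MvPolynomial (Fin 3 × Fin 3) ℚ →ₐ[ℚ] (MvPolynomial (Fin 3 × Fin 3) ℚ ⧸ I) :=
    Ideal.Quotient.mkₐ ℚ I
  have hker : ∀ f, π f = 0 ↔ mi i j ∣ f := by
    intro f
    rw [← Ideal.mem_span_singleton]
    exact Ideal.Quotient.eq_zero_iff_mem
  have hπ : π (X (i, 0)) * π (X (j, 1)) = π (X (j, 0)) * π (X (i, 1)) := by
    rw [← map_mul, ← map_mul, ← sub_eq_zero, ← map_sub, hker]
    exact dvd_refl _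
  have hmon : ∀ e ∈ g.support, π (X (i, 0)) ^ n * π (monomial e (coeff e g)) =
      π (X (j, 0)) ^ n * π (rename (fun p : Fin 3 × Fin 3 => (if p.1 = j then i else p.1, p.2))
        (monomial e (coeff e g))) := by
    intro e he
    have hc : coeff e g ≠ 0 := mem_support_iff.1 he
    have h1 : rdeg e j = n := hg e hc j
    have h2 : e (j, 2) = 0 := by
      have h3 : Finsupp.weight (wt (Fin 3)) e = 0 := hw hc
      rw [Finsupp.weight_apply, Finsupp.sum_fintype _ _ (fun p => by simp)] at h3
      have h4 := (Finset.sum_eq_zero_iff.1 h3) (j, 2) (Finset.mem_univ _)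
      simpa [wt] using h4
    rw [← h1]
    exact tbcop_mon π i j hπ e h2 _
  have hsum : π (X (i, 0)) ^ n * π g = 0 := by
    have h5 : π (X (i, 0)) ^ n * π g =
        π (X (j, 0)) ^ n * π (rename (fun p : Fin 3 × Fin 3 =>
          (if p.1 = j then i else p.1, p.2)) g) := by
      conv_lhs => rw [as_sum g]
      conv_rhs => rw [as_sum g]
      rw [map_sum, map_sum, map_sum, Finset.mul_sum, Finset.mul_sum]
      exact Finset.sum_congr rfl hmon
    rw [h5, h0, map_zero, mul_zero]
  rw [← map_pow, ← map_mul, hker] at hsum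
  rcases hpr.dvd_or_dvd hsum with h6 | h6
  · exfalso
    have h7 := hpr.dvd_of_dvd_pow h6
    obtain ⟨q, hq⟩ := h7
    have h8 := congrArg (eval fun p : Fin 3 × Fin 3 => if p = (i, 0) then (1 : ℚ) else 0) hq
    simp [mi] at h8
  · exact h6

end Helper87.TB
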