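import Mathlib
import Pool.Agent.Helper87.TB.Defs
import Pool.Agent.Helper87.TB.St.Facts

/-!
# TB-Deg: cancelling homogeneous factors

* `RH_cancel`: `RH r d` is a homogeneous component for the grading by the row degrees (one can use `weightedHomogeneousComponent` with the weight
  `(i, j) ↦ Pi.single i 1` in `Fin m → ℕ`, or argue directly).  If `f * g ∈ RH r d'`, `f ∈ RH r d`, `f ≠ 0`, `g ≠ 0`: choose for every row `i` the largest and the smallest degree of
  `g` in the row `i`; the product of the extreme parts is not zero (no zero divisors).  So `d i ≤ d' i` and `g ∈ RH r (d' - d)`.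
* `Eqs_cancel`: `f * g ∈ Eqs (k)`, `f ∈ Eqs l`, `f ≠ 0`: apply the automorphism and cancel `f` (`sign ^ 2 = 1`).
* `hw_struct2`, `anti_div`: combine with `hw_struct` (file Hw) resp. `mi_dvd_subst` (file Cop).
-/

set_option autoImplicit false

open MvPolynomial Finset

namespace Helper87.TB

open Helper87.TR Helper87.TA

/-- the variables of the row `i` are multiplied by a new variable -/
noncomputable def tbdeg_phi {m r : ℕ} (i : Fin m) :
    MvPolynomial (Fin m × Fin r) ℚ →ₐ[ℚ] Polynomial (MvPolynomial (Fin m × Fin r) ℚ) :=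
  aeval fun p : Fin m × Fin r => Polynomial.C (X p) * (if p.1 = i then Polynomial.X else 1)

theorem tbdeg_row {m r : ℕ} (i : Fin m) (e : Fin m × Fin r →₀ ℕ) :
    (e.prod fun p k => (if p.1 = i then (Polynomial.X : Polynomial (MvPolynomial (Fin m × Fin r) ℚ))
      else 1) ^ k) = Polynomial.X ^ rdeg e i := by
  rw [Finsupp.prod_fintype _ _ (fun p => pow_zero _), Fintype.prod_prod_type,
    Finset.prod_eq_single i (fun i' _ h => ?_) (fun h => absurd (Finset.mem_univ i) h)]
  · simp only [if_true]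
    rw [Finset.prod_pow_eq_pow_sum]
    rfl
  · refine Finset.prod_eq_one fun j _ => ?_
    rw [if_neg h, one_pow]

theorem tbdeg_monomial {m r : ℕ} (i : Fin m) (e : Fin m × Fin r →₀ ℕ) (c : ℚ) :
    tbdeg_phi i (monomial e c) = Polynomial.monomial (rdeg e i) (monomial e c) := by
  unfold tbdeg_phi
  rw [aeval_monomial]
  simp only [mul_pow]
  rw [Finsupp.prod_mul, tbdeg_row, ← Polynomial.C_mul_X_pow_eq_monomial, ← mul_assoc]
  congr 1
  rw [MvPolynomial.monomial_eq, map_mul]
  congr 1
  rw [Finsupp.prod, Finsupp.prod, map_prod]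
  exact Finset.prod_congr rfl fun p _ => (map_pow _ _ _).symm

theorem tbdeg_coeff {m r : ℕ} (i : Fin m) (g : MvPolynomial (Fin m × Fin r) ℚ) (k : ℕ)
    (e : Fin m × Fin r →₀ ℕ) :
    coeff e ((tbdeg_phi i g).coeff k) = if rdeg e i = k then coeff e g else 0 := by
  induction g using MvPolynomial.induction_on' with
  | monomial e' c =>
    rw [tbdeg_monomial, Polynomial.coeff_monomial, coeff_monomial]
    by_cases h : e' = e
    · subst h
      by_cases h2 : rdeg e' i = k
      · rw [if_pos h2, if_pos h2, coeff_monomial]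
      · rw [if_neg h2, if_neg h2, coeff_zero]
    · by_cases h2 : rdeg e' i = k
      · rw [if_pos h2, coeff_monomial, if_neg h, ite_self]
      · rw [if_neg h2, if_neg h, coeff_zero, ite_self]
  | add p q hp hq =>
    rw [map_add, Polynomial.coeff_add, coeff_add, coeff_add, hp, hq]
    split_ifs
    · rfl
    · exact add_zero _

theorem tbdeg_mem {m r : ℕ} (d : Fin m → ℕ) (f : MvPolynomial (Fin m × Fin r) ℚ) (hf : f ∈ RH r d)
    (i : Fin m) : tbdeg_phi i f = Polynomial.C f * Polynomial.X ^ d i := by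
  refine Polynomial.ext fun k => MvPolynomial.ext _ _ fun e => ?_
  rw [tbdeg_coeff, Polynomial.coeff_C_mul_X_pow]
  by_cases h : coeff e f = 0
  · split_ifs <;> simp [h]
  · have h2 := hf e h i
    by_cases h3 : k = d i
    · rw [if_pos h3, if_pos (h2.trans h3.symm)]
    · rw [if_neg h3, if_neg (fun h4 => h3 (h4.symm.trans h2)), coeff_zero]

theorem RH_cancel {m r : ℕ} (d d' : Fin m → ℕ) (f g : MvPolynomial (Fin m × Fin r) ℚ) (hf : f ∈ RH r d)
    (hf0 : f ≠ 0) (hg0 : g ≠ 0) (h : f * g ∈ RH r d') :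
    (∀ i, d i ≤ d' i) ∧ g ∈ RH r (fun i => d' i - d i) := by
  have key : ∀ i : Fin m, Polynomial.X ^ d i * tbdeg_phi i g = Polynomial.C g * Polynomial.X ^ d' i := by
    intro i
    have h1 := tbdeg_mem d' (f * g) h i
    rw [map_mul, tbdeg_mem d f hf i, map_mul, mul_assoc, mul_assoc] at h1
    exact mul_left_cancel₀ (fun h2 => hf0 (Polynomial.C_eq_zero.1 h2)) h1
  have hle : ∀ i, d i ≤ d' i := by
    intro i
    by_contra hlt
    have h1 := congrArg (fun P => Polynomial.coeff P (d' i)) (key i)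
    simp only [Polynomial.coeff_C_mul_X_pow, if_true] at h1
    rw [Polynomial.coeff_X_pow_mul', if_neg hlt] at h1
    exact hg0 h1.symm
  refine ⟨hle, fun e he i => ?_⟩
  by_contra hne
  have h1 := congrArg (fun P => coeff e (Polynomial.coeff P (d i + rdeg e i))) (key i)
  simp only [Polynomial.coeff_C_mul_X_pow] at h1
  rw [add_comm (d i), Polynomial.coeff_X_pow_mul, tbdeg_coeff, if_pos rfl, if_neg, coeff_zero] at h1
  · exact he h1
  · intro h2
    exact hne (Nat.eq_sub_of_add_eq h2)

theorem Eqs_cancel {m r : ℕ} (k l : ℕ) (f g : MvPolynomial (Fin m × Fin r) ℚ) (hf : f ∈ Eqs m r l)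
    (hf0 : f ≠ 0) (h : f * g ∈ Eqs m r k) : g ∈ Eqs m r (k + l) := by
  intro σ
  have h1 := h σ
  have h2 := hf σ
  have hs : ((((Equiv.Perm.sign σ : ℤ) : ℚ) ^ l) * ((Equiv.Perm.sign σ : ℤ) : ℚ) ^ l) = 1 := by
    rw [← mul_pow]
    rcases Int.units_eq_one_or (Equiv.Perm.sign σ) with h3 | h3 <;> rw [h3] <;> simp
  rw [map_mul, h2] at h1
  apply mul_left_cancel₀ hf0
  have h4 := congrArg (fun P => (((Equiv.Perm.sign σ : ℤ) : ℚ) ^ l) • P) h1
  simp only [smul_mul_assoc, smul_smul, hs, one_smul] at h4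
  rw [h4, mul_smul_comm, pow_add, mul_comm (((Equiv.Perm.sign σ : ℤ) : ℚ) ^ l)]

end Helper87.TB
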