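import Mathlib
import Pool.Agent.Helper87.TB.Defs
import Pool.Agent.Helper87.TB.St.Facts
import Pool.Agent.Helper87.TB.St.Cop

/-!
# TB-Hw: polynomials killed by the two raising operators are `Dl^k` times a polynomial in the plane

* `syz`: from the two relations `∑ x_i g_i = 0`, `∑ y_i g_i = 0`: `y_0 * first - x_0 * second` gives `mi 2 0 * g 2 = mi 0 1 * g 1` (check the signs) and similarly
  `mi 1 2 * g 1 = mi 2 0 * g 0`, `mi 1 2 * g 2 = mi 0 1 * g 0`.  Since `mi 0 1` is prime and does not divide `mi 2 0`, `g 2 = mi 0 1 * G`; cancel.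
* `hw_struct`: induction on `k`.  `k = 0`: nothing to prove.  `k ≥ 1`: `g i = pderiv (i, 2) F`; `Ed 0 2 F = ∑ x_i g_i`, `Ed 1 2 F = ∑ y_i g_i`; `syz` gives `G`, and Euler's identity in the
  last coordinates (`∑ X (i, 2) * pderiv (i, 2) F = k F` for `F ∈ Wd k`; e.g. `MvPolynomial.IsWeightedHomogeneous.sum_weight_X_mul_pderiv` or by monomials) gives
  `k F = Dl * G`.  `G ∈ Wd (k - 1)` (compare weights: `Dl * G` is weighted homogeneous of weight `k`, `Dl ≠ 0` of weight `1`; or replace `G` by its component of weight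
  `k - 1`), and `Ed j 2 (Dl * G) = Dl * Ed j 2 G` (`Ed_Dl`), so `Ed j 2 G = 0`.
-/

set_option autoImplicit false

open MvPolynomial Finset

namespace Helper87.TB

open Helper87.TR Helper87.TA

theorem syz (g : Fin 3 → MvPolynomial (Fin 3 × Fin 3) ℚ) (h0 : ∑ i, X (i, 0) * g i = 0)
    (h1 : ∑ i, X (i, 1) * g i = 0) :
    ∃ G, g 0 = mi 1 2 * G ∧ g 1 = mi 2 0 * G ∧ g 2 = mi 0 1 * G := by
  rw [Fin.sum_univ_three] at h0 h1
  have hp := mi_prime 0 1 (by decide)
  have hnd := (mi_ndvd 0 1 2 (by decide) (by decide) (by decide)).2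
  have e1 : (mi 2 0 : MvPolynomial (Fin 3 × Fin 3) ℚ) * g 2 = mi 0 1 * g 1 := by
    unfold mi
    linear_combination (X (0, 1) : MvPolynomial (Fin 3 × Fin 3) ℚ) * h0 - X (0, 0) * h1
  have e2 : (mi 1 2 : MvPolynomial (Fin 3 × Fin 3) ℚ) * g 2 = mi 0 1 * g 0 := by
    unfold mi
    linear_combination (-X (1, 1) : MvPolynomial (Fin 3 × Fin 3) ℚ) * h0 + X (1, 0) * h1
  have hd : (mi 0 1 : MvPolynomial (Fin 3 × Fin 3) ℚ) ∣ g 2 := by
    have h3 : (mi 0 1 : MvPolynomial (Fin 3 × Fin 3) ℚ) ∣ mi 2 0 * g 2 := ⟨g 1, e1⟩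
    rcases hp.dvd_or_dvd h3 with h4 | h4
    · exact absurd h4 hnd
    · exact h4
  obtain ⟨G, hG⟩ := hd
  refine ⟨G, ?_, ?_, hG⟩
  · apply mul_left_cancel₀ hp.ne_zero
    rw [← e2, hG]
    ring
  · apply mul_left_cancel₀ hp.ne_zero
    rw [← e1, hG]
    ring

theorem tbhw_comp {σ : Type} (w : σ → ℕ) (A G : MvPolynomial σ ℚ) (i j : ℕ)
    (hA : A ∈ weightedHomogeneousSubmodule ℚ w i) :
    weightedHomogeneousComponent w (i + j) (A * G) = A * weightedHomogeneousComponent w j G := by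
  let _ := weightedGradedAlgebra ℚ w
  have h := DirectSum.coe_decompose_mul_add_of_left_mem (weightedHomogeneousSubmodule ℚ w)
    (i := i) (j := j) (a := A) (b := G) hA
  have h1 : ∀ (f : MvPolynomial σ ℚ) (m : ℕ),
      ((DirectSum.decompose (weightedHomogeneousSubmodule ℚ w) f m :
        weightedHomogeneousSubmodule ℚ w m) : MvPolynomial σ ℚ) =
      weightedHomogeneousComponent w m f := fun f m => weightedDecomposition.decompose'_apply ℚ w f m
  rw [h1, h1] at h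
  exact h

theorem tbhw_Ed (j l : Fin 3) (F : MvPolynomial (Fin 3 × Fin 3) ℚ) :
    Ed (Fin 3) j l F = ∑ i, X (i, j) * pderiv (i, l) F := by
  unfold Ed
  rw [Fin.sum_univ_three, Fin.sum_univ_three]
  simp only [Derivation.add_apply, Derivation.smul_apply, smul_eq_mul]

theorem hw_struct (k : ℕ) (F : MvPolynomial (Fin 3 × Fin 3) ℚ) (hF : F ∈ Wd k)
    (h0 : Ed (Fin 3) 0 2 F = 0) (h1 : Ed (Fin 3) 1 2 F = 0) : ∃ F' ∈ Wd 0, F = Dl ^ k * F' := by
  induction k generalizing F with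
  | zero => exact ⟨F, hF, by rw [pow_zero, one_mul]⟩
  | succ k ih =>
    obtain ⟨G, g0, g1, g2⟩ := syz (fun i => pderiv (i, 2) F) (by rw [← tbhw_Ed]; exact h0)
      (by rw [← tbhw_Ed]; exact h1)
    have hE : (k + 1) • F = Dl * G := by
      have hE1 := IsWeightedHomogeneous.sum_weight_X_mul_pderiv (w := wt (Fin 3)) (n := k + 1)
        (φ := F) hF
      rw [← hE1, Fintype.sum_prod_type]
      simp only [Fin.sum_univ_three, wt]
      rw [g0, g1, g2]
      unfold Dl dt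
      simp
      ring
    have hk : ((k : ℚ) + 1) ≠ 0 := by positivity
    have hDG : Dl * weightedHomogeneousComponent (wt (Fin 3)) k G = Dl * G := by
      rw [← tbhw_comp (wt (Fin 3)) Dl G 1 k Dl_mem.2.2, ← hE, add_comm 1 k]
      apply weightedHomogeneousComponent_eq_self
      exact (mem_weightedHomogeneousSubmodule ℚ _ _ _).1 (nsmul_mem hF (k + 1))
    set G' := weightedHomogeneousComponent (wt (Fin 3)) k G with hG'
    have hG'm : G' ∈ Wd k := weightedHomogeneousComponent_mem _ _ _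
    have hEd : ∀ j : Fin 3, Ed (Fin 3) j 2 Dl = 0 → Ed (Fin 3) j 2 F = 0 →
        Ed (Fin 3) j 2 G' = 0 := by
      intro j hj hjF
      have h2 : Ed (Fin 3) j 2 (Dl * G') = 0 := by
        rw [hDG, ← hE, map_nsmul, hjF, smul_zero]
      rw [Derivation.leibniz, hj, smul_zero, add_zero, smul_eq_mul] at h2
      exact (mul_eq_zero.1 h2).resolve_left Dl_ne
    obtain ⟨F', hF', hGF⟩ := ih G' hG'm (hEd 0 Ed_Dl.1 h0) (hEd 1 Ed_Dl.2 h1)
    refine ⟨((k : ℚ) + 1)⁻¹ • F', Submodule.smul_mem _ _ hF', ?_⟩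
    have h3 : ((k : ℚ) + 1) • F = Dl ^ (k + 1) * F' := by
      rw [pow_succ', mul_assoc, ← hGF, hDG, ← hE, ← Nat.cast_smul_eq_nsmul ℚ]
      push_cast
      rfl
    rw [mul_smul_comm, ← h3, smul_smul, inv_mul_cancel₀ hk, one_smul]

end Helper87.TB
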