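import Mathlib
import Pool.Agent.Helper87.TB.Defs
import Pool.Agent.Helper87.TB.St.Facts
import Pool.Agent.Helper87.TB.St.Cop
import Pool.Agent.Helper87.TB.St.Hw
import Pool.Agent.Helper87.TB.St.Deg

/-!
# TB-Struct: structure of highest weight vectors and of alternating polynomials

* `hw_struct2`: `hw_struct` gives `F = Dl^k F'`; `Dl^k ∈ RH (k, k, k)`, `Dl^k ∈ Eqs k` (`Dl_mem`, `RH_mul`, `Eqs_mul`), then `RH_cancel`, `Eqs_cancel` (and `Eqs_parity`: `0 + k`).
* `anti_div`: `F` alternating.  For `i ≠ j` the substitution of the point `i` for the point `j` gives `0`: with `s = swap i j` the substitution `ρ` satisfies `ρ ∘ rename s = ρ`, so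
  `ρ F = ρ (rename s F) = - ρ F`.  `mi_dvd_subst`: the three minors divide `F`; they are prime and do not divide each other, so `DD ∣ F`; then `RH_cancel`, `Eqs_cancel`, and the quotient is in `Wd 0`
  (weights; e.g. the argument of `RH_cancel` for the weight `wt`, or: a polynomial with a factor that involves a variable `X (i, 2)` involves this variable, `degreeOf_mul_eq`-type
  lemmas in a domain).
-/

set_option autoImplicit false

open MvPolynomial Finset

namespace Helper87.TB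

open Helper87.TR Helper87.TA

theorem tbstruct_weight (d : Fin 3 × Fin 3 →₀ ℕ) :
    Finsupp.weight (wt (Fin 3)) d = 0 ↔ ∀ i, d (i, 2) = 0 := by
  rw [Finsupp.weight_apply, Finsupp.sum_fintype d (fun i c => c • wt (Fin 3) i) (fun i => zero_smul ℕ _),
    Finset.sum_eq_zero_iff]
  constructor
  · intro h i
    have h1 := h (i, 2) (Finset.mem_univ _)
    unfold wt at h1
    simpa using h1
  · rintro h ⟨i, j⟩ _
    unfold wt
    by_cases hj : j = 2
    · subst hj
      simp [h i]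
    · simp [hj]

theorem tbstruct_Wd0 (f : MvPolynomial (Fin 3 × Fin 3) ℚ) :
    f ∈ Wd 0 ↔ ∀ i, degreeOf (i, (2 : Fin 3)) f ≤ 0 := by
  constructor
  · intro h i
    rw [degreeOf_le_iff]
    intro m hm
    have h1 : Finsupp.weight (wt (Fin 3)) m = 0 := h (mem_support_iff.1 hm)
    rw [(tbstruct_weight m).1 h1 i]
  · intro h m hm
    rw [tbstruct_weight]
    intro i
    have h1 := degreeOf_le_iff.1 (h i) m (mem_support_iff.2 hm)
    omega

theorem tbstruct_Wd_cancel (f g : MvPolynomial (Fin 3 × Fin 3) ℚ) (hf0 : f ≠ 0) (hg0 : g ≠ 0)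
    (h : f * g ∈ Wd 0) : g ∈ Wd 0 := by
  rw [tbstruct_Wd0] at h ⊢
  intro i
  have h1 := h i
  rw [degreeOf_mul_eq hf0 hg0] at h1
  omega

theorem tbstruct_pow (k : ℕ) : Dl ^ k ∈ RH 3 (fun _ : Fin 3 => k) ∧ Dl ^ k ∈ Eqs 3 3 k := by
  induction k with
  | zero =>
    constructor
    · rw [pow_zero]
      have h := monomial_mem_RH (m := 3) (r := 3) 0 (1 : ℚ)
      have e : rdeg (0 : Fin 3 × Fin 3 →₀ ℕ) = fun _ : Fin 3 => 0 := by
        funext i
        unfold rdeg
        simp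
      rw [e] at h
      exact h
    · intro σ
      rw [pow_zero, pow_zero, map_one, one_smul]
  | succ k ih =>
    constructor
    · rw [pow_succ]
      exact RH_mul _ _ (Submodule.mul_mem_mul ih.1 Dl_mem.1)
    · rw [pow_succ]
      exact Eqs_mul 3 3 k 1 _ _ ih.2 Dl_mem.2.1

/-- alternating polynomials vanish when two points coincide -/
theorem tbstruct_subst (n : ℕ) (F : MvPolynomial (Fin 3 × Fin 3) ℚ) (hF : F ∈ B n 1)
    (i j : Fin 3) (hij : i ≠ j) :
    rename (fun p : Fin 3 × Fin 3 => (if p.1 = j then i else p.1, p.2)) F = 0 := by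
  have h1 := hF.1.2 (Equiv.swap i j)
  rw [Equiv.Perm.sign_swap hij] at h1
  have h2 : rename (fun p : Fin 3 × Fin 3 => (if p.1 = j then i else p.1, p.2))
      (rename (fun p : Fin 3 × Fin 3 => ((Equiv.swap i j) p.1, p.2)) F) =
      rename (fun p : Fin 3 × Fin 3 => (if p.1 = j then i else p.1, p.2)) F := by
    rw [rename_rename]
    congr 2
    funext p
    obtain ⟨a, b⟩ := p
    simp only [Function.comp]
    by_cases ha : a = i
    · subst ha
      rw [Equiv.swap_apply_left, if_pos rfl, if_neg hij]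
    · by_cases hb : a = j
      · subst hb
        rw [Equiv.swap_apply_right, if_neg hij, if_pos rfl]
      · rw [Equiv.swap_apply_of_ne_of_ne ha hb]
  rw [h1] at h2
  simp only [Units.val_neg, Units.val_one, Int.cast_neg, Int.cast_one, pow_one, neg_smul,
    one_smul, map_neg] at h2
  exact self_eq_neg.1 h2.symm

theorem hw_struct2 (n k : ℕ) (F : MvPolynomial (Fin 3 × Fin 3) ℚ) (hF : F ∈ RH 3 (fun _ : Fin 3 => n))
    (hs : F ∈ Eqs 3 3 0) (hw : F ∈ Wd k) (h0 : Ed (Fin 3) 0 2 F = 0) (h1 : Ed (Fin 3) 1 2 F = 0)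
    (hne : F ≠ 0) : k ≤ n ∧ ∃ F' ∈ B (n - k) k, F = Dl ^ k * F' := by
  obtain ⟨F', hF', e⟩ := hw_struct k F hw h0 h1
  have hD : Dl ^ k ≠ 0 := pow_ne_zero k Dl_ne
  have hF0 : F' ≠ 0 := by
    rintro rfl
    rw [mul_zero] at e
    exact hne e
  obtain ⟨hR, hE⟩ := tbstruct_pow k
  have h2 := RH_cancel _ _ (Dl ^ k) F' hR hD hF0 (by rw [← e]; exact hF)
  have h3 := Eqs_cancel 0 k (Dl ^ k) F' hE hD (by rw [← e]; exact hs)
  rw [zero_add] at h3
  exact ⟨h2.1 0, F', ⟨⟨h2.2, h3⟩, hF'⟩, e⟩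

theorem anti_div (n : ℕ) (F : MvPolynomial (Fin 3 × Fin 3) ℚ) (hF : F ∈ B n 1) (hne : F ≠ 0) :
    2 ≤ n ∧ ∃ F' ∈ B (n - 2) 0, F = DD * F' := by
  have hdvd : ∀ i j : Fin 3, i ≠ j → mi i j ∣ F := fun i j hij =>
    mi_dvd_subst n i j hij F hF.1.1 hF.2 (tbstruct_subst n F hF i j hij)
  have h12 := hdvd 1 2 (by decide)
  have h20 := hdvd 2 0 (by decide)
  have h01 := hdvd 0 1 (by decide)
  obtain ⟨G, hG⟩ := h12
  have h20' : mi 2 0 ∣ G := by
    rw [hG] at h20
    exact ((mi_prime 2 0 (by decide)).dvd_or_dvd h20).resolve_left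
      (mi_ndvd 2 0 1 (by decide) (by decide) (by decide)).2
  obtain ⟨H, hH⟩ := h20'
  have h01' : mi 0 1 ∣ H := by
    rw [hG, hH] at h01
    have h1 := ((mi_prime 0 1 (by decide)).dvd_or_dvd h01).resolve_left
      (mi_ndvd 0 1 2 (by decide) (by decide) (by decide)).1
    exact ((mi_prime 0 1 (by decide)).dvd_or_dvd h1).resolve_left
      (mi_ndvd 0 1 2 (by decide) (by decide) (by decide)).2
  obtain ⟨F', hF'⟩ := h01'
  have e : F = DD * F' := by
    unfold DD
    rw [hG, hH, hF']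
    ring
  have hF0 : F' ≠ 0 := by
    rintro rfl
    rw [mul_zero] at e
    exact hne e
  have h2 := RH_cancel _ _ DD F' DD_mem.1.1 DD_ne hF0 (by rw [← e]; exact hF.1.1)
  have h3 := Eqs_cancel 1 1 DD F' DD_mem.1.2 DD_ne (by rw [← e]; exact hF.1.2)
  rw [Eqs_parity 3 3 (1 + 1) 0 (by decide)] at h3
  have h4 := tbstruct_Wd_cancel DD F' DD_ne hF0 (by rw [← e]; exact hF.2)
  exact ⟨h2.1 0, F', ⟨⟨h2.2, h3⟩, h4⟩, e⟩

end Helper87.TB
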