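import Mathlib
import Pool.Agent.Helper87.TB.Defs
import Pool.Agent.Helper87.TB.St.Facts
import Pool.Agent.Helper87.TB.St.Struct
import Pool.Agent.Helper87.TB.St.BinSp
import Pool.Agent.Helper87.TB.St.BinIm
import Pool.Agent.Helper87.TB.St.ImA
import Pool.Agent.Helper87.TB.St.ImB
import Pool.Agent.Helper87.TB.St.Ortho

/-!
# TB-Main: the image is everything

Strong induction on `a` (for all `S`).  `a = 1`: `im_one`.  `a ≥ 2`: `ortho` with `W = Im S 3 3 a c` (`im_Ed`, `im_wc`); let `F ≠ 0` be as there, `n = a c`;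
`hw_struct2`: `k ≤ n`, `F = Dl^k F'`, `F' ∈ B (n - k) k`.
* `k = 0`: `bin_im`.
* `k` odd: `F' ∈ B (n - k) 1` (`Eqs_parity`), `F' = DD F''`, `F'' ∈ B (n - k - 2) 0`, `k + 2 ≤ n` (`anti_div`).  Choose `k1` odd with `1 ≤ k1 ≤ min k (c - 2)` and `k - k1 ≤ (a - 1) c`: `k1 = min k (c - 2)` if `c` is odd, `k1 = min k (c - 3)` if
  `c` is even.  `F'' ∈ B (c - k1 - 2) 0 * B ((a - 1) c - (k - k1)) 0` (`bin_split`); for a product `G1 * G2`:
  `Dl^k DD G1 G2 = (Dl^k1 DD G1) * (Dl^(k - k1) G2)`, the first factor is `Dl * ..` in `RH (c) ⊓ Eqs 0`, the second is in `RH ((a-1) c) ⊓ Eqs 0 ≤ Im (Fin (3 (a-1))) 3 3 (a-1) c`; `im_mul` and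
  `im_equiv` (`Fin 3 ⊕ Fin (3 (a - 1)) ≃ S`).
* `k ≥ 2` even, and not (`c` odd and `k = n`): `k1` even, `2 ≤ k1 ≤ min k c`, `k - k1 ≤ (a - 1) c`: `k1 = min k c` if `c` is even, `k1 = min k (c - 1)` if `c` is odd.
  `F' ∈ B (c - k1) 0 * B ((a - 1) c - (k - k1)) 0`, and as before without `DD`.
* `c` odd, `k = n = a c` even: `a` is even, `F' ∈ B 0 0` is a constant, `Dl^(a c) = Dl^(2 c) * Dl^((a - 2) c)`: `im_aron` with `H = Dl^((a-2) c)` (in the image by induction if `a > 2`, `im_zero` if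
  `a = 2`).
-/

set_option autoImplicit false

open MvPolynomial Finset

namespace Helper87.TB

open Helper87.TR Helper87.TA

theorem tbmain_one_RH {m r : ℕ} : (1 : MvPolynomial (Fin m × Fin r) ℚ) ∈ RH r (fun _ : Fin m => 0) := by
  intro e he i
  rw [coeff_one] at he
  split_ifs at he with h
  · rw [← h]
    unfold rdeg
    simp
  · exact absurd rfl he

theorem tbmain_mul_RH {m r n n' : ℕ} {f g : MvPolynomial (Fin m × Fin r) ℚ}
    (hf : f ∈ RH r (fun _ : Fin m => n)) (hg : g ∈ RH r (fun _ : Fin m => n')) :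
    f * g ∈ RH r (fun _ : Fin m => n + n') :=
  RH_mul _ _ (Submodule.mul_mem_mul hf hg)

theorem tbmain_Dl_RH (k : ℕ) : Dl ^ k ∈ RH 3 (fun _ : Fin 3 => k) := by
  induction k with
  | zero =>
    rw [pow_zero]
    exact tbmain_one_RH
  | succ k ih =>
    rw [pow_succ]
    exact tbmain_mul_RH ih Dl_mem.1

theorem tbmain_one_Eqs {m r : ℕ} : (1 : MvPolynomial (Fin m × Fin r) ℚ) ∈ Eqs m r 0 := by
  intro σ
  rw [map_one, pow_zero, one_smul]

theorem tbmain_Dl_Eqs (k : ℕ) : Dl ^ k ∈ Eqs 3 3 k := by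
  induction k with
  | zero =>
    rw [pow_zero]
    exact tbmain_one_Eqs
  | succ k ih =>
    rw [pow_succ]
    exact Eqs_mul _ _ _ _ _ _ ih Dl_mem.2.1

/-- constants -/
theorem tbmain_const {m r : ℕ} {f : MvPolynomial (Fin m × Fin r) ℚ}
    (hf : f ∈ RH r (fun _ : Fin m => 0)) : f = (coeff 0 f) • (1 : MvPolynomial (Fin m × Fin r) ℚ) := by
  classical
  ext e
  rw [coeff_smul, coeff_one, smul_eq_mul]
  by_cases h : (0 : Fin m × Fin r →₀ ℕ) = e
  · rw [if_pos h, mul_one, h]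
  · rw [if_neg h, mul_zero]
    by_contra hne
    apply h
    have h1 := hf e hne
    ext p
    obtain ⟨i, j⟩ := p
    have h2 : ∑ j, e (i, j) = 0 := h1 i
    rw [Finset.sum_eq_zero_iff] at h2
    exact (h2 j (mem_univ j)).symm

/-- the case of a product -/
theorem tbmain_prod (a c : ℕ) (S : Type) [Fintype S] [DecidableEq S]
    (hS : Fintype.card S = 3 * (a + 1))
    (ih : RH 3 (fun _ : Fin 3 => a * c) ⊓ Eqs 3 3 0 ≤ Im (Fin (3 * a)) 3 3 a c)
    (G H : MvPolynomial (Fin 3 × Fin 3) ℚ)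
    (h1 : Dl * G ∈ RH 3 (fun _ : Fin 3 => c)) (h2 : Dl * G ∈ Eqs 3 3 0)
    (h3 : H ∈ RH 3 (fun _ : Fin 3 => a * c)) (h4 : H ∈ Eqs 3 3 0) :
    Dl * G * H ∈ Im S 3 3 (a + 1) c := by
  have h := im_mul a c (Fin (3 * a)) G H h1 h2 (ih ⟨h3, h4⟩)
  have hc : Fintype.card (Fin 3 ⊕ Fin (3 * a)) = Fintype.card S := by
    rw [hS, Fintype.card_sum, Fintype.card_fin, Fintype.card_fin]
    ring
  rw [im_equiv (Fintype.equivOfCardEq hc)] at h
  exact h

/-- even case -/
theorem main_even (a c k k1 : ℕ) (hk1 : 1 ≤ k1) (hkk : k1 ≤ k) (hc1 : k1 ≤ c) (hr : k - k1 ≤ a * c)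
    (he : k1 % 2 = 0) (he2 : k % 2 = 0) (S : Type) [Fintype S] [DecidableEq S]
    (hS : Fintype.card S = 3 * (a + 1))
    (ih : RH 3 (fun _ : Fin 3 => a * c) ⊓ Eqs 3 3 0 ≤ Im (Fin (3 * a)) 3 3 a c)
    (F' : MvPolynomial (Fin 3 × Fin 3) ℚ) (hF : F' ∈ B ((a + 1) * c - k) 0) :
    Dl ^ k * F' ∈ Im S 3 3 (a + 1) c := by
  have hn : (a + 1) * c - k = (c - k1) + (a * c - (k - k1)) := by
    have h1 : (a + 1) * c = a * c + c := by ring
    rw [h1]
    omega
  rw [hn] at hF
  have hF' := bin_split _ _ hF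
  refine Submodule.mul_induction_on (C := fun F' => Dl ^ k * F' ∈ Im S 3 3 (a + 1) c) hF' ?_ ?_
  · intro G1 hG1 G2 hG2
    obtain ⟨⟨a1, a2⟩, -⟩ := hG1
    obtain ⟨⟨b1, b2⟩, -⟩ := hG2
    have e1 : Dl * (Dl ^ (k1 - 1) * G1) = Dl ^ k1 * G1 := by
      rw [← mul_assoc, ← pow_succ', Nat.sub_add_cancel hk1]
    have e2 : Dl ^ k * (G1 * G2) = Dl * (Dl ^ (k1 - 1) * G1) * (Dl ^ (k - k1) * G2) := by
      rw [e1]
      have : Dl ^ k = Dl ^ k1 * Dl ^ (k - k1) := by
        rw [← pow_add, Nat.add_sub_cancel' hkk]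
      rw [this]
      ring
    rw [e2]
    refine tbmain_prod a c S hS ih _ _ ?_ ?_ ?_ ?_
    · rw [e1]
      have h := tbmain_mul_RH (tbmain_Dl_RH k1) a1
      rwa [Nat.add_sub_cancel' hc1] at h
    · rw [e1]
      have h := Eqs_mul _ _ _ _ _ _ (tbmain_Dl_Eqs k1) a2
      rwa [Eqs_parity 3 3 (k1 + 0) 0 (by omega)] at h
    · have h := tbmain_mul_RH (tbmain_Dl_RH (k - k1)) b1
      rwa [Nat.add_sub_cancel' hr] at h
    · have h := Eqs_mul _ _ _ _ _ _ (tbmain_Dl_Eqs (k - k1)) b2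
      rwa [Eqs_parity 3 3 (k - k1 + 0) 0 (by omega)] at h
  · intro x y hx hy
    rw [mul_add]
    exact Submodule.add_mem _ hx hy

/-- odd case -/
theorem main_odd (a c k k1 : ℕ) (hk1 : 1 ≤ k1) (hkk : k1 ≤ k) (hc1 : k1 + 2 ≤ c) (hr : k - k1 ≤ a * c)
    (he : k1 % 2 = 1) (he2 : k % 2 = 1) (S : Type) [Fintype S] [DecidableEq S]
    (hS : Fintype.card S = 3 * (a + 1))
    (ih : RH 3 (fun _ : Fin 3 => a * c) ⊓ Eqs 3 3 0 ≤ Im (Fin (3 * a)) 3 3 a c)
    (F' : MvPolynomial (Fin 3 × Fin 3) ℚ) (hF : F' ∈ B ((a + 1) * c - k - 2) 0) :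
    Dl ^ k * (DD * F') ∈ Im S 3 3 (a + 1) c := by
  have hn : (a + 1) * c - k - 2 = (c - k1 - 2) + (a * c - (k - k1)) := by
    have h1 : (a + 1) * c = a * c + c := by ring
    rw [h1]
    omega
  rw [hn] at hF
  have hF' := bin_split _ _ hF
  obtain ⟨⟨d1, d2⟩, -⟩ := DD_mem
  refine Submodule.mul_induction_on (C := fun F' => Dl ^ k * (DD * F') ∈ Im S 3 3 (a + 1) c) hF' ?_ ?_
  · intro G1 hG1 G2 hG2
    obtain ⟨⟨a1, a2⟩, -⟩ := hG1
    obtain ⟨⟨b1, b2⟩, -⟩ := hG2
    have e1 : Dl * (Dl ^ (k1 - 1) * DD * G1) = Dl ^ k1 * DD * G1 := by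
      rw [← mul_assoc, ← mul_assoc, ← pow_succ', Nat.sub_add_cancel hk1]
    have e2 : Dl ^ k * (DD * (G1 * G2)) =
        Dl * (Dl ^ (k1 - 1) * DD * G1) * (Dl ^ (k - k1) * G2) := by
      rw [e1]
      have : Dl ^ k = Dl ^ k1 * Dl ^ (k - k1) := by
        rw [← pow_add, Nat.add_sub_cancel' hkk]
      rw [this]
      ring
    rw [e2]
    refine tbmain_prod a c S hS ih _ _ ?_ ?_ ?_ ?_
    · rw [e1]
      have h := tbmain_mul_RH (tbmain_mul_RH (tbmain_Dl_RH k1) d1) a1
      have h' : k1 + 2 + (c - k1 - 2) = c := by omega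
      rwa [h'] at h
    · rw [e1]
      have h := Eqs_mul _ _ _ _ _ _ (Eqs_mul _ _ _ _ _ _ (tbmain_Dl_Eqs k1) d2) a2
      rwa [Eqs_parity 3 3 (k1 + 1 + 0) 0 (by omega)] at h
    · have h := tbmain_mul_RH (tbmain_Dl_RH (k - k1)) b1
      rwa [Nat.add_sub_cancel' hr] at h
    · have h := Eqs_mul _ _ _ _ _ _ (tbmain_Dl_Eqs (k - k1)) b2
      rwa [Eqs_parity 3 3 (k - k1 + 0) 0 (by omega)] at h
  · intro x y hx hy
    rw [mul_add, mul_add]
    exact Submodule.add_mem _ hx hy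

/-- the highest power of the determinant, `c` odd -/
theorem tbmain_top (c a : ℕ) (hc : 3 ≤ c) (hco : c % 2 = 1) (ha : 2 ≤ a) (hae : a * c % 2 = 0)
    (S : Type) [Fintype S] [DecidableEq S] (hS : Fintype.card S = 3 * a)
    (ih : 1 ≤ a - 2 → RH 3 (fun _ : Fin 3 => (a - 2) * c) ⊓ Eqs 3 3 0 ≤
      Im (Fin (3 * (a - 2))) 3 3 (a - 2) c)
    (F' : MvPolynomial (Fin 3 × Fin 3) ℚ) (h1 : F' ∈ RH 3 (fun _ : Fin 3 => 0))
    (h2 : F' ∈ Eqs 3 3 0) : Dl ^ (a * c) * F' ∈ Im S 3 3 a c := by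
  obtain ⟨b, rfl⟩ : ∃ b, a = b + 2 := ⟨a - 2, by omega⟩
  rw [Nat.add_sub_cancel] at ih
  have hH : Dl ^ (b * c) * F' ∈ Im (Fin (3 * b)) 3 3 b c := by
    rcases Nat.eq_zero_or_pos b with hb | hb
    · subst hb
      rw [Nat.zero_mul, pow_zero, one_mul, tbmain_const h1]
      exact Submodule.smul_mem _ _ (im_zero (Fin (3 * 0)) 3 3 c (by simp))
    · refine ih hb ⟨?_, ?_⟩
      · exact tbmain_mul_RH (tbmain_Dl_RH (b * c)) h1
      · have h := Eqs_mul _ _ _ _ _ _ (tbmain_Dl_Eqs (b * c)) h2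
        have hp : (b * c + 0) % 2 = 0 % 2 := by
          have e : (b + 2) * c = b * c + 2 * c := by ring
          rw [e] at hae
          omega
        rwa [Eqs_parity 3 3 (b * c + 0) 0 hp] at h
  have h := im_aron b c (Nat.odd_iff.2 hco) hc (Fin (3 * b)) _ hH
  have hcard : Fintype.card (Fin 6 ⊕ Fin (3 * b)) = Fintype.card S := by
    rw [hS, Fintype.card_sum, Fintype.card_fin, Fintype.card_fin]
    ring
  rw [im_equiv (Fintype.equivOfCardEq hcard)] at h
  have e : Dl ^ ((b + 2) * c) * F' = Dl ^ (2 * c) * (Dl ^ (b * c) * F') := by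
    rw [← mul_assoc, ← pow_add]
    congr 2
    ring
  rw [e]
  exact h

theorem im_main (c : ℕ) (hc : 3 ≤ c) (a : ℕ) (ha : 1 ≤ a) (S : Type) [Fintype S] [DecidableEq S]
    (hS : Fintype.card S = 3 * a) : RH 3 (fun _ : Fin 3 => a * c) ⊓ Eqs 3 3 0 ≤ Im S 3 3 a c := by
  have key : ∀ a : ℕ, 1 ≤ a → ∀ (S : Type) [Fintype S] [DecidableEq S], Fintype.card S = 3 * a →
      RH 3 (fun _ : Fin 3 => a * c) ⊓ Eqs 3 3 0 ≤ Im S 3 3 a c := by
    intro a
    induction a using Nat.strong_induction_on with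
    | _ a IH =>
      intro ha S _ _ hS
      rcases Nat.lt_or_ge a 2 with ha2 | ha2
      · have ha1 : a = 1 := by omega
        subst ha1
        rw [Nat.one_mul]
        exact im_one S 3 3 c (by rw [hS])
      · refine ortho (a * c) (Im S 3 3 a c) (fun F hF => im_Ed S 3 3 a c 2 0 F hF)
          (fun F hF => im_Ed S 3 3 a c 2 1 F hF) (fun k F hF => im_wc S 3 a c k F hF) ?_
        intro k F hF hs hw h0 h1
        by_cases hne : F = 0
        · rw [hne]
          exact Submodule.zero_mem _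
        obtain ⟨hkn, F', hF', rfl⟩ := hw_struct2 (a * c) k F hF hs hw h0 h1 hne
        obtain ⟨b, rfl⟩ : ∃ b, a = b + 1 := ⟨a - 1, by omega⟩
        have hb : 1 ≤ b := by omega
        have ihb : RH 3 (fun _ : Fin 3 => b * c) ⊓ Eqs 3 3 0 ≤ Im (Fin (3 * b)) 3 3 b c :=
          IH b (by omega) hb (Fin (3 * b)) (Fintype.card_fin _)
        have hbc : (b + 1) * c = b * c + c := by ring
        rcases Nat.mod_two_eq_zero_or_one k with hk | hk
        · -- even
          have hF0 : F' ∈ B ((b + 1) * c - k) 0 := by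
            obtain ⟨⟨u1, u2⟩, u3⟩ := hF'
            rw [Eqs_parity 3 3 k 0 hk] at u2
            exact ⟨⟨u1, u2⟩, u3⟩
          rcases Nat.eq_zero_or_pos k with hk0 | hk0
          · subst hk0
            rw [pow_zero, one_mul]
            exact bin_im (b + 1) c (by omega) hc S hS hF0
          · rcases Nat.mod_two_eq_zero_or_one c with hc2 | hc2
            · refine main_even b c k (min k c) ?_ (min_le_left _ _) (min_le_right _ _) ?_ ?_ hk S hS
                ihb F' hF0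
              · omega
              · omega
              · omega
            · rcases Nat.lt_or_ge k ((b + 1) * c) with hlt | hge
              · refine main_even b c k (min k (c - 1)) ?_ (min_le_left _ _) ?_ ?_ ?_ hk S hS
                  ihb F' hF0
                · omega
                · omega
                · omega
                · omega
              · have hkeq : k = (b + 1) * c := le_antisymm hkn hge
                obtain ⟨⟨u1, u2⟩, -⟩ := hF0
                rw [hkeq, Nat.sub_self] at u1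
                rw [hkeq]
                exact tbmain_top c (b + 1) hc hc2 ha2 (by rw [← hkeq]; exact hk) S hS
                  (fun h => IH (b + 1 - 2) (by omega) h (Fin (3 * (b + 1 - 2))) (Fintype.card_fin _))
                  F' u1 u2
        · -- odd
          have hF1 : F' ∈ B ((b + 1) * c - k) 1 := by
            obtain ⟨⟨u1, u2⟩, u3⟩ := hF'
            rw [Eqs_parity 3 3 k 1 hk] at u2
            exact ⟨⟨u1, u2⟩, u3⟩
          have hne' : F' ≠ 0 := by
            rintro rfl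
            exact hne (mul_zero _)
          obtain ⟨h2, F'', hF'', rfl⟩ := anti_div _ F' hF1 hne'
          rcases Nat.mod_two_eq_zero_or_one c with hc2 | hc2
          · have hpar : (b * c) % 2 = 0 := by
              rw [Nat.mul_mod, hc2, Nat.mul_zero, Nat.zero_mod]
            refine main_odd b c k (min k (c - 3)) ?_ (min_le_left _ _) ?_ ?_ ?_ hk S hS
              ihb F'' hF''
            · omega
            · omega
            · omega
            · omega
          · refine main_odd b c k (min k (c - 2)) ?_ (min_le_left _ _) ?_ ?_ ?_ hk S hS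
              ihb F'' hF''
            · omega
            · omega
            · omega
            · omega
  exact key a ha S hS

theorem tbmain_T0_RH (m n : ℕ) : T0 m n ∈ RH m (fun _ : Fin m => n) := by
  unfold T0
  refine Submodule.sum_mem _ fun σ _ => ?_
  have h : (∏ i : Fin m, (X (i, σ i) : MvPolynomial (Fin m × Fin m) ℚ) ^ n) =
      monomial (∑ i : Fin m, Finsupp.single (i, σ i) n) 1 := by
    rw [monomial_sum_one]
    exact Finset.prod_congr rfl fun i _ => X_pow_eq_monomial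
  rw [h]
  have h2 := monomial_mem_RH (∑ i : Fin m, Finsupp.single (i, σ i) n) (1 : ℚ)
  have e : rdeg (∑ i : Fin m, Finsupp.single (i, σ i) n) = fun _ : Fin m => n := by
    funext i
    unfold rdeg
    have h3 : ∀ j, (∑ i : Fin m, Finsupp.single (i, σ i) n) (i, j) = if j = σ i then n else 0 := by
      intro j
      rw [Finsupp.finsetSum_apply, Finset.sum_eq_single i]
      · rw [Finsupp.single_apply]
        by_cases hj : j = σ i
        · rw [if_pos hj, if_pos (by rw [hj])]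
        · rw [if_neg hj, if_neg]
          intro h'
          exact hj (Prod.ext_iff.1 h').2.symm
      · intro b _ hb
        rw [Finsupp.single_apply, if_neg]
        intro h'
        exact hb (Prod.ext_iff.1 h').1
      · intro h'
        exact absurd (mem_univ i) h'
    rw [Finset.sum_congr rfl fun j _ => h3 j, Finset.sum_ite_eq' Finset.univ (σ i) fun _ => n,
      if_pos (mem_univ _)]
  rw [e] at h2
  exact h2

theorem tbmain_T0_Eqs (m n : ℕ) : T0 m n ∈ Eqs m m 0 := by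
  intro τ
  rw [pow_zero, one_smul]
  unfold T0
  rw [map_sum]
  refine Fintype.sum_equiv (Equiv.mulRight τ⁻¹) _ _ fun σ => ?_
  rw [map_prod]
  refine Fintype.prod_equiv τ _ _ fun i => ?_
  rw [map_pow, rename_X]
  have h : (Equiv.mulRight τ⁻¹ σ) (τ i) = σ i := by
    simp
  rw [h]

theorem T0_im (a c : ℕ) (ha : 1 ≤ a) (hc : 3 ≤ c) :
    T0 3 (a * c) ∈ Im (Fin 3 × Fin a) 3 3 a c := by
  refine im_main c hc a ha (Fin 3 × Fin a) ?_ ⟨tbmain_T0_RH 3 (a * c), tbmain_T0_Eqs 3 (a * c)⟩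
  rw [Fintype.card_prod, Fintype.card_fin, Fintype.card_fin]

end Helper87.TB
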