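import Mathlib
import Pool.Agent.Helper87.TB.Defs

/-!
# TB-TrP: balanced maps and permutations

`π ↦ (s ↦ (π s).1)` maps the permutations of `Fin m × Fin a` onto the balanced maps, and all fibres have the same number `C` of elements (the number of permutations `ρ` with
`(ρ s).1 = s.1`; the fibre of `fst ∘ π₀` is the set of the `ρ * π₀`, check the order of composition).  Surjective: a balanced `κ` has fibres of size `a`, so there is a bijection `Fin m × Fin a → Fin m × Fin a`
with first coordinate `κ` (`Equiv.sigmaFiberEquiv` and `Fintype.equivFinOfCardEq` on the fibres).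
-/

set_option autoImplicit false

open MvPolynomial Finset

namespace Helper87.TB

open Helper87.TR Helper87.TA

/-- a balanced map is the first coordinate of a permutation -/
theorem tbtrp_exists (m a : ℕ) (κ : Fin m × Fin a → Fin m) (hκ : κ ∈ Bl (Fin m × Fin a) m a) :
    ∃ π : Equiv.Perm (Fin m × Fin a), ∀ s, (π s).1 = κ s := by
  have h1 : ∀ i, Fintype.card {s : Fin m × Fin a // κ s = i} = a := by
    intro i
    rw [Fintype.card_subtype]
    exact (Finset.mem_filter.1 hκ).2 i
  let e : ∀ i, {s : Fin m × Fin a // κ s = i} ≃ Fin a := fun i => Fintype.equivFinOfCardEq (h1 i)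
  let π : Fin m × Fin a ≃ Fin m × Fin a :=
    ((Equiv.sigmaFiberEquiv κ).symm.trans (Equiv.sigmaCongrRight e)).trans
      (Equiv.sigmaEquivProd (Fin m) (Fin a))
  refine ⟨π, fun s => ?_⟩
  rfl

/-- the first coordinate of a permutation is balanced -/
theorem tbtrp_mem (m a : ℕ) (π : Equiv.Perm (Fin m × Fin a)) :
    (fun s => (π s).1) ∈ Bl (Fin m × Fin a) m a := by
  refine Finset.mem_filter.2 ⟨Finset.mem_univ _, fun i => ?_⟩
  have h1 : (univ.filter fun s : Fin m × Fin a => (π s).1 = i) =
      (univ.filter fun s : Fin m × Fin a => s.1 = i).map π.symm.toEmbedding := by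
    ext s
    simp only [Finset.mem_filter, Finset.mem_univ, true_and, Finset.mem_map,
      Equiv.coe_toEmbedding]
    constructor
    · intro h
      exact ⟨π s, h, by simp⟩
    · rintro ⟨t, ht, rfl⟩
      simpa using ht
  have h2 : (univ.filter fun s : Fin m × Fin a => s.1 = i) =
      (univ : Finset (Fin a)).map ⟨fun j => (i, j), fun x y h => (Prod.mk.inj h).2⟩ := by
    ext s
    simp only [Finset.mem_filter, Finset.mem_univ, true_and, Finset.mem_map]
    constructor
    · intro h
      exact ⟨s.2, by rw [← h]; rfl⟩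
    · rintro ⟨j, rfl⟩
      rfl
  rw [h1, Finset.card_map, h2, Finset.card_map, Finset.card_univ, Fintype.card_fin]

theorem sum_perm_bl (m a : ℕ) : ∃ C : ℕ, 0 < C ∧
    ∀ G : (Fin m × Fin a → Fin m) → ℂ, ∑ π : Equiv.Perm (Fin m × Fin a), G (fun s => (π s).1) =
      (C : ℂ) * ∑ κ ∈ Bl (Fin m × Fin a) m a, G κ := by
  classical
  refine ⟨((univ : Finset (Equiv.Perm (Fin m × Fin a))).filter
    fun ρ => ∀ s, (ρ s).1 = s.1).card, ?_, ?_⟩
  · refine Finset.card_pos.2 ⟨1, ?_⟩
    simp
  · intro G
    rw [← Finset.sum_fiberwise_of_maps_to (g := fun π : Equiv.Perm (Fin m × Fin a) =>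
      (fun s => (π s).1)) (t := Bl (Fin m × Fin a) m a) (fun π _ => tbtrp_mem m a π),
      Finset.mul_sum]
    refine Finset.sum_congr rfl fun κ hκ => ?_
    have h1 : ∑ π ∈ univ.filter (fun π : Equiv.Perm (Fin m × Fin a) =>
        (fun s => (π s).1) = κ), G (fun s => (π s).1) =
        ∑ π ∈ univ.filter (fun π : Equiv.Perm (Fin m × Fin a) =>
        (fun s => (π s).1) = κ), G κ := by
      refine Finset.sum_congr rfl fun π hπ => ?_
      rw [(Finset.mem_filter.1 hπ).2]
    rw [h1, Finset.sum_const, nsmul_eq_mul]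
    congr 2
    obtain ⟨π₀, h0⟩ := tbtrp_exists m a κ hκ
    refine Finset.card_bij (fun π _ => π * π₀⁻¹) ?_ ?_ ?_
    · intro π hπ
      have h2 : ∀ s, (π s).1 = κ s := fun s => congrFun (Finset.mem_filter.1 hπ).2 s
      refine Finset.mem_filter.2 ⟨Finset.mem_univ _, fun s => ?_⟩
      rw [Equiv.Perm.mul_apply, h2, ← h0]
      simp
    · intro π _ π' _ h
      exact mul_right_cancel h
    · intro ρ hρ
      refine ⟨ρ * π₀, Finset.mem_filter.2 ⟨Finset.mem_univ _, ?_⟩, by simp⟩
      funext s
      rw [Equiv.Perm.mul_apply, (Finset.mem_filter.1 hρ).2, h0]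

end Helper87.TB
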