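import Mathlib
import Pool.Agent.Helper87.TB.Defs
import Pool.Agent.Helper87.TB.St.TrP
import Pool.Agent.Helper87.TA.St.TrL

/-!
# TB-TrL2: from polynomials to set partitions, second form

As `Helper87.TA.trL` (file TA/St/TrL.lean, copy from its proof), `κ₀` balanced, `ψ : X (i, j) ↦ ∑_{k : κ₀ k = j} X (i, k)`.  `T0 m (a c) = RS (Fin m × Fin a) m m a P` with `P ∈ RG (c)`, `P` a combination of monomials
`∏_{s} ∏_{l : Fin c} X (s, j s l)` (a monomial of degree `c` in every point).  For such a monomial and `κ ∈ Bl`: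
`ψ (∏_{s, l} X (κ s, j s l)) = ∏_{(s, l)} ∑_k C [κ₀ k = j s l] X (κ s, k)`, and `Phi_prod` (`I = (Fin m × Fin a) × Fin c`, `ii (s, l) = κ s`) gives
`Phi F (..) = ∑_{β : I ≃ Fin N} F (fibs fun x => κ ((β.symm x).1)) * ∏ [κ₀ (β (s, l)) = j s l]`.  Sum over `κ ∈ Bl` and use `sum_perm_bl` and `h` (every `β : I ≃ Fin N` is `β₀` (reassociated) followed by a `g`):
`Phi F (ψ (T0 m (a c))) = 0`.  The end of the proof of `trL` (`Phi F (ψ (T0 m n)) = M F (fibs κ₀)`, `M ≥ 1`) is the same.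
-/

set_option autoImplicit false

open MvPolynomial Finset

namespace Helper87.TB

open Helper87.TR Helper87.TA

/-- a monomial of degree `c` in every point -/
theorem tbtrl2_mono {S : Type} [Fintype S] [DecidableEq S] {r c : ℕ} (e : S × Fin r →₀ ℕ)
    (he : ∀ s, ∑ j, e (s, j) = c) :
    ∃ jj : S → Fin c → Fin r,
      (monomial e 1 : MvPolynomial (S × Fin r) ℚ) = ∏ s, ∏ l, X (s, jj s l) := by
  have h1 : ∀ s, Nonempty (Fin c ≃ Σ j : Fin r, Fin (e (s, j))) := by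
    intro s
    refine ⟨(Fintype.equivFinOfCardEq ?_).symm⟩
    rw [Fintype.card_sigma]
    simp only [Fintype.card_fin]
    exact he s
  refine ⟨fun s l => ((h1 s).some l).1, ?_⟩
  rw [monomial_eq, C_1, one_mul, Finsupp.prod_fintype _ _ (fun _ => pow_zero _),
    Fintype.prod_prod_type]
  refine prod_congr rfl fun s _ => ?_
  rw [(h1 s).some.prod_comp fun p : (Σ j : Fin r, Fin (e (s, j))) =>
    (X (s, p.1) : MvPolynomial (S × Fin r) ℚ), Fintype.prod_sigma]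
  refine prod_congr rfl fun j _ => ?_
  change _ = ∏ _y : Fin (e (s, j)), (X (s, j) : MvPolynomial (S × Fin r) ℚ)
  rw [prod_const, card_univ, Fintype.card_fin]

/-- the image of a product of coordinates -/
theorem tbtrl2_image {N m a c : ℕ} (κ₀ : Fin N → Fin m) (jj : Fin m × Fin a → Fin c → Fin m)
    (κ : Fin m × Fin a → Fin m) :
    trl_psi κ₀ (Rk m κ (∏ s, ∏ l, X (s, jj s l))) =
      ∏ ι : (Fin m × Fin a) × Fin c,
        ∑ k, C (if κ₀ k = jj ι.1 ι.2 then (1 : ℂ) else 0) * X (κ ι.1, k) := by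
  have h1 : Rk m κ (∏ s, ∏ l, X (s, jj s l)) =
      ∏ s, ∏ l, (X (κ s, jj s l) : MvPolynomial (Fin m × Fin m) ℚ) := by
    rw [map_prod]
    refine prod_congr rfl fun s _ => ?_
    rw [map_prod]
    refine prod_congr rfl fun l _ => ?_
    rw [Rk, rename_X]
  rw [h1, map_prod]
  conv_rhs => rw [Fintype.prod_prod_type]
  refine prod_congr rfl fun s _ => ?_
  rw [map_prod]
  refine prod_congr rfl fun l _ => ?_
  rw [trl_X]

theorem tbtrl2_zero {N m a c : ℕ} (β₀ : Fin m × Fin a × Fin c ≃ Fin N)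
    (F : Finset (Finset (Fin N)) → ℂ)
    (h : ∀ g : Equiv.Perm (Fin N), ∑ π : Equiv.Perm (Fin m × Fin a),
      F (fibs fun x => (π ((β₀.symm (g.symm x)).1, (β₀.symm (g.symm x)).2.1)).1) = 0)
    (κ₀ : Fin N → Fin m) (jj : Fin m × Fin a → Fin c → Fin m) :
    Phi F (trl_psi κ₀ (RS (Fin m × Fin a) m m a (∏ s, ∏ l, X (s, jj s l)))) = 0 := by
  have hI : Fintype.card ((Fin m × Fin a) × Fin c) = N := by
    rw [Fintype.card_congr ((Equiv.prodAssoc _ _ _).trans β₀), Fintype.card_fin]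
  have h1 : trl_psi κ₀ (RS (Fin m × Fin a) m m a (∏ s, ∏ l, X (s, jj s l))) =
      ∑ κ ∈ Bl (Fin m × Fin a) m a, ∏ ι : (Fin m × Fin a) × Fin c,
        ∑ k, C (if κ₀ k = jj ι.1 ι.2 then (1 : ℂ) else 0) * X (κ ι.1, k) := by
    rw [RS, LinearMap.sum_apply, map_sum]
    refine sum_congr rfl fun κ _ => ?_
    rw [AlgHom.toLinearMap_apply]
    exact tbtrl2_image κ₀ jj κ
  rw [h1, map_sum]
  have h2 : ∀ κ ∈ Bl (Fin m × Fin a) m a, Phi F (∏ ι : (Fin m × Fin a) × Fin c,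
      ∑ k, C (if κ₀ k = jj ι.1 ι.2 then (1 : ℂ) else 0) * X (κ ι.1, k)) =
      ∑ β : (Fin m × Fin a) × Fin c ≃ Fin N, F (fibs fun x => κ (β.symm x).1) *
        ∏ ι, (if κ₀ (β ι) = jj ι.1 ι.2 then (1 : ℂ) else 0) := fun κ _ =>
    Phi_prod F hI (fun ι : (Fin m × Fin a) × Fin c => κ ι.1)
      (fun ι k => if κ₀ k = jj ι.1 ι.2 then (1 : ℂ) else 0)
  rw [sum_congr rfl h2, sum_comm]
  refine sum_eq_zero fun β _ => ?_
  rw [← sum_mul]
  obtain ⟨K, hK, hG⟩ := sum_perm_bl m a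
  have h3 := hG fun κ => F (fibs fun x => κ (β.symm x).1)
  have h4 : ∑ π : Equiv.Perm (Fin m × Fin a), F (fibs fun x => (π (β.symm x).1).1) = 0 := by
    have h5 := h (β₀.symm.trans ((Equiv.prodAssoc (Fin m) (Fin a) (Fin c)).symm.trans β))
    rw [← h5]
    refine sum_congr rfl fun π _ => ?_
    congr 2
    funext x
    simp
  have h6 : (K : ℂ) ≠ 0 := Nat.cast_ne_zero.2 hK.ne'
  have h7 : (K : ℂ) * ∑ κ ∈ Bl (Fin m × Fin a) m a, F (fibs fun x => κ (β.symm x).1) = 0 := by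
    rw [← h3]
    exact h4
  rw [(mul_eq_zero.1 h7).resolve_left h6, zero_mul]

theorem trL2 {N m a c : ℕ} (hT : T0 m (a * c) ∈ Im (Fin m × Fin a) m m a c)
    (β₀ : Fin m × Fin a × Fin c ≃ Fin N) (F : Finset (Finset (Fin N)) → ℂ)
    (h : ∀ g : Equiv.Perm (Fin N), ∑ π : Equiv.Perm (Fin m × Fin a),
      F (fibs fun x => (π ((β₀.symm (g.symm x)).1, (β₀.symm (g.symm x)).2.1)).1) = 0)
    (κ₀ : Fin N → Fin m) (hκ : Bal (a * c) κ₀) : F (fibs κ₀) = 0 := by
  apply trl_main F κ₀ hκ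
  obtain ⟨P, hP, hPT⟩ := hT
  rw [← hPT]
  have h1 : P = ∑ e ∈ P.support, C (coeff e P) * monomial e 1 := by
    conv_lhs => rw [P.as_sum]
    refine sum_congr rfl fun e _ => ?_
    rw [C_mul_monomial, mul_one]
  rw [h1, map_sum, map_sum, map_sum]
  refine sum_eq_zero fun e he => ?_
  obtain ⟨jj, hjj⟩ := tbtrl2_mono e (fun s => hP e (mem_support_iff.1 he) s)
  rw [hjj, ← smul_eq_C_mul, map_smul, smul_eq_C_mul, map_mul, trl_C, ← smul_eq_C_mul, map_smul,
    tbtrl2_zero β₀ F h κ₀ jj, smul_zero]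

end Helper87.TB
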