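import Mathlib
import Pool.Agent.Helper87.TB.Defs
import Pool.Agent.Helper87.TB.St.TrL2
import Pool.Agent.Helper87.TA.St.TrJ
import Pool.Agent.Helper87.TA.St.TrA

/-!
# TB-TrA2: `m` blocks of size `a c` embed into `m a` blocks of size `c`, second form

Copy from the proof of `Helper87.TA.permLe_A` (file TA/St/TrA.lean): step (1) there shows that `J F = 0` implies `∑_π F (g h_π P₀) = 0` for all `g`, where
`h_π = β₀ ∘ (π × id) ∘ β₀⁻¹`; with the extension `F'` of `F` by zero and `fibs_perm` this is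
`∑_π F' (fibs fun x => (π⁻¹ (κ (g⁻¹ x))).1) = 0`, `κ x = ((β₀⁻¹ x).1, (β₀⁻¹ x).2.1)`; replace `π` by `π⁻¹` (`Equiv.sum_comp (Equiv.inv _)`): the hypothesis `h` of `trL2`.  Then `F' (fibs κ₀) = 0` for all
balanced `κ₀`, so `F = 0` by `exists_lab`.
-/

set_option autoImplicit false

open Finset

namespace Helper87.TB

open Helper87.TR Helper87.TA

theorem permLe_A2 (m a c : ℕ) (hm : 1 ≤ m) (ha : 1 ≤ a) (hc : 1 ≤ c)
    (hT : T0 m (a * c) ∈ Im (Fin m × Fin a) m m a c) : PermLe (m * (a * c)) m (a * c) (m * a) c := by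
  have hcard : Fintype.card (Fin m × Fin a × Fin c) = Fintype.card (Fin (m * (a * c))) := by
    simp
  let β₀ : Fin m × Fin a × Fin c ≃ Fin (m * (a * c)) := Fintype.equivOfCardEq hcard
  have hac : 1 ≤ a * c := Nat.mul_pos ha hc
  let P₀ : SetPart (m * (a * c)) m (a * c) :=
    mkP hac (Fintype.card_fin m) (fun x => (tra_e β₀ x).1.1) (tra_bal1 β₀)
  have hι : Fintype.card (Fin m × Fin a) = m * a := by simp
  let Q₀ : SetPart (m * (a * c)) (m * a) c :=
    mkP hc hι (fun x => (tra_e β₀ x).1) (tra_bal2 β₀)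
  refine ⟨Jm P₀ Q₀, ?_, fun g F => Jm_act P₀ Q₀ g F⟩
  rw [injective_iff_map_eq_zero]
  intro F hF
  -- values of translates
  have hP : ∀ g : Equiv.Perm (Fin (m * (a * c))),
      (g • P₀).1 = fibs fun x => (tra_e β₀ (g.symm x)).1.1 := fun g => fibs_perm g _
  have hQ : ∀ g : Equiv.Perm (Fin (m * (a * c))),
      (g • Q₀).1 = fibs fun x => (tra_e β₀ (g.symm x)).1 := fun g => fibs_perm g _
  -- the stabilizer of Q₀
  have hst : ∀ s : Equiv.Perm (Fin (m * (a * c))), s • Q₀ = Q₀ →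
      ∃ ρ : Equiv.Perm (Fin m × Fin a), s • P₀ = tra_h β₀ ρ • P₀ := by
    intro s hs
    have h1 : fibs (fun x => (tra_e β₀ x).1) = fibs fun x => (tra_e β₀ (s.symm x)).1 := by
      rw [← hQ s, hs]
      rfl
    have hb : Bal c fun x => (tra_e β₀ (s.symm x)).1 := by
      intro i
      refine Eq.trans ?_ (tra_bal2 β₀ i)
      refine card_bij' (fun x _ => s.symm x) (fun x _ => s x) ?_ ?_ ?_ ?_
      · intro x hx
        simpa using hx
      · intro x hx
        simpa using hx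
      · intro x _
        simp
      · intro x _
        simp
    obtain ⟨ρ, hρ⟩ := exists_perm hc _ _ (tra_bal2 β₀) hb h1
    refine ⟨ρ.symm, Subtype.ext ?_⟩
    rw [hP, hP]
    congr 1
    funext x
    rw [tra_e_h_symm, hρ x]
    rfl
  -- step 1
  have h1 : ∀ g : Equiv.Perm (Fin (m * (a * c))),
      ∑ π : Equiv.Perm (Fin m × Fin a), F ((g * tra_h β₀ π) • P₀) = 0 := by
    intro g
    have h2 : ∀ g : Equiv.Perm (Fin (m * (a * c))),
        ∑ s : Equiv.Perm (Fin (m * (a * c))), (if s • Q₀ = Q₀ then F ((g * s) • P₀) else 0) = 0 := by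
      intro g
      have h3 : Jm P₀ Q₀ F (g • Q₀) = 0 := by rw [hF]; rfl
      refine Eq.trans ?_ h3
      change _ = ∑ s : Equiv.Perm (Fin (m * (a * c))), if s • Q₀ = g • Q₀ then F (s • P₀) else 0
      refine Fintype.sum_equiv (Equiv.mulLeft g) _ _ fun s => ?_
      rw [Equiv.coe_mulLeft, mul_smul g s Q₀]
      by_cases h4 : s • Q₀ = Q₀
      · rw [if_pos h4, if_pos (by rw [h4])]
      · rw [if_neg h4, if_neg fun h5 => h4 (smul_left_cancel g h5)]
    have h3 : ∑ s : Equiv.Perm (Fin (m * (a * c))), (if s • Q₀ = Q₀ then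
        ∑ π : Equiv.Perm (Fin m × Fin a), F ((g * tra_h β₀ π) • P₀) else 0) = 0 := by
      have h4 : ∑ π : Equiv.Perm (Fin m × Fin a), ∑ s : Equiv.Perm (Fin (m * (a * c))),
          (if s • Q₀ = Q₀ then F ((g * tra_h β₀ π * s) • P₀) else 0) = 0 :=
        sum_eq_zero fun π _ => h2 _
      rw [sum_comm] at h4
      refine Eq.trans ?_ h4
      refine sum_congr rfl fun s _ => ?_
      by_cases h5 : s • Q₀ = Q₀
      · simp only [if_pos h5]
        obtain ⟨ρ, hρ⟩ := hst s h5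
        symm
        refine Fintype.sum_equiv (Equiv.mulRight ρ) _ _ fun π => ?_
        rw [Equiv.coe_mulRight, tra_h_mul, mul_smul (g * tra_h β₀ π) s P₀, hρ, ← mul_smul, mul_assoc]
      · simp only [if_neg h5, sum_const_zero]
    rw [← sum_filter, sum_const, nsmul_eq_mul, mul_eq_zero] at h3
    rcases h3 with h3 | h3
    · exfalso
      rw [Nat.cast_eq_zero, card_eq_zero] at h3
      have h4 : (1 : Equiv.Perm (Fin (m * (a * c)))) ∈
          univ.filter fun s : Equiv.Perm (Fin (m * (a * c))) => s • Q₀ = Q₀ := by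
        rw [mem_filter]
        exact ⟨mem_univ _, one_smul _ _⟩
      rw [h3] at h4
      exact absurd h4 (notMem_empty _)
    · exact h3
  -- step 2
  classical
  let F' : Finset (Finset (Fin (m * (a * c)))) → ℂ := fun P =>
    if h : P.card = m ∧ (∀ B ∈ P, B.card = a * c) ∧ ∀ x, ∃! B, B ∈ P ∧ x ∈ B then F ⟨P, h⟩ else 0
  have hF' : ∀ P : SetPart (m * (a * c)) m (a * c), F' P.1 = F P := by
    intro P
    have h3 : F' P.1 = F ⟨P.1, P.2⟩ := dif_pos P.2
    rw [h3]
  have h3 := fun κ₀ hκ => trL2 hT β₀ F' (fun g => by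
    refine Eq.trans ?_ (h1 g)
    refine Fintype.sum_equiv (Equiv.inv (Equiv.Perm (Fin m × Fin a))) _ _ fun π => ?_
    rw [← hF' ((g * tra_h β₀ ((Equiv.inv (Equiv.Perm (Fin m × Fin a))) π)) • P₀), hP]
    congr 1
    congr 1
    funext x
    have h4 : (g * tra_h β₀ ((Equiv.inv (Equiv.Perm (Fin m × Fin a))) π)).symm x =
      (tra_h β₀ ((Equiv.inv (Equiv.Perm (Fin m × Fin a))) π)).symm (g.symm x) := rfl
    rw [h4, tra_e_h_symm]
    rfl) κ₀ hκ
  funext P
  obtain ⟨κ, hκ, hPκ⟩ := exists_lab P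
  rw [← hF' P, hPκ, h3 κ hκ]
  rfl

end Helper87.TB
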